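import Pool.Agent.Lib.TH.Defs

/-!
# TH.Chord (size 130): the chord inequality

`N GG(P + t a, Q + t b) ≤ (N - t) GG(P, Q) + t GG(P + N a, Q + N b)` for `t ≤ N`.

PROOF. For `LB1` and `LB2` separately (then `max`: `GG` at the intermediate point is
`max (..) (..) + log 2`, each of the two is at most the combination of the two maxima).
(1) `log ((P + t a)!)`: `N log ((P+ta)!) ≤ (N - t) log (P!) + t log ((P+Na)!)` by convexity of
`log Γ` on `(0, ∞)` (`Real.convexOn_log_Gamma`, `Real.Gamma_nat_eq_factorial`) at the points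
`P + 1`, `P + N a + 1` with weights `1 - t/N`, `t/N`.
(2) linear terms: equality. (3) the quadratic terms `c i j` and `c j²`, `c ≥ 0`,
`i = P + t a`, `j = Q + t b`: `N i_t j_t ≤ (N-t) P Q + t (P + N a)(Q + N b)` since the
difference is `t (N - t) N... a b ≥ 0` (`nlinarith`), the same for `j²`.
-/

namespace Pool.TH

private theorem chord_log_fact {N P a t : ℕ} (hN : 1 ≤ N) (ht : t ≤ N) :
    (N : ℝ) * Real.log ((P + t * a).factorial) ≤
      ((N : ℝ) - t) * Real.log (P.factorial) + t * Real.log ((P + N * a).factorial) := by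
  have hN0 : (0 : ℝ) < N := by exact_mod_cast hN
  have ht0 : (t : ℝ) ≤ N := by exact_mod_cast ht
  have hx : ((P : ℝ) + 1) ∈ Set.Ioi (0 : ℝ) := by
    simp only [Set.mem_Ioi]; positivity
  have hy : (((P + N * a : ℕ) : ℝ) + 1) ∈ Set.Ioi (0 : ℝ) := by
    simp only [Set.mem_Ioi]; positivity
  have hw1 : 0 ≤ ((N : ℝ) - t) / N := div_nonneg (by linarith) hN0.le
  have hw2 : 0 ≤ (t : ℝ) / N := div_nonneg (Nat.cast_nonneg t) hN0.le
  have hw : ((N : ℝ) - t) / N + (t : ℝ) / N = 1 := by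
    field_simp; ring
  have h1 := Real.convexOn_log_Gamma.2 hx hy hw1 hw2 hw
  have h2 : ((N : ℝ) - t) / N * ((P : ℝ) + 1) + (t : ℝ) / N * (((P + N * a : ℕ) : ℝ) + 1) =
      ((P + t * a : ℕ) : ℝ) + 1 := by
    push_cast
    field_simp
    ring
  simp only [smul_eq_mul, Function.comp] at h1
  rw [h2, Real.Gamma_nat_eq_factorial, Real.Gamma_nat_eq_factorial,
    Real.Gamma_nat_eq_factorial] at h1
  have h3 := mul_le_mul_of_nonneg_left h1 hN0.le
  have h4 : (N : ℝ) * (((N : ℝ) - t) / N * Real.log (P.factorial) +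
      (t : ℝ) / N * Real.log ((P + N * a).factorial)) =
      ((N : ℝ) - t) * Real.log (P.factorial) + t * Real.log ((P + N * a).factorial) := by
    field_simp
  rwa [h4] at h3

private theorem chord_mul {n p q α β τ c : ℝ} (hn : 0 ≤ n) (hα : 0 ≤ α) (hβ : 0 ≤ β)
    (hτ : 0 ≤ τ) (hτn : τ ≤ n) (hc : 0 ≤ c) :
    n * ((p + τ * α) * (q + τ * β) * c) ≤
      (n - τ) * (p * q * c) + τ * ((p + n * α) * (q + n * β) * c) := by
  have h : 0 ≤ n * τ * (n - τ) * (α * β) * c := by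
    have : 0 ≤ n - τ := by linarith
    positivity
  nlinarith [h]

private theorem chord_LB1 {N P Q a b t : ℕ} (hN : 1 ≤ N) (ht : t ≤ N) :
    (N : ℝ) * LB1 N (P + t * a) (Q + t * b) ≤
      ((N : ℝ) - t) * LB1 N P Q + t * LB1 N (P + N * a) (Q + N * b) := by
  have hN0 : (0 : ℝ) < N := by exact_mod_cast hN
  have ht0 : (t : ℝ) ≤ N := by exact_mod_cast ht
  have h1 := chord_log_fact (P := P) (a := a) hN ht
  have hc1 : (0 : ℝ) ≤ 2 / (q2 * (1000 * N) * d1 ^ 2) := by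
    have : (0 : ℝ) ≤ q2 := by norm_num [q2]
    positivity
  have hc2 : (0 : ℝ) ≤ 1 / (q1 * (1000 * N) * d1 ^ 2) := by
    have : (0 : ℝ) ≤ q1 := by norm_num [q1]
    positivity
  have h2 := chord_mul (p := P) (q := Q) hN0.le (Nat.cast_nonneg (α := ℝ) a)
    (Nat.cast_nonneg (α := ℝ) b) (Nat.cast_nonneg (α := ℝ) t) ht0 hc1
  have h3 := chord_mul (p := Q) (q := Q) hN0.le (Nat.cast_nonneg (α := ℝ) b)
    (Nat.cast_nonneg (α := ℝ) b) (Nat.cast_nonneg (α := ℝ) t) ht0 hc2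
  unfold LB1
  push_cast
  have e1 : ∀ i j : ℝ, 2 * i * j / (q2 * (1000 * N) * d1 ^ 2) =
      i * j * (2 / (q2 * (1000 * N) * d1 ^ 2)) := fun i j => by ring
  have e2 : ∀ j : ℝ, j ^ 2 / (q1 * (1000 * N) * d1 ^ 2) =
      j * j * (1 / (q1 * (1000 * N) * d1 ^ 2)) := fun j => by ring
  simp only [e1, e2]
  linarith

private theorem chord_LB2 {N P Q a b t : ℕ} (hN : 1 ≤ N) (ht : t ≤ N) :
    (N : ℝ) * LB2 N (P + t * a) (Q + t * b) ≤
      ((N : ℝ) - t) * LB2 N P Q + t * LB2 N (P + N * a) (Q + N * b) := by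
  have hN0 : (0 : ℝ) < N := by exact_mod_cast hN
  have ht0 : (t : ℝ) ≤ N := by exact_mod_cast ht
  have h1 := chord_log_fact (P := Q) (a := b) hN ht
  have hc1 : (0 : ℝ) ≤ 2 / (q1 * (1000 * N) * d1 ^ 2) := by
    have : (0 : ℝ) ≤ q1 := by norm_num [q1]
    positivity
  have hc2 : (0 : ℝ) ≤ 1 / (q2 * (1000 * N) * d1 ^ 2) := by
    have : (0 : ℝ) ≤ q2 := by norm_num [q2]
    positivity
  have h2 := chord_mul (p := P) (q := Q) hN0.le (Nat.cast_nonneg (α := ℝ) a)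
    (Nat.cast_nonneg (α := ℝ) b) (Nat.cast_nonneg (α := ℝ) t) ht0 hc1
  have h3 := chord_mul (p := P) (q := P) hN0.le (Nat.cast_nonneg (α := ℝ) a)
    (Nat.cast_nonneg (α := ℝ) a) (Nat.cast_nonneg (α := ℝ) t) ht0 hc2
  unfold LB2
  push_cast
  have e1 : ∀ i j : ℝ, 2 * i * j / (q1 * (1000 * N) * d1 ^ 2) =
      i * j * (2 / (q1 * (1000 * N) * d1 ^ 2)) := fun i j => by ring
  have e2 : ∀ j : ℝ, j ^ 2 / (q2 * (1000 * N) * d1 ^ 2) =
      j * j * (1 / (q2 * (1000 * N) * d1 ^ 2)) := fun j => by ring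
  simp only [e1, e2]
  linarith

theorem GG_chord {lM lE : ℝ} {N P Q a b t : ℕ} (hN : 1 ≤ N) (ht : t ≤ N) :
    (N : ℝ) * GG lM lE N (P + t * a) (Q + t * b) ≤
      ((N : ℝ) - t) * GG lM lE N P Q + t * GG lM lE N (P + N * a) (Q + N * b) := by
  have hN0 : (0 : ℝ) < N := by exact_mod_cast hN
  have ht0 : (t : ℝ) ≤ N := by exact_mod_cast ht
  have h1 := chord_LB1 (P := P) (Q := Q) (a := a) (b := b) hN ht
  have h2 := chord_LB2 (P := P) (Q := Q) (a := a) (b := b) hN ht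
  unfold GG
  rw [mul_add, mul_max_of_nonneg _ _ hN0.le]
  have ht1 : (0 : ℝ) ≤ (N : ℝ) - t := by linarith
  have ht2 : (0 : ℝ) ≤ (t : ℝ) := Nat.cast_nonneg t
  have h3 := mul_le_mul_of_nonneg_left (le_max_left (lM + LB1 N P Q) (lE + LB2 N P Q)) ht1
  have h4 := mul_le_mul_of_nonneg_left (le_max_right (lM + LB1 N P Q) (lE + LB2 N P Q)) ht1
  have h5 := mul_le_mul_of_nonneg_left (le_max_left (lM + LB1 N (P + N * a) (Q + N * b))
    (lE + LB2 N (P + N * a) (Q + N * b))) ht2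
  have h6 := mul_le_mul_of_nonneg_left (le_max_right (lM + LB1 N (P + N * a) (Q + N * b))
    (lE + LB2 N (P + N * a) (Q + N * b))) ht2
  have h7 : max ((N : ℝ) * (lM + LB1 N (P + t * a) (Q + t * b)))
      ((N : ℝ) * (lE + LB2 N (P + t * a) (Q + t * b))) ≤
      ((N : ℝ) - t) * max (lM + LB1 N P Q) (lE + LB2 N P Q) +
        t * max (lM + LB1 N (P + N * a) (Q + N * b)) (lE + LB2 N (P + N * a) (Q + N * b)) := by
    refine max_le ?_ ?_
    · nlinarith [h1, h3, h5]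
    · nlinarith [h2, h4, h6]
  nlinarith [h7]

end Pool.TH
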