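import Pool.Agent.Lib.TH.Tools

/-!
# TH.Coef (size 110): coefficients at `X^(p l - 1)` vanish mod `p`

Let `p` be prime, `A = p a + r1`, `B = p b + r2`, `C = p c + r3` with `r1 + r2 + r3 + 2 ≤ p`.
Then `p` divides the coefficient of `X^A (1 - X)^B (1 - 9 X)^C` at `X^(p l - 1)`, for all `l ≥ 1`.

PROOF. Map to `ZMod p` (`(ZMod.intCast_zmod_eq_zero_iff_dvd _ p).1`, `Polynomial.coeff_map`).
In `(ZMod p)[X]` one has `f ^ p = expand (ZMod p) p f` (`ZMod.expand_card`), so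
`X^(p a) (1-X)^(p b) (1-9X)^(p c) = (X^a (1-X)^b (1-9X)^c)^p = expand _ p R` with
`R = X^a (1-X)^b (1-9X)^c`; hence the polynomial is `expand _ p R * h`,
`h = X^r1 (1-X)^r2 (1-9X)^r3`, `natDegree h ≤ r1 + r2 + r3 ≤ p - 2`.
`Polynomial.coeff_mul` at `p l - 1`: sum over `(i, j)` with `i + j = p l - 1` of
`(expand R).coeff i * h.coeff j`. If `p ∣ i` is false the first factor is zero
(`Polynomial.coeff_expand`, `hp.pos`). If `i = p i'`, then `i ≤ p l - 1` gives `i' + 1 ≤ l`, so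
`j = p l - 1 - p i' ≥ p - 1 > natDegree h` and the second factor is zero
(`Polynomial.coeff_eq_zero_of_natDegree_lt`).
-/

namespace Pool.TH

open Polynomial Finset

private theorem Coef_deg_lin {p : ℕ} [Fact p.Prime] (u : ZMod p) : (1 - C u * X : (ZMod p)[X]).natDegree ≤ 1 := by
  refine (natDegree_sub_le _ _).trans ?_
  rw [natDegree_one]
  exact max_le (Nat.zero_le _) ((natDegree_C_mul_le u X).trans natDegree_X_le)

private theorem Coef_deg {p : ℕ} [Fact p.Prime] (u v : ZMod p) (r1 r2 r3 : ℕ) :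
    (X ^ r1 * (1 - C u * X) ^ r2 * (1 - C v * X) ^ r3 : (ZMod p)[X]).natDegree ≤ r1 + r2 + r3 := by
  have h1 : (X ^ r1 : (ZMod p)[X]).natDegree ≤ r1 := natDegree_X_pow_le r1
  have h2 : ((1 - C u * X) ^ r2 : (ZMod p)[X]).natDegree ≤ r2 * 1 :=
    natDegree_pow_le_of_le r2 (Coef_deg_lin u)
  have h3 : ((1 - C v * X) ^ r3 : (ZMod p)[X]).natDegree ≤ r3 * 1 :=
    natDegree_pow_le_of_le r3 (Coef_deg_lin v)
  have h4 := natDegree_mul_le (p := (X ^ r1 : (ZMod p)[X])) (q := (1 - C u * X) ^ r2)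
  have h5 := natDegree_mul_le (p := (X ^ r1 * (1 - C u * X) ^ r2 : (ZMod p)[X]))
    (q := (1 - C v * X) ^ r3)
  omega

theorem coef_dvd {p : ℕ} [hp : Fact p.Prime] {a b c r1 r2 r3 l : ℕ} (h : r1 + r2 + r3 + 2 ≤ p)
    (hl : 1 ≤ l) :
    (p : ℤ) ∣ (WZ (p * a + r1) (p * b + r2) (p * c + r3)).coeff (p * l - 1) := by
  rw [← ZMod.intCast_zmod_eq_zero_iff_dvd]
  have hmap : (((WZ (p * a + r1) (p * b + r2) (p * c + r3)).coeff (p * l - 1) : ℤ) : ZMod p) =
      ((WZ (p * a + r1) (p * b + r2) (p * c + r3)).map (Int.castRingHom (ZMod p))).coeff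
        (p * l - 1) := by
    rw [coeff_map]
    rfl
  rw [hmap]
  have e1 : (WZ (p * a + r1) (p * b + r2) (p * c + r3)).map (Int.castRingHom (ZMod p)) =
      expand (ZMod p) p (X ^ a * (1 - X) ^ b * (1 - 9 * X) ^ c) *
        (X ^ r1 * (1 - C 1 * X) ^ r2 * (1 - C 9 * X) ^ r3) := by
    rw [ZMod.expand_card]
    unfold WZ
    simp only [Polynomial.map_mul, Polynomial.map_pow, Polynomial.map_sub, Polynomial.map_one,
      map_X, Polynomial.map_ofNat, map_one, one_mul, map_ofNat]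
    rw [pow_add, pow_add, pow_add, pow_mul', pow_mul', pow_mul']
    rw [mul_pow, mul_pow]
    ring
  rw [e1, coeff_mul]
  refine Finset.sum_eq_zero ?_
  rintro ⟨i, j⟩ hij
  rw [HasAntidiagonal.mem_antidiagonal] at hij
  simp only at hij ⊢
  have hp1 : 1 ≤ p := hp.out.one_lt.le
  rw [coeff_expand hp.out.pos]
  by_cases hd : p ∣ i
  · obtain ⟨i', rfl⟩ := hd
    have h1 : (X ^ r1 * (1 - C 1 * X) ^ r2 * (1 - C 9 * X) ^ r3 : (ZMod p)[X]).coeff j = 0 := by
      apply coeff_eq_zero_of_natDegree_lt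
      refine lt_of_le_of_lt (Coef_deg 1 9 r1 r2 r3) ?_
      have hpl : 1 ≤ p * l := Nat.mul_pos hp1 hl
      have h2 : i' < l := by
        by_contra hc
        have h3 : p * l ≤ p * i' := Nat.mul_le_mul_left p (not_lt.1 hc)
        omega
      have h4 : p * (i' + 1) ≤ p * l := Nat.mul_le_mul_left p h2
      rw [Nat.mul_add, Nat.mul_one] at h4
      omega
    rw [h1, mul_zero]
  · rw [if_neg hd, zero_mul]

end Pool.TH
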