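import Mathlib

/-!
# TH: effective bound for the distance of `(3/2)^m` to the nearest integer: definitions

Project MP_e99a4c_nt (helper3).  Paper: `/team-store/MP_e99a4c_nt_paper.md`.

* `Lf M T f = M ∫_0^1 f - T ∫_{1/9}^1 f` on rational polynomials;
* `Dm M T N` the Hankel matrix of size `55 N` of `f ↦ Lf M T (W f)`,
  `W = u^(912 N) (1 - u)^(497 N) (1 - 9 u)^(455 N)`; `n = 1000 N`;
* `He Q k` the monic Hermite polynomials of the weight `exp (-Q x^2)`;
* `LB1, LB2` the logarithms of the two parts of the bound for the norm of the polynomial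
  `Pp N i j = H_i(x - xs) H_j(x - ys)`.
-/

namespace Pool.TH

open Polynomial

noncomputable section

/-- `J(k) = M ∫_0^1 u^k du - T ∫_{1/9}^1 u^k du` -/
def Jm (M T : ℚ) (k : ℕ) : ℚ := (M - T + T / 9 ^ (k + 1)) / (k + 1)

/-- the functional `f ↦ M ∫_0^1 f - T ∫_{1/9}^1 f` -/
def Lf (M T : ℚ) : ℚ[X] →ₗ[ℚ] ℚ := Polynomial.lsum fun i => LinearMap.mulRight ℚ (Jm M T i)

/-- `X^A (1 - X)^B (1 - 9 X)^C`, integer coefficients -/
def WZ (A B C : ℕ) : ℤ[X] := X ^ A * (1 - X) ^ B * (1 - 9 * X) ^ C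

/-- the weight `X^(912 N) (1 - X)^(497 N) (1 - 9 X)^(455 N)` -/
def Wt (N : ℕ) : ℚ[X] := X ^ (912 * N) * (1 - X) ^ (497 * N) * (1 - 9 * X) ^ (455 * N)

/-- the Hankel matrix of size `55 N` -/
def Dm (M T : ℚ) (N : ℕ) : Matrix (Fin (55 * N)) (Fin (55 * N)) ℚ :=
  Matrix.of fun i j => Lf M T (Wt N * X ^ ((i : ℕ) + (j : ℕ)))

/-- `T = 3^(3000 N) / 2^m` -/
def TT (N m : ℕ) : ℚ := 3 ^ (3000 * N) / 2 ^ m

/-! ### the archimedean part -/

/-- monic Hermite polynomials of the weight `exp (-Q x^2)` -/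
def He (Q : ℝ) : ℕ → ℝ[X]
  | 0 => 1
  | (k + 1) => X * He Q k - C (1 / (2 * Q)) * derivative (He Q k)

/-- half curvature on `(0, 1/9)` -/
def q1 : ℝ := 220
/-- half curvature on `(1/9, 1)` -/
def q2 : ℝ := 83 / 20
/-- contact point on `(0, 1/9)` -/
def x1 : ℝ := 913 / 12500
/-- contact point on `(1/9, 1)` -/
def y1 : ℝ := 2326 / 3125
/-- `d1 = y1 - x1` -/
def d1 : ℝ := 8391 / 12500
/-- maximum on `(0, 1/9)` -/
def A1 : ℝ := -(29115 / 10000)
/-- maximum on `(1/9, 1)` -/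
def A2 : ℝ := -(15529 / 100000)

/-- centre of the first Hermite factor, `i` roots near `x1`, `j` roots near `y1` -/
def xs (N j : ℕ) : ℝ := x1 - j / (q1 * (1000 * N) * d1)
/-- centre of the second Hermite factor -/
def ys (N i : ℕ) : ℝ := y1 + i / (q2 * (1000 * N) * d1)

/-- the monic polynomial of degree `i + j` -/
def Pp (N i j : ℕ) : ℝ[X] :=
  (He (q1 * (1000 * N)) i).comp (X - C (xs N j)) * (He (q2 * (1000 * N)) j).comp (X - C (ys N i))

/-- the weight as a real function -/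
def wr (N : ℕ) (x : ℝ) : ℝ := x ^ (912 * N) * (1 - x) ^ (497 * N) * (1 - 9 * x) ^ (455 * N)

/-- logarithm of the bound for `∫_0^{1/9} Pp² w` -/
def LB1 (N i j : ℕ) : ℝ :=
  1000 * N * A1 + 2 * j * Real.log d1 + 2 * i * j / (q2 * (1000 * N) * d1 ^ 2)
    + j ^ 2 / (q1 * (1000 * N) * d1 ^ 2) + Real.log (i.factorial) - i * Real.log (2 * q1 * (1000 * N))

/-- logarithm of the bound for `∫_{1/9}^1 Pp² |w|` -/
def LB2 (N i j : ℕ) : ℝ :=
  1000 * N * A2 + 2 * i * Real.log d1 + 2 * i * j / (q1 * (1000 * N) * d1 ^ 2)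
    + i ^ 2 / (q2 * (1000 * N) * d1 ^ 2) + Real.log (j.factorial) - j * Real.log (2 * q2 * (1000 * N))

/-- the coefficient of `N` in `LB1 N (p N) (q N)` -/
def va1 (p q : ℕ) : ℝ :=
  1000 * A1 + 2 * q * Real.log d1 + 2 * p * q / (1000 * q2 * d1 ^ 2) + q ^ 2 / (1000 * q1 * d1 ^ 2)
    + p * (Real.log (p / 440000) - 1)

/-- the coefficient of `N` in `LB2 N (p N) (q N)` -/
def va2 (p q : ℕ) : ℝ :=
  1000 * A2 + 2 * p * Real.log d1 + 2 * p * q / (1000 * q1 * d1 ^ 2) + p ^ 2 / (1000 * q2 * d1 ^ 2)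
    + q * (Real.log (q / 8300) - 1)

/-- `lM` is an upper bound for `log M`, `lE` for `log |T - M|` -/
def GG (lM lE : ℝ) (N i j : ℕ) : ℝ := max (lM + LB1 N i j) (lE + LB2 N i j) + Real.log 2

/-- minimum over `i + j = k` -/
def Gm (lM lE : ℝ) (N k : ℕ) : ℝ :=
  (Finset.range (k + 1)).inf' ⟨0, by simp⟩ fun j => GG lM lE N (k - j) j

end

/-! ### the table of the savings -/

/-- An entry of the table: the primes `u1/v1 * N < p ≤ u2/v2 * N`, the quotients `q`, the flags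
`b` (`true` when the factor is completed to a `p`-th power), the number of good rows is
`al * p + be * N`. -/
structure Ent where
  u1 : ℕ
  v1 : ℕ
  u2 : ℕ
  v2 : ℕ
  q1 : ℕ
  q2 : ℕ
  q3 : ℕ
  b1 : Bool
  b2 : Bool
  b3 : Bool
  al : ℤ
  be : ℤ
deriving DecidableEq, Repr

end Pool.TH
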