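import Pool.Agent.Lib.TH.Tools

/-!
# TH.DetB (size 120): change of basis in Hankel determinants

`R` a commutative ring, `ℓ : R[X] →ₗ[R] R`, `g i` polynomials with `natDegree (g i) ≤ i`.
(1) `det (ℓ (g_i X^j)) = (∏ coeff_i (g_i)) det (ℓ (X^(i+j)))`;
(2) `det (ℓ (g_i g_j)) = (∏ coeff_i (g_i))^2 det (ℓ (X^(i+j)))`.

PROOF. Copy `det_basis` of `Pool/Agent/Lib/PiMu/DetNorm.lean` (lines 78-108): with
`A = Matrix.of fun i k => (g i).coeff k` (lower triangular, `Matrix.det_of_lowerTriangular`,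
determinant `∏ (g i).coeff i`) and `H = Matrix.of fun i j => ℓ (X^(i+j))` one has
`Matrix.of (ℓ (g_i X^j)) = A * H`, because `g i = ∑ k : Fin K, C (coeff k) * X^k`
(`Polynomial.as_sum_range'` with `natDegree (g i) ≤ i < K`). Likewise
`Matrix.of (ℓ (g_i g_j)) = A * H * Aᵀ` and `Matrix.det_transpose`.
-/

namespace Pool.TH

open Polynomial Finset

private theorem DetB_repr {R : Type*} [CommRing R] {K : ℕ} (g : ℕ → R[X])
    (hd : ∀ i, i < K → (g i).natDegree ≤ i) (i : Fin K) :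
    g i = ∑ k : Fin K, (g i).coeff k • (X : R[X]) ^ (k : ℕ) := by
  conv_lhs => rw [(g i).as_sum_range' K (lt_of_le_of_lt (hd i i.2) i.2)]
  rw [Finset.sum_range]
  refine Finset.sum_congr rfl fun k _ => ?_
  rw [smul_eq_C_mul, C_mul_X_pow_eq_monomial]

private theorem DetB_det {R : Type*} [CommRing R] {K : ℕ} (g : ℕ → R[X])
    (hd : ∀ i, i < K → (g i).natDegree ≤ i) :
    (Matrix.of fun i k : Fin K => (g i).coeff k).det = ∏ i : Fin K, (g i).coeff i := by
  rw [Matrix.det_of_lowerTriangular]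
  · rfl
  · intro i j hij
    rw [Matrix.of_apply]
    exact coeff_eq_zero_of_natDegree_lt (lt_of_le_of_lt (hd i i.2) hij)

private theorem DetB_one {R : Type*} [CommRing R] {K : ℕ} (ℓ : R[X] →ₗ[R] R) (g : ℕ → R[X])
    (hd : ∀ i, i < K → (g i).natDegree ≤ i) (f : Fin K → R[X]) :
    (Matrix.of fun i j : Fin K => ℓ (g i * f j)) =
      (Matrix.of fun i k : Fin K => (g i).coeff k) *
        (Matrix.of fun i j : Fin K => ℓ (X ^ (i : ℕ) * f j)) := by
  ext i j
  rw [Matrix.mul_apply]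
  simp only [Matrix.of_apply]
  conv_lhs => rw [DetB_repr g hd i, Finset.sum_mul, map_sum]
  refine Finset.sum_congr rfl fun k _ => ?_
  rw [smul_mul_assoc, map_smul, smul_eq_mul]

theorem det_one {R : Type*} [CommRing R] {K : ℕ} (ℓ : R[X] →ₗ[R] R) (g : ℕ → R[X])
    (hd : ∀ i, i < K → (g i).natDegree ≤ i) :
    (Matrix.of fun i j : Fin K => ℓ (g i * X ^ (j : ℕ))).det =
      (∏ i : Fin K, (g i).coeff i) *
        (Matrix.of fun i j : Fin K => ℓ (X ^ ((i : ℕ) + (j : ℕ)))).det := by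
  rw [DetB_one ℓ g hd (fun j => X ^ (j : ℕ)), Matrix.det_mul, DetB_det g hd]
  congr 2
  ext i j
  simp only [Matrix.of_apply, pow_add]

theorem det_two {R : Type*} [CommRing R] {K : ℕ} (ℓ : R[X] →ₗ[R] R) (g : ℕ → R[X])
    (hd : ∀ i, i < K → (g i).natDegree ≤ i) :
    (Matrix.of fun i j : Fin K => ℓ (g i * g j)).det =
      (∏ i : Fin K, (g i).coeff i) ^ 2 *
        (Matrix.of fun i j : Fin K => ℓ (X ^ ((i : ℕ) + (j : ℕ)))).det := by
  rw [DetB_one ℓ g hd (fun j => g j), Matrix.det_mul, DetB_det g hd]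
  have h1 : (Matrix.of fun i j : Fin K => ℓ (X ^ (i : ℕ) * g j)).det =
      (Matrix.of fun i j : Fin K => ℓ (g i * X ^ (j : ℕ))).det := by
    rw [← Matrix.det_transpose]
    congr 1
    ext i j
    simp only [Matrix.transpose_apply, Matrix.of_apply, mul_comm]
  rw [h1, det_one ℓ g hd]
  ring

end Pool.TH
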