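import Pool.Agent.Lib.TH.Defs
import Pool.Agent.Lib.Z579.Num1

/-!
# TH.Num (size 180): the numerical values at the nine vertices

`3000 log (3/2) + va1 p q ≤ u` and `3000 log (585/1000) + va2 p q ≤ u` for the nine
`(p, q, u)` of `VT`. True values (slack at least 0.008 everywhere):

  (0,0): -1695.1047, -1763.7203   (2,0): -1721.7074, -1765.3124   (6,0): -1768.3213, -1768.4839
  (9,4): -1804.4303, -1805.4014   (13,10): -1851.5206, -1851.2044 (16,15): -1886.3539, -1886.0722
  (20,22): -1932.1422, -1931.9656 (24,29): -1977.0643, -1975.5743 (25,30): -1987.5990, -1981.9838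

PROOF. Everything is a rational combination of logarithms of integers: `log (3/2)`,
`log (585/1000)`, `log d1 = log 8391 - log 12500`, `log (p/440000)`, `log (q/8300)`. Bounds from
`Z579.lgI_bounds n` (`2^32 log n` between `(lgI n).1` and `(lgI n).2`, error below `10^(-8)`):
prove once the bounds for `log 2, 3, 585, 1000, 8391, 12500, 440000, 8300`, and for the small
integers `2, 6, 9, 13, 16, 20, 24, 25` and `4, 10, 15, 22, 29, 30` (a helper
`private theorem lg (n) (lo hi : ℤ) (h : lgI n = (lo, hi)) : lo / 2^32 ≤ log n ∧ log n ≤ hi / 2^32`),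
then `linarith` (the rational coefficients are exact: `norm_num [va1, A1, d1, q1, q2]`).
-/

namespace Pool.TH

/-- the vertices and the bounds -/
def VT : List (ℕ × ℕ × ℝ) :=
  [(0, 0, -1695.09), (2, 0, -1721.70), (6, 0, -1768.31), (9, 4, -1804.42), (13, 10, -1851.19),
   (16, 15, -1886.06), (20, 22, -1931.96), (24, 29, -1975.56), (25, 30, -1981.97)]

private theorem num_lg (n : ℕ) (lo hi : ℤ) (hn : 1 ≤ n)
    (h : Z579.Num.lgI n = (lo, hi)) : (lo : ℝ) / 2 ^ 32 ≤ Real.log n ∧
      Real.log n ≤ (hi : ℝ) / 2 ^ 32 := by
  have h1 := Z579.Num.lgI_bounds n hn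
  rw [h] at h1
  constructor
  · rw [div_le_iff₀ (by positivity)]
    linarith [h1.1]
  · rw [le_div_iff₀ (by positivity)]
    linarith [h1.2]

private theorem num_d1 : Real.log d1 = Real.log 8391 - Real.log 12500 := by
  unfold d1
  rw [Real.log_div (by norm_num) (by norm_num)]

private theorem num_va1 (p q : ℕ) : va1 p q = -(29115 / 10) +
    2 * q * (Real.log 8391 - Real.log 12500) +
    2 * p * q / (1000 * (83 / 20) * (8391 / 12500) ^ 2) +
    q ^ 2 / (1000 * 220 * (8391 / 12500) ^ 2) +
    p * (Real.log p - Real.log 440000 - 1) := by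
  have h : (p : ℝ) * (Real.log (p / 440000) - 1) = p * (Real.log p - Real.log 440000 - 1) := by
    rcases Nat.eq_zero_or_pos p with hp | hp
    · subst hp
      rw [Nat.cast_zero, zero_mul, zero_mul]
    · rw [Real.log_div (by positivity) (by norm_num)]
  unfold va1
  rw [h, num_d1]
  unfold A1 q1 q2 d1
  ring

private theorem num_va2 (p q : ℕ) : va2 p q = -(15529 / 100) +
    2 * p * (Real.log 8391 - Real.log 12500) +
    2 * p * q / (1000 * 220 * (8391 / 12500) ^ 2) +
    p ^ 2 / (1000 * (83 / 20) * (8391 / 12500) ^ 2) +
    q * (Real.log q - Real.log 8300 - 1) := by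
  have h : (q : ℝ) * (Real.log (q / 8300) - 1) = q * (Real.log q - Real.log 8300 - 1) := by
    rcases Nat.eq_zero_or_pos q with hp | hp
    · subst hp
      rw [Nat.cast_zero, zero_mul, zero_mul]
    · rw [Real.log_div (by positivity) (by norm_num)]
  unfold va2
  rw [h, num_d1]
  unfold A2 q1 q2 d1
  ring

theorem num_vert : ∀ v ∈ VT, 3000 * Real.log (3 / 2) + va1 v.1 v.2.1 ≤ v.2.2 ∧
    3000 * Real.log (585 / 1000) + va2 v.1 v.2.1 ≤ v.2.2 := by
  intro v hv
  have l2 := num_lg 2 2977044469 2977044475 (by norm_num) (by decide +kernel)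
  have l3 := num_lg 3 4718503847 4718503853 (by norm_num) (by decide +kernel)
  have l4 := num_lg 4 5954088939 5954088948 (by norm_num) (by decide +kernel)
  have l6 := num_lg 6 7695548317 7695548326 (by norm_num) (by decide +kernel)
  have l9 := num_lg 9 9437007695 9437007707 (by norm_num) (by decide +kernel)
  have l10 := num_lg 10 9889527664 9889527676 (by norm_num) (by decide +kernel)
  have l13 := num_lg 13 11016373599 11016373611 (by norm_num) (by decide +kernel)
  have l15 := num_lg 15 11630987043 11630987055 (by norm_num) (by decide +kernel)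
  have l16 := num_lg 16 11908177879 11908177894 (by norm_num) (by decide +kernel)
  have l20 := num_lg 20 12866572134 12866572149 (by norm_num) (by decide +kernel)
  have l22 := num_lg 22 13275926239 13275926254 (by norm_num) (by decide +kernel)
  have l24 := num_lg 24 13649637257 13649637272 (by norm_num) (by decide +kernel)
  have l25 := num_lg 25 13824966389 13824966404 (by norm_num) (by decide +kernel)
  have l29 := num_lg 29 14462425457 14462425472 (by norm_num) (by decide +kernel)
  have l30 := num_lg 30 14608031513 14608031528 (by norm_num) (by decide +kernel)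
  have l585 := num_lg 585 27365864489 27365864519 (by norm_num) (by decide +kernel)
  have l1000 := num_lg 1000 29668582994 29668583024 (by norm_num) (by decide +kernel)
  have l8391 := num_lg 8391 38804664344 38804664386 (by norm_num) (by decide +kernel)
  have l12500 := num_lg 12500 40516504913 40516504955 (by norm_num) (by decide +kernel)
  have l440000 := num_lg 440000 55811081368 55811081425 (by norm_num) (by decide +kernel)
  have l8300 := num_lg 8300 38757831213 38757831255 (by norm_num) (by decide +kernel)
  have e1 : Real.log (3 / 2 : ℝ) = Real.log 3 - Real.log 2 :=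
    Real.log_div (by norm_num) (by norm_num)
  have e2 : Real.log (585 / 1000 : ℝ) = Real.log 585 - Real.log 1000 :=
    Real.log_div (by norm_num) (by norm_num)
  push_cast at l2 l3 l4 l6 l9 l10 l13 l15 l16 l20 l22 l24 l25 l29 l30 l585 l1000 l8391 l12500 l440000 l8300
  rw [e1, e2, num_va1, num_va2]
  simp only [VT, List.mem_cons, List.not_mem_nil, or_false] at hv
  rcases hv with rfl | rfl | rfl | rfl | rfl | rfl | rfl | rfl | rfl
  · push_cast
    constructor
    · linarith [l2.1, l3.2, l8391.2, l12500.1, l440000.1]
    · linarith [l585.2, l1000.1, l8391.2, l12500.1, l8300.1]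
  · push_cast
    constructor
    · linarith [l2.1, l3.2, l8391.2, l12500.1, l440000.1, l2.2]
    · linarith [l585.2, l1000.1, l8391.2, l12500.1, l8300.1]
  · push_cast
    constructor
    · linarith [l2.1, l3.2, l8391.2, l12500.1, l440000.1, l6.2]
    · linarith [l585.2, l1000.1, l8391.2, l12500.1, l8300.1]
  · push_cast
    constructor
    · linarith [l2.1, l3.2, l8391.2, l12500.1, l440000.1, l9.2]
    · linarith [l585.2, l1000.1, l8391.2, l12500.1, l8300.1, l4.2]
  · push_cast
    constructor
    · linarith [l2.1, l3.2, l8391.2, l12500.1, l440000.1, l13.2]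
    · linarith [l585.2, l1000.1, l8391.2, l12500.1, l8300.1, l10.2]
  · push_cast
    constructor
    · linarith [l2.1, l3.2, l8391.2, l12500.1, l440000.1, l16.2]
    · linarith [l585.2, l1000.1, l8391.2, l12500.1, l8300.1, l15.2]
  · push_cast
    constructor
    · linarith [l2.1, l3.2, l8391.2, l12500.1, l440000.1, l20.2]
    · linarith [l585.2, l1000.1, l8391.2, l12500.1, l8300.1, l22.2]
  · push_cast
    constructor
    · linarith [l2.1, l3.2, l8391.2, l12500.1, l440000.1, l24.2]
    · linarith [l585.2, l1000.1, l8391.2, l12500.1, l8300.1, l29.2]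
  · push_cast
    constructor
    · linarith [l2.1, l3.2, l8391.2, l12500.1, l440000.1, l25.2]
    · linarith [l585.2, l1000.1, l8391.2, l12500.1, l8300.1, l30.2]

end Pool.TH
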