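import Pool.Agent.Lib.TH.Mono
import Pool.Agent.Lib.TH.Chord

/-!
# TH.Seg (size 130): the sum over a segment of the path

`∑_{k = (p+q) N}^{(p+q+a+b) N - 1} Gm k ≤ (a+b) ((N+1)/2 GG(pN, qN) + (N-1)/2 GG((p+a)N, (q+b)N))`
for `p + q + a + b ≤ 55`, `1 ≤ a + b`.

PROOF. `δ = a + b`, `s = (p + q) N`. By induction on `t ≤ N`:
`∑_{k ∈ Ico s (s + t δ)} Gm k ≤ δ ∑_{u < t} GG(pN + u a, qN + u b)`: the block
`k = s + u δ + e`, `0 ≤ e < δ`: `Gm k ≤ GG(i, j)` (`Finset.inf'_le`, with `k - j = i`) for
`i = pN + u a + min e a`, `j = qN + u b + (e - a)` (truncated), `i + j = k < 55 N`, and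
`GG(i, j) ≤ GG(pN + u a, qN + u b)` by `GG_mono`. Then `GG_chord` divided by `N`:
`GG(pN + u a, qN + u b) ≤ (1 - u/N) G0 + (u/N) G1`, and `∑_{u<N} (1 - u/N) = (N+1)/2`,
`∑_{u<N} u/N = (N-1)/2` (`Finset.sum_range_id_mul_two`).
-/

namespace Pool.TH

open Finset

private theorem block_sum (f g : ℕ → ℝ) (δ : ℕ) : ∀ t : ℕ,
    (∀ u < t, ∀ e < δ, f (u * δ + e) ≤ g u) →
      ∑ k ∈ range (t * δ), f k ≤ δ * ∑ u ∈ range t, g u := by
  intro t
  induction t with
  | zero => intro _; simp
  | succ t ih =>
    intro h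
    rw [Nat.succ_mul, Finset.sum_range_add, Finset.sum_range_succ, mul_add]
    have h1 := ih fun u hu e he => h u (by omega) e he
    have h2 : ∑ x ∈ range δ, f (t * δ + x) ≤ ∑ _x ∈ range δ, g t :=
      Finset.sum_le_sum fun e he => h t (by omega) e (Finset.mem_range.1 he)
    rw [Finset.sum_const, Finset.card_range, nsmul_eq_mul] at h2
    linarith

private theorem sum_id_real (N : ℕ) : ∑ u ∈ range N, (u : ℝ) = N * (N - 1) / 2 := by
  induction N with
  | zero => simp
  | succ N ih =>
    rw [Finset.sum_range_succ, ih]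
    push_cast
    ring

theorem seg_sum {lM lE : ℝ} {N p q a b : ℕ} (hN : 1 ≤ N) (hab : 1 ≤ a + b)
    (h : p + q + a + b ≤ 55) :
    ∑ k ∈ Ico ((p + q) * N) ((p + q + a + b) * N), Gm lM lE N k ≤
      (a + b) * (((N : ℝ) + 1) / 2 * GG lM lE N (p * N) (q * N) +
        ((N : ℝ) - 1) / 2 * GG lM lE N ((p + a) * N) ((q + b) * N)) := by
  have hδ : (p + q + a + b) * N = (p + q) * N + N * (a + b) := by ring
  rw [hδ, Finset.sum_Ico_eq_sum_range, Nat.add_sub_cancel_left]
  have hblock := block_sum (fun k => Gm lM lE N ((p + q) * N + k))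
    (fun u => GG lM lE N (p * N + u * a) (q * N + u * b)) (a + b) N (by
      intro u hu e he
      have hk : (p + q) * N + (u * (a + b) + e) =
          (p * N + u * a + min e a) + (q * N + u * b + (e - a)) := by
        have h1 : min e a + (e - a) = e := by omega
        have h2 : (p + q) * N + (u * (a + b) + e) =
          (p * N + u * a) + (q * N + u * b) + e := by ring
        rw [h2]
        omega
      have hle : (p * N + u * a + min e a) + (q * N + u * b + (e - a)) ≤ 55 * N := by
        rw [← hk]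
        have h3 : u * (a + b) + e ≤ N * (a + b) := by
          have h4 : (u + 1) * (a + b) ≤ N * (a + b) := Nat.mul_le_mul_right _ hu
          have h5 : (u + 1) * (a + b) = u * (a + b) + (a + b) := by ring
          omega
        have h6 : (p + q) * N + N * (a + b) ≤ 55 * N := by
          rw [← hδ]
          exact Nat.mul_le_mul_right _ h
        omega
      have hm := GG_mono (lM := lM) (lE := lE) hN
        (show p * N + u * a ≤ p * N + u * a + min e a by omega)
        (show q * N + u * b ≤ q * N + u * b + (e - a) by omega) hle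
      refine le_trans ?_ hm
      show Gm lM lE N ((p + q) * N + (u * (a + b) + e)) ≤ _
      rw [hk]
      have h7 := Finset.inf'_le (s := Finset.range
        ((p * N + u * a + min e a) + (q * N + u * b + (e - a)) + 1))
        (fun j => GG lM lE N ((p * N + u * a + min e a) + (q * N + u * b + (e - a)) - j) j)
        (b := q * N + u * b + (e - a)) (Finset.mem_range.2 (by omega))
      simp only [Nat.add_sub_cancel] at h7
      exact h7)
  refine hblock.trans ?_
  have hc : ∑ u ∈ range N, (N : ℝ) * GG lM lE N (p * N + u * a) (q * N + u * b) ≤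
      ∑ u ∈ range N, (((N : ℝ) - u) * GG lM lE N (p * N) (q * N) +
        u * GG lM lE N ((p + a) * N) ((q + b) * N)) := by
    refine Finset.sum_le_sum fun u hu => ?_
    have h8 := GG_chord (lM := lM) (lE := lE) (P := p * N) (Q := q * N) (a := a) (b := b) hN
      (Finset.mem_range.1 hu).le
    have h9 : p * N + N * a = (p + a) * N := by ring
    have h10 : q * N + N * b = (q + b) * N := by ring
    rw [h9, h10] at h8
    exact h8
  rw [← Finset.mul_sum, Finset.sum_add_distrib, ← Finset.sum_mul, ← Finset.sum_mul,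
    Finset.sum_sub_distrib, sum_id_real, Finset.sum_const, Finset.card_range, nsmul_eq_mul] at hc
  have hNpos : (0 : ℝ) < N := by exact_mod_cast hN
  have hfin : ∑ u ∈ range N, GG lM lE N (p * N + u * a) (q * N + u * b) ≤
      ((N : ℝ) + 1) / 2 * GG lM lE N (p * N) (q * N) +
        ((N : ℝ) - 1) / 2 * GG lM lE N ((p + a) * N) ((q + b) * N) := by
    refine le_of_mul_le_mul_left ?_ hNpos
    refine hc.trans (le_of_eq ?_)
    ring
  have h11 : ((a + b : ℕ) : ℝ) = (a : ℝ) + b := by push_cast; ring
  rw [h11]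
  exact mul_le_mul_of_nonneg_left hfin (by positivity)

end Pool.TH
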