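import Pool.Agent.Lib.TH.Defs

/-!
# TH.Vert (size 100): the values at the vertices

`LB1 N (p N) (q N) ≤ N va1 p q + log (56 N) + 1`, `LB2 N (p N) (q N) ≤ N va2 p q + log (56 N) + 1`,
for `p, q ≤ 55`, `N ≥ 1`.

PROOF. (1) `log (k!) ≤ (k+1) log (k+1) - k` by induction: the step needs
`(k+2) (log (k+2) - log (k+1)) ≥ 1`, true since `log x ≥ 1 - 1/x` (`Real.one_sub_inv_le_log_of_pos`)
at `x = (k+2)/(k+1)`. (2) `k log (k+1) ≤ k log k + 1` (`log ((k+1)/k) ≤ 1/k`; for `k = 0` trivial).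
So `log (k!) ≤ k log k - k + log (k+1) + 1` for all `k` (`log 0 = 0`). With `k = p N`:
`k log k - k - k log (440000 N) = p N (log (p/440000) - 1)`
for `p ≥ 1` (`2 q1 (1000 N) = 440000 N`; both sides `0` for `p = 0`), `log (k + 1) ≤ log (56 N)`.
The other terms are equal (`i j/(q2 1000 N d1²) = N p q/(1000 q2 d1²)`: `field_simp`). The same for
`LB2`, `2 q2 (1000 N) = 8300 N`.
-/

namespace Pool.TH

private theorem vert_fact (k : ℕ) :
    Real.log (k.factorial) ≤ (k + 1) * Real.log (k + 1) - k := by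
  induction k with
  | zero => simp
  | succ k ih =>
    have h1 : (0 : ℝ) < (k : ℝ) + 1 := by positivity
    have h2 : (0 : ℝ) < (k : ℝ) + 2 := by positivity
    have h3 := Real.one_sub_inv_le_log_of_pos (show (0 : ℝ) < ((k : ℝ) + 2) / (k + 1) by positivity)
    rw [Real.log_div h2.ne' h1.ne'] at h3
    have h4 : 1 - (((k : ℝ) + 2) / (k + 1))⁻¹ = 1 / (k + 2) := by
      field_simp
      ring
    rw [h4] at h3
    have h5 : 1 ≤ ((k : ℝ) + 2) * (Real.log ((k : ℝ) + 2) - Real.log ((k : ℝ) + 1)) := by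
      have := mul_le_mul_of_nonneg_left h3 h2.le
      rwa [mul_one_div_cancel h2.ne'] at this
    rw [Nat.factorial_succ]
    push_cast
    rw [Real.log_mul h1.ne' (by positivity)]
    have h6 : (k : ℝ) + 1 + 1 = k + 2 := by ring
    rw [h6]
    nlinarith [ih, h5]

private theorem vert_succ (k : ℕ) :
    (k : ℝ) * Real.log (k + 1) ≤ k * Real.log k + 1 := by
  rcases Nat.eq_zero_or_pos k with rfl | hk
  · simp
  · have hk' : (0 : ℝ) < k := by exact_mod_cast hk
    have h1 : (0 : ℝ) < (k : ℝ) + 1 := by positivity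
    have h3 := Real.log_le_sub_one_of_pos (show (0 : ℝ) < ((k : ℝ) + 1) / k by positivity)
    rw [Real.log_div h1.ne' hk'.ne'] at h3
    have h4 : ((k : ℝ) + 1) / k - 1 = 1 / k := by
      field_simp
      ring
    rw [h4] at h3
    have := mul_le_mul_of_nonneg_left h3 hk'.le
    rw [mul_one_div_cancel hk'.ne'] at this
    linarith

private theorem vert_aux {N p : ℕ} (hN : 1 ≤ N) (hp : p ≤ 55) {c : ℝ} (hc : 0 < c) :
    Real.log ((p * N).factorial) - (p : ℝ) * N * Real.log (c * N) ≤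
      N * (p * (Real.log (p / c) - 1)) + Real.log (56 * N) + 1 := by
  have hN' : (1 : ℝ) ≤ N := by exact_mod_cast hN
  have hN0 : (0 : ℝ) < N := by linarith
  have hl : 0 ≤ Real.log (56 * N) := Real.log_nonneg (by linarith)
  rcases Nat.eq_zero_or_pos p with rfl | hp0
  · simp
    linarith
  · have hp' : (0 : ℝ) < p := by exact_mod_cast hp0
    have hp55 : (p : ℝ) ≤ 55 := by exact_mod_cast hp
    have h1 := vert_fact (p * N)
    have h2 := vert_succ (p * N)
    push_cast at h1 h2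
    have h3 : Real.log ((p : ℝ) * N + 1) ≤ Real.log (56 * N) := by
      apply Real.log_le_log (by positivity)
      nlinarith
    have h4 : Real.log ((p : ℝ) * N) = Real.log p + Real.log N := Real.log_mul hp'.ne' hN0.ne'
    have h5 : Real.log (c * N) = Real.log c + Real.log N := Real.log_mul hc.ne' hN0.ne'
    have h6 : Real.log ((p : ℝ) / c) = Real.log p - Real.log c := Real.log_div hp'.ne' hc.ne'
    rw [h4] at h2
    rw [h5, h6]
    have h7 : ((p : ℝ) * N + 1) * Real.log ((p : ℝ) * N + 1) =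
        (p : ℝ) * N * Real.log ((p : ℝ) * N + 1) + Real.log ((p : ℝ) * N + 1) := by ring
    rw [h7] at h1
    have h8 : (N : ℝ) * (p * (Real.log p - Real.log c - 1)) =
        (p : ℝ) * N * (Real.log p + Real.log N) - p * N * (Real.log c + Real.log N) - p * N := by
      ring
    rw [h8]
    linarith

theorem vert_one {N p q : ℕ} (hN : 1 ≤ N) (hp : p ≤ 55) (hq : q ≤ 55) :
    LB1 N (p * N) (q * N) ≤ N * va1 p q + Real.log (56 * N) + 1 := by
  have hN' : (1 : ℝ) ≤ N := by exact_mod_cast hN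
  have hN0 : (N : ℝ) ≠ 0 := by
    intro h
    rw [h] at hN'
    linarith
  have h := vert_aux hN hp (c := 440000) (by norm_num)
  have hq1 : (q1 : ℝ) ≠ 0 := by unfold q1; norm_num
  have hq2 : (q2 : ℝ) ≠ 0 := by unfold q2; norm_num
  have hd1 : (d1 : ℝ) ≠ 0 := by unfold d1; norm_num
  have e : 2 * q1 * (1000 * (N : ℝ)) = 440000 * N := by
    unfold q1
    ring
  have e1 : 2 * ((p : ℝ) * N) * (q * N) / (q2 * (1000 * N) * d1 ^ 2) =
      N * (2 * p * q / (1000 * q2 * d1 ^ 2)) := by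
    field_simp
  have e2 : ((q : ℝ) * N) ^ 2 / (q1 * (1000 * N) * d1 ^ 2) =
      N * (q ^ 2 / (1000 * q1 * d1 ^ 2)) := by
    field_simp
  unfold LB1 va1
  push_cast
  rw [e, e1, e2]
  linarith

theorem vert_two {N p q : ℕ} (hN : 1 ≤ N) (hp : p ≤ 55) (hq : q ≤ 55) :
    LB2 N (p * N) (q * N) ≤ N * va2 p q + Real.log (56 * N) + 1 := by
  have hN' : (1 : ℝ) ≤ N := by exact_mod_cast hN
  have hN0 : (N : ℝ) ≠ 0 := by
    intro h
    rw [h] at hN'
    linarith
  have h := vert_aux hN hq (c := 8300) (by norm_num)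
  have hq1 : (q1 : ℝ) ≠ 0 := by unfold q1; norm_num
  have hq2 : (q2 : ℝ) ≠ 0 := by unfold q2; norm_num
  have hd1 : (d1 : ℝ) ≠ 0 := by unfold d1; norm_num
  have e : 2 * q2 * (1000 * (N : ℝ)) = 8300 * N := by
    unfold q2
    ring
  have e1 : 2 * ((p : ℝ) * N) * (q * N) / (q1 * (1000 * N) * d1 ^ 2) =
      N * (2 * p * q / (1000 * q1 * d1 ^ 2)) := by
    field_simp
  have e2 : ((p : ℝ) * N) ^ 2 / (q2 * (1000 * N) * d1 ^ 2) =
      N * (p ^ 2 / (1000 * q2 * d1 ^ 2)) := by
    field_simp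
  unfold LB2 va2
  push_cast
  rw [e, e1, e2]
  linarith

end Pool.TH
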