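import Pool.Agent.Lib.TH.Upper0
import Pool.Agent.Lib.TH.Seg
import Pool.Agent.Lib.TH.Vert
import Pool.Agent.Lib.TH.Num

/-!
# TH.Upper: the upper bound for the determinant (assembly)
-/

namespace Pool.TH

open Finset

theorem GG_vert {N p q : ℕ} (hN : 10 ^ 12 ≤ N) (hp : p ≤ 55) (hq : q ≤ 55) {u : ℝ}
    (h1 : 3000 * Real.log (3 / 2) + va1 p q ≤ u) (h2 : 3000 * Real.log (585 / 1000) + va2 p q ≤ u)
    {lM lE : ℝ} (hlM : lM = 3000 * N * Real.log (3 / 2) + 10000)
    (hlE : lE = 3000 * N * Real.log (585 / 1000) + 10000) :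
    GG lM lE N (p * N) (q * N) ≤ N * u + N / 1000 := by
  have hNR : (10 : ℝ) ^ 12 ≤ N := by exact_mod_cast hN
  have hN1 : 1 ≤ N := le_trans (by norm_num) hN
  have hN0 : (0 : ℝ) < N := lt_of_lt_of_le (by norm_num) hNR
  have v1 := vert_one hN1 hp hq
  have v2 := vert_two hN1 hp hq
  have hlog : Real.log (56 * N) ≤ N / 2000 := by
    have e1 : Real.log (56 * N) = 2 * Real.log (Real.sqrt (56 * N)) := by
      rw [Real.log_sqrt (by positivity)]
      ring
    have h3 := Real.log_le_sub_one_of_pos (x := Real.sqrt (56 * N)) (by positivity)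
    obtain ⟨y, hy⟩ : ∃ y : ℝ, y = Real.sqrt (56 * N) := ⟨_, rfl⟩
    have hy0 : 0 ≤ y := by rw [hy]; positivity
    have hy2 : y ^ 2 = 56 * N := by rw [hy, Real.sq_sqrt (by positivity)]
    rw [← hy] at h3
    rw [e1, ← hy]
    have hy6 : 10 ^ 6 ≤ y := by
      have : ((10 : ℝ) ^ 6) ^ 2 ≤ y ^ 2 := by
        rw [hy2]
        have e : ((10 : ℝ) ^ 6) ^ 2 = 10 ^ 12 := by norm_num
        rw [e]
        linarith
      exact le_of_pow_le_pow_left₀ (by norm_num) hy0 this
    nlinarith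
  have hl2 : Real.log 2 ≤ 1 := by linarith [Real.log_two_lt_d9]
  have hbig : (10002 : ℝ) ≤ N / 2000 := by linarith
  have m1 := mul_le_mul_of_nonneg_left h1 hN0.le
  have m2 := mul_le_mul_of_nonneg_left h2 hN0.le
  unfold GG
  have : max (lM + LB1 N (p * N) (q * N)) (lE + LB2 N (p * N) (q * N)) ≤
      N * u + 10001 + N / 2000 := by
    refine max_le ?_ ?_
    · rw [hlM]; linarith
    · rw [hlE]; linarith
  linarith

set_option maxHeartbeats 1000000 in
theorem sum_Gm_le {N : ℕ} (hN : 10 ^ 12 ≤ N)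
    {lM lE : ℝ} (hlM : lM = 3000 * N * Real.log (3 / 2) + 10000)
    (hlE : lE = 3000 * N * Real.log (585 / 1000) + 10000) :
    ∑ k ∈ range (55 * N), Gm lM lE N k ≤ -(102560 : ℝ) * N ^ 2 := by
  have hNR : (10 : ℝ) ^ 12 ≤ N := by exact_mod_cast hN
  have hN1 : 1 ≤ N := le_trans (by norm_num) hN
  have hN0 : (0 : ℝ) < N := lt_of_lt_of_le (by norm_num) hNR
  have hv := num_vert
  simp only [VT, List.mem_cons, List.not_mem_nil, or_false, forall_eq_or_imp, forall_eq] at hv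
  obtain ⟨w0, w1, w2, w3, w4, w5, w6, w7, w8⟩ := hv
  have g0 := GG_vert hN (by norm_num) (by norm_num) w0.1 w0.2 hlM hlE
  have g1 := GG_vert hN (by norm_num) (by norm_num) w1.1 w1.2 hlM hlE
  have g2 := GG_vert hN (by norm_num) (by norm_num) w2.1 w2.2 hlM hlE
  have g3 := GG_vert hN (by norm_num) (by norm_num) w3.1 w3.2 hlM hlE
  have g4 := GG_vert hN (by norm_num) (by norm_num) w4.1 w4.2 hlM hlE
  have g5 := GG_vert hN (by norm_num) (by norm_num) w5.1 w5.2 hlM hlE
  have g6 := GG_vert hN (by norm_num) (by norm_num) w6.1 w6.2 hlM hlE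
  have g7 := GG_vert hN (by norm_num) (by norm_num) w7.1 w7.2 hlM hlE
  have g8 := GG_vert hN (by norm_num) (by norm_num) w8.1 w8.2 hlM hlE
  have s0 := seg_sum (lM := lM) (lE := lE) (N := N) (p := 0) (q := 0) (a := 2) (b := 0) hN1
    (by norm_num) (by norm_num)
  have s1 := seg_sum (lM := lM) (lE := lE) (N := N) (p := 2) (q := 0) (a := 4) (b := 0) hN1
    (by norm_num) (by norm_num)
  have s2 := seg_sum (lM := lM) (lE := lE) (N := N) (p := 6) (q := 0) (a := 3) (b := 4) hN1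
    (by norm_num) (by norm_num)
  have s3 := seg_sum (lM := lM) (lE := lE) (N := N) (p := 9) (q := 4) (a := 4) (b := 6) hN1
    (by norm_num) (by norm_num)
  have s4 := seg_sum (lM := lM) (lE := lE) (N := N) (p := 13) (q := 10) (a := 3) (b := 5) hN1
    (by norm_num) (by norm_num)
  have s5 := seg_sum (lM := lM) (lE := lE) (N := N) (p := 16) (q := 15) (a := 4) (b := 7) hN1
    (by norm_num) (by norm_num)
  have s6 := seg_sum (lM := lM) (lE := lE) (N := N) (p := 20) (q := 22) (a := 4) (b := 7) hN1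
    (by norm_num) (by norm_num)
  have s7 := seg_sum (lM := lM) (lE := lE) (N := N) (p := 24) (q := 29) (a := 1) (b := 1) hN1
    (by norm_num) (by norm_num)
  norm_num only at s0 s1 s2 s3 s4 s5 s6 s7
  have hsplit : ∑ k ∈ range (55 * N), Gm lM lE N k =
      ∑ k ∈ Ico (0 * N) (2 * N), Gm lM lE N k + ∑ k ∈ Ico (2 * N) (6 * N), Gm lM lE N k +
      ∑ k ∈ Ico (6 * N) (13 * N), Gm lM lE N k + ∑ k ∈ Ico (13 * N) (23 * N), Gm lM lE N k +
      ∑ k ∈ Ico (23 * N) (31 * N), Gm lM lE N k + ∑ k ∈ Ico (31 * N) (42 * N), Gm lM lE N k +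
      ∑ k ∈ Ico (42 * N) (53 * N), Gm lM lE N k + ∑ k ∈ Ico (53 * N) (55 * N), Gm lM lE N k := by
    rw [Finset.sum_Ico_consecutive _ (by omega) (by omega),
      Finset.sum_Ico_consecutive _ (by omega) (by omega),
      Finset.sum_Ico_consecutive _ (by omega) (by omega),
      Finset.sum_Ico_consecutive _ (by omega) (by omega),
      Finset.sum_Ico_consecutive _ (by omega) (by omega),
      Finset.sum_Ico_consecutive _ (by omega) (by omega),
      Finset.sum_Ico_consecutive _ (by omega) (by omega), zero_mul, Finset.range_eq_Ico]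
  rw [hsplit]
  generalize GG lM lE N (0 * N) (0 * N) = x0 at *
  generalize GG lM lE N (2 * N) (0 * N) = x1 at *
  generalize GG lM lE N (6 * N) (0 * N) = x2 at *
  generalize GG lM lE N (9 * N) (4 * N) = x3 at *
  generalize GG lM lE N (13 * N) (10 * N) = x4 at *
  generalize GG lM lE N (16 * N) (15 * N) = x5 at *
  generalize GG lM lE N (20 * N) (22 * N) = x6 at *
  generalize GG lM lE N (24 * N) (29 * N) = x7 at *
  generalize GG lM lE N (25 * N) (30 * N) = x8 at *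
  have hp : (0 : ℝ) ≤ ((N : ℝ) + 1) / 2 := by positivity
  have hm : (0 : ℝ) ≤ ((N : ℝ) - 1) / 2 := by linarith
  have a0 := mul_le_mul_of_nonneg_left g0 hp
  have a1 := mul_le_mul_of_nonneg_left g1 hp
  have a2 := mul_le_mul_of_nonneg_left g2 hp
  have a3 := mul_le_mul_of_nonneg_left g3 hp
  have a4 := mul_le_mul_of_nonneg_left g4 hp
  have a5 := mul_le_mul_of_nonneg_left g5 hp
  have a6 := mul_le_mul_of_nonneg_left g6 hp
  have a7 := mul_le_mul_of_nonneg_left g7 hp
  have b1 := mul_le_mul_of_nonneg_left g1 hm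
  have b2 := mul_le_mul_of_nonneg_left g2 hm
  have b3 := mul_le_mul_of_nonneg_left g3 hm
  have b4 := mul_le_mul_of_nonneg_left g4 hm
  have b5 := mul_le_mul_of_nonneg_left g5 hm
  have b6 := mul_le_mul_of_nonneg_left g6 hm
  have b7 := mul_le_mul_of_nonneg_left g7 hm
  have b8 := mul_le_mul_of_nonneg_left g8 hm
  have hN2 : (10 : ℝ) ^ 12 * N ≤ N ^ 2 := by
    rw [sq]
    exact mul_le_mul_of_nonneg_right hNR hN0.le
  clear g0 g1 g2 g3 g4 g5 g6 g7 g8 w0 w1 w2 w3 w4 w5 w6 w7 w8 hsplit hlM hlE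
  norm_num at a0 a1 a2 a3 a4 a5 a6 a7 b1 b2 b3 b4 b5 b6 b7 b8 hN2
  linarith

/-- The upper bound for the determinant. -/
theorem log_det_upper {N m : ℕ} (hN : 10 ^ 12 ≤ N) (hm : m ≤ 3000 * N) (hm' : 3000 * N ≤ m + 6000)
    {k : ℤ} (hk : 0 < k) (hc : |(3 / 2 : ℝ) ^ m - k| ≤ (585 / 1000 : ℝ) ^ m)
    (hpar : 0 ≤ (((3 ^ (3000 * N - m) * k : ℤ) : ℚ) - TT N m) * (-1) ^ (455 * N)) :
    0 < (Dm ((3 ^ (3000 * N - m) * k : ℤ) : ℚ) (TT N m) N).det ∧
      Real.log ((Dm ((3 ^ (3000 * N - m) * k : ℤ) : ℚ) (TT N m) N).det : ℝ) ≤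
        -(102560 : ℝ) * N ^ 2 := by
  have hN1 : 1 ≤ N := le_trans (by norm_num) hN
  obtain ⟨j, hj⟩ : ∃ j : ℕ, j = 3000 * N - m := ⟨_, rfl⟩
  have hjm : m + j = 3000 * N := by omega
  have hj6 : j ≤ 6000 := by omega
  rw [← hj] at hpar ⊢
  have hl2 := Real.log_two_lt_d9
  have hl2' := Real.log_two_gt_d9
  have hl32 : 0 ≤ Real.log (3 / 2) := Real.log_nonneg (by norm_num)
  have hlc : Real.log (585 / 1000) ≤ 0 := Real.log_nonpos (by norm_num) (by norm_num)
  have hlc' : -(0.54 : ℝ) ≤ Real.log (585 / 1000) := by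
    have h1 : Real.log (585 / 1000) = -Real.log (1000 / 585) := by
      rw [← Real.log_inv]; norm_num
    have h2 : Real.log ((1000 / 585) ^ 9) ≤ Real.log (2 ^ 7) :=
      Real.log_le_log (by norm_num) (by norm_num)
    rw [Real.log_pow, Real.log_pow] at h2
    push_cast at h2
    rw [h1]; linarith
  have hl3 : Real.log 3 ≤ 1.11 := by
    have h1 : Real.log (3 ^ 5) ≤ Real.log (2 ^ 8) := Real.log_le_log (by norm_num) (by norm_num)
    rw [Real.log_pow, Real.log_pow] at h1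
    push_cast at h1
    linarith
  have hl3' : 0 ≤ Real.log 3 := Real.log_nonneg (by norm_num)
  have hjR : (j : ℝ) ≤ 6000 := by exact_mod_cast hj6
  have hj0 : (0 : ℝ) ≤ j := by positivity
  -- the real values of T
  have hT : ((TT N m : ℚ) : ℝ) = 3 ^ j * (3 / 2 : ℝ) ^ m := by
    unfold TT
    push_cast
    rw [← hjm, pow_add, div_pow]
    field_simp
  have hdiff : (((((3 ^ j * k : ℤ) : ℚ) - TT N m : ℚ)) : ℝ) = 3 ^ j * (k - (3 / 2 : ℝ) ^ m) := by
    rw [Rat.cast_sub, hT]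
    push_cast
    ring
  have hT2 : (3 : ℝ) ^ j * (3 / 2 : ℝ) ^ m = 2 ^ j * (3 / 2 : ℝ) ^ (3000 * N) := by
    rw [← hjm, pow_add, div_pow, div_pow]
    field_simp
  have hkle : (k : ℝ) ≤ 2 * (3 / 2 : ℝ) ^ m := by
    have h1 := (abs_le.1 hc).1
    have h2 : (585 / 1000 : ℝ) ^ m ≤ 1 := pow_le_one₀ (by norm_num) (by norm_num)
    have h3 : (1 : ℝ) ≤ (3 / 2 : ℝ) ^ m := one_le_pow₀ (by norm_num)
    linarith
  refine log_det_le (lM := 3000 * N * Real.log (3 / 2) + 10000)
    (lE := 3000 * N * Real.log (585 / 1000) + 10000) hN1 ?_ ?_ ?_ hpar |>.imp id fun h =>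
      h.trans (sum_Gm_le hN rfl rfl)
  · have : 0 < 3 ^ j * k := by positivity
    exact_mod_cast this
  · have h1 : ((((3 ^ j * k : ℤ) : ℚ)) : ℝ) ≤ 2 * (2 ^ j * (3 / 2 : ℝ) ^ (3000 * N)) := by
      rw [← hT2]
      push_cast
      have : (0 : ℝ) < 3 ^ j := by positivity
      nlinarith
    refine h1.trans ?_
    rw [← Real.log_le_iff_le_exp (by positivity), Real.log_mul (by norm_num) (by positivity),
      Real.log_mul (by positivity) (by positivity), Real.log_pow, Real.log_pow]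
    push_cast
    nlinarith
  · rw [hdiff, abs_mul, abs_of_pos (by positivity : (0 : ℝ) < 3 ^ j), abs_sub_comm]
    refine (mul_le_mul_of_nonneg_left hc (by positivity)).trans ?_
    rw [← Real.log_le_iff_le_exp (by positivity), Real.log_mul (by positivity) (by positivity),
      Real.log_pow, Real.log_pow]
    have hmR : (m : ℝ) = 3000 * N - j := by
      have : ((m + j : ℕ) : ℝ) = ((3000 * N : ℕ) : ℝ) := by rw [hjm]
      push_cast at this
      linarith
    rw [hmR]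
    nlinarith

end Pool.TH
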