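import Pool.Agent.Lib.TH.Low
import Pool.Agent.Lib.TH.Upper
import Pool.Agent.Lib.PNTX.Main

/-!
# TH.Final: the theorem
-/

namespace Pool.TH

private theorem sign_case {N m : ℕ} (hm : m ≤ 3000 * N) {k : ℤ} {e : ℕ}
    (he : (455 * N) % 2 = e % 2) (h : 0 ≤ ((k : ℚ) - (3 / 2) ^ m) * (-1) ^ e) :
    0 ≤ (((3 ^ (3000 * N - m) * k : ℤ) : ℚ) - TT N m) * (-1) ^ (455 * N) := by
  obtain ⟨j, hj⟩ : ∃ j : ℕ, j = 3000 * N - m := ⟨_, rfl⟩
  have hjm : m + j = 3000 * N := by omega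
  rw [← hj]
  have h1 : ((-1 : ℚ)) ^ (455 * N) = (-1) ^ e := by
    rw [neg_one_pow_eq_pow_mod_two, he, ← neg_one_pow_eq_pow_mod_two]
  have h2 : (((3 ^ j * k : ℤ) : ℚ) - TT N m) = 3 ^ j * ((k : ℚ) - (3 / 2) ^ m) := by
    unfold TT
    push_cast
    rw [← hjm, pow_add, div_pow]
    field_simp
  rw [h1, h2, mul_assoc]
  exact mul_nonneg (by positivity) h

/-- The bound beyond a threshold `X0` of the prime number theorem with the error `x/10^6`. -/
theorem three_halves {X0 : ℝ} (hX : 10 ^ 20 ≤ X0)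
    (hθ : ∀ x : ℝ, X0 ≤ x → |Chebyshev.theta x - x| ≤ x / 10 ^ 6) {m : ℕ} (hm : 100 * X0 ≤ m)
    (k : ℤ) : (585 / 1000 : ℝ) ^ m < |(3 / 2 : ℝ) ^ m - k| := by
  by_contra hcon
  push Not at hcon
  have hmR : (10 : ℝ) ^ 22 ≤ m := by
    have : (100 : ℝ) * 10 ^ 20 = 10 ^ 22 := by norm_num
    linarith
  have hk : 0 < k := by
    have h1 := (abs_le.1 hcon).2
    have hm1 : 1 ≤ m := by
      have : (1 : ℝ) ≤ m := le_trans (by norm_num) hmR
      exact_mod_cast this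
    have h2 : (585 / 1000 : ℝ) ^ m ≤ 1 := pow_le_one₀ (by norm_num) (by norm_num)
    have h3 : (3 / 2 : ℝ) ^ 1 ≤ (3 / 2 : ℝ) ^ m := pow_le_pow_right₀ (by norm_num) hm1
    have h4 : (0 : ℝ) < k := by linarith
    exact_mod_cast h4
  obtain ⟨N, hN1, hN2, hpar⟩ : ∃ N : ℕ, m ≤ 3000 * N ∧ 3000 * N ≤ m + 6000 ∧
      0 ≤ (((3 ^ (3000 * N - m) * k : ℤ) : ℚ) - TT N m) * (-1) ^ (455 * N) := by
    set N0 := m / 3000 + 1 with hN0
    have a1 : m ≤ 3000 * N0 := by omega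
    have a2 : 3000 * N0 ≤ m + 3000 := by omega
    rcases le_total ((3 / 2 : ℚ) ^ m) (k : ℚ) with h | h
    · have h0 : 0 ≤ ((k : ℚ) - (3 / 2) ^ m) * (-1) ^ 0 := by
        rw [pow_zero, mul_one]; linarith
      rcases Nat.even_or_odd N0 with hev | hod
      · obtain ⟨r, hr⟩ := hev
        exact ⟨N0, a1, by omega, sign_case a1 (by omega) h0⟩
      · obtain ⟨r, hr⟩ := hod
        exact ⟨N0 + 1, by omega, by omega, sign_case (by omega) (by omega) h0⟩
    · have h0 : 0 ≤ ((k : ℚ) - (3 / 2) ^ m) * (-1) ^ 1 := by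
        rw [pow_one]; linarith
      rcases Nat.even_or_odd N0 with hev | hod
      · obtain ⟨r, hr⟩ := hev
        exact ⟨N0 + 1, by omega, by omega, sign_case (by omega) (by omega) h0⟩
      · obtain ⟨r, hr⟩ := hod
        exact ⟨N0, a1, by omega, sign_case a1 (by omega) h0⟩
  have hN1R : (m : ℝ) ≤ 3000 * N := by exact_mod_cast hN1
  have hN12R : (10 : ℝ) ^ 12 ≤ N := by
    have : (3000 : ℝ) * 10 ^ 12 ≤ 10 ^ 22 := by norm_num
    linarith
  have hN12 : 10 ^ 12 ≤ N := by exact_mod_cast hN12R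
  obtain ⟨hpos, hup⟩ := log_det_upper hN12 hN1 hN2 hk hcon hpar
  have hlo := log_det_lower hX hθ (N := N) (m := m) (by linarith) hN1 (3 ^ (3000 * N - m) * k)
    hpos.ne'
  rw [abs_of_pos (by exact_mod_cast hpos)] at hlo
  have hN0 : (0 : ℝ) < (N : ℝ) ^ 2 := by
    have : (0 : ℝ) < N := lt_of_lt_of_le (by norm_num) hN12R
    positivity
  linarith

/-- The unconditional form. -/
theorem three_halves_explicit {m : ℕ} (hm : Real.exp (10 ^ 500) ≤ m) (k : ℤ) :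
    (585 / 1000 : ℝ) ^ m < |(3 / 2 : ℝ) ^ m - k| := by
  refine three_halves (X0 := Real.exp (10 ^ 490)) ?_ (fun x hx => PNTX.theta_explicit hx) ?_ k
  · have h1 : (10 : ℝ) ^ 20 ≤ 10 ^ 490 := pow_le_pow_right₀ (by norm_num) (by norm_num)
    have h2 := Real.add_one_le_exp ((10 : ℝ) ^ 490)
    exact h1.trans ((le_add_of_nonneg_right zero_le_one).trans h2)
  · refine le_trans ?_ hm
    have h1 : (10 : ℝ) ^ 500 = 10 ^ 490 * 10 ^ 10 := by rw [← pow_add]
    have h2 : (100 : ℝ) + 10 ^ 490 ≤ 10 ^ 500 := by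
      rw [h1]
      have h5 : (1 : ℝ) ≤ 10 ^ 490 := one_le_pow₀ (by norm_num)
      generalize (10 : ℝ) ^ 490 = y at h5 ⊢
      have h6 : (10 : ℝ) ^ 10 = 10000000000 := by norm_num
      rw [h6]
      linarith
    have h3 : (100 : ℝ) ≤ Real.exp 100 := by
      have := Real.add_one_le_exp (100 : ℝ)
      linarith
    calc 100 * Real.exp (10 ^ 490) ≤ Real.exp 100 * Real.exp (10 ^ 490) :=
          mul_le_mul_of_nonneg_right h3 (Real.exp_pos _).le
      _ = Real.exp (100 + 10 ^ 490) := by rw [← Real.exp_add]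
      _ ≤ Real.exp (10 ^ 500) := Real.exp_le_exp.2 h2

end Pool.TH
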