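import Pool.Agent.Lib.TH.DetB

/-!
# TH.Gram (size 180): positive Hankel determinants and Hadamard's inequality

`ℓ : ℝ[X] →ₗ[ℝ] ℝ` with `ℓ (f * f) > 0` for all `f ≠ 0` of degree `< K`. Let
`D = det (ℓ (X^(i+j)))_{i, j < K}`. Then `0 < D` and, for monic `P_i` of degree `i` (`i < K`),
`D ≤ ∏_{i<K} ℓ (P_i * P_i)`.

PROOF. `0 < D`: the matrix `H = Matrix.of fun i j => ℓ (X^(i+j))` is positive definite
(`Matrix.PosDef`: symmetric, and for a vector `v ≠ 0` the quadratic form is `ℓ (f * f)` with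
`f = ∑ v_i X^i ≠ 0` of degree `< K`), `Matrix.PosDef.det_pos`.
`D = det (ℓ (P_i * P_j))`: `det_two` with `(P i).coeff i = 1`. The matrix
`G = Matrix.of fun i j => ℓ (P i * P j)` is positive semidefinite (same computation with
`f = ∑ v_i P_i`). Hadamard: `det G ≤ ∏ G i i`. Use `vsq_hadamard` of
`Pool/Agent/Lib/LatN/Kot.lean` (`vsq v ≤ ∏ ‖v i‖²`, Gram determinants in a real inner product
space) with `G = Bᵀ B` (`Matrix.posSemidef_iff_eq_conjTranspose_mul_self`), `v i` = column `i` of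
`B` in `EuclideanSpace ℝ (Fin K)`; or prove it by AM-GM: when all `G i i > 0`, scale
`G' = S G S` with `S = diag (1/√(G i i))`, eigenvalues `λ_i ≥ 0` with `∑ λ_i = trace G' = K` give
`det G' = ∏ λ_i ≤ (∑ λ_i / K)^K = 1` (`Real.inner_le_nnorm_mul_nnorm`-free:
`Real.geom_mean_le_arith_mean_weighted` or `inner_le...`; `Matrix.IsHermitian.det_eq_prod_eigenvalues`,
`trace_eq_sum_eigenvalues`). Here `G i i = ℓ (P_i * P_i) > 0`.
-/

namespace Pool.TH

open Polynomial Finset

private theorem Gram_quad {K : ℕ} (ℓ : ℝ[X] →ₗ[ℝ] ℝ) (Q : ℕ → ℝ[X]) (v : Fin K → ℝ) :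
    star v ⬝ᵥ ((Matrix.of fun i j : Fin K => ℓ (Q i * Q j)).mulVec v) =
      ℓ ((∑ i : Fin K, v i • Q i) * (∑ i : Fin K, v i • Q i)) := by
  rw [star_trivial]
  simp only [dotProduct, Matrix.mulVec, Matrix.of_apply]
  rw [Finset.sum_mul_sum, map_sum]
  refine Finset.sum_congr rfl fun i _ => ?_
  rw [Finset.mul_sum, map_sum]
  refine Finset.sum_congr rfl fun j _ => ?_
  rw [smul_mul_smul_comm, map_smul, smul_eq_mul]
  ring

private theorem Gram_herm {K : ℕ} (ℓ : ℝ[X] →ₗ[ℝ] ℝ) (Q : ℕ → ℝ[X]) :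
    (Matrix.of fun i j : Fin K => ℓ (Q i * Q j)).IsHermitian := by
  ext i j
  rw [Matrix.conjTranspose_apply, star_trivial, Matrix.of_apply, Matrix.of_apply, mul_comm]

private theorem Gram_deg {K : ℕ} (Q : ℕ → ℝ[X]) (hQ : ∀ i, i < K → (Q i).natDegree = i)
    (v : Fin K → ℝ) (hf : ∑ i : Fin K, v i • Q i ≠ 0) :
    (∑ i : Fin K, v i • Q i).natDegree < K := by
  have h1 : (∑ i : Fin K, v i • Q i).degree < (K : WithBot ℕ) := by
    refine (degree_sum_le _ _).trans_lt ?_
    refine (Finset.sup_lt_iff (WithBot.bot_lt_coe K)).2 fun i _ => ?_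
    refine (degree_smul_le _ _).trans_lt ?_
    refine degree_le_natDegree.trans_lt ?_
    rw [hQ i i.2]
    exact WithBot.coe_lt_coe.2 i.2
  exact (natDegree_lt_iff_degree_lt hf).2 h1

private theorem Gram_had {K : ℕ} (G : Matrix (Fin K) (Fin K) ℝ) (hG : G.PosSemidef)
    (hd : ∀ i, 0 < G i i) : G.det ≤ ∏ i, G i i := by
  set s : Fin K → ℝ := fun i => 1 / √(G i i) with hs
  have hs1 : ∀ i, s i * s i * G i i = 1 := by
    intro i
    have h1 : √(G i i) ≠ 0 := (Real.sqrt_pos.2 (hd i)).ne'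
    have h2 : √(G i i) * √(G i i) = G i i := Real.mul_self_sqrt (hd i).le
    rw [hs]
    field_simp
    rw [sq, h2]
  have h1 : (Matrix.diagonal s * G * (Matrix.diagonal s).conjTranspose).PosSemidef :=
    hG.mul_mul_conjTranspose_same _
  have h2 : (Matrix.diagonal s).conjTranspose = Matrix.diagonal s := by
    rw [Matrix.diagonal_conjTranspose, star_trivial]
  rw [h2] at h1
  have htr : (Matrix.diagonal s * G * Matrix.diagonal s).trace = (K : ℝ) := by
    rw [Matrix.trace]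
    have h3 : ∀ i, (Matrix.diagonal s * G * Matrix.diagonal s).diag i = 1 := by
      intro i
      rw [Matrix.diag_apply, Matrix.mul_diagonal, Matrix.diagonal_mul, ← hs1 i]
      ring
    rw [Finset.sum_congr rfl fun i _ => h3 i]
    simp
  have hdet : (Matrix.diagonal s * G * Matrix.diagonal s).det ≤ 1 := by
    have h3 := h1.1.det_eq_prod_eigenvalues
    have h4 := h1.1.trace_eq_sum_eigenvalues
    rw [htr] at h4
    rw [h3]
    have h5 : ∏ i, ((h1.1.eigenvalues i : ℝ)) ≤ ∏ i, Real.exp (h1.1.eigenvalues i - 1) := by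
      refine Finset.prod_le_prod (fun i _ => h1.eigenvalues_nonneg i) fun i _ => ?_
      have := Real.add_one_le_exp (h1.1.eigenvalues i - 1)
      linarith
    have h6 : ∏ i, Real.exp (h1.1.eigenvalues i - 1) = 1 := by
      rw [← Real.exp_sum, Finset.sum_sub_distrib]
      have h7 : ∑ i, h1.1.eigenvalues i = (K : ℝ) := h4.symm
      rw [h7]
      simp
    exact h5.trans h6.le
  rw [Matrix.det_mul, Matrix.det_mul, Matrix.det_diagonal] at hdet
  have h3 : (∏ i, s i) * (∏ i, s i) * ∏ i, G i i = 1 := by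
    rw [← Finset.prod_mul_distrib, ← Finset.prod_mul_distrib]
    exact Finset.prod_eq_one fun i _ => hs1 i
  have h4 : 0 < ∏ i, G i i := Finset.prod_pos fun i _ => hd i
  calc G.det = ((∏ i, s i) * (∏ i, s i) * ∏ i, G i i) * G.det := by rw [h3, one_mul]
    _ = ((∏ i, s i) * G.det * ∏ i, s i) * ∏ i, G i i := by ring
    _ ≤ 1 * ∏ i, G i i := mul_le_mul_of_nonneg_right hdet h4.le
    _ = _ := one_mul _

theorem gram_bound {K : ℕ} (ℓ : ℝ[X] →ₗ[ℝ] ℝ)
    (hpos : ∀ f : ℝ[X], f ≠ 0 → f.natDegree < K → 0 < ℓ (f * f)) (P : ℕ → ℝ[X])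
    (hP : ∀ i, i < K → (P i).Monic ∧ (P i).natDegree = i) :
    0 < (Matrix.of fun i j : Fin K => ℓ (X ^ ((i : ℕ) + (j : ℕ)))).det ∧
    (Matrix.of fun i j : Fin K => ℓ (X ^ ((i : ℕ) + (j : ℕ)))).det ≤
      ∏ i ∈ range K, ℓ (P i * P i) := by
  constructor
  · have h1 : (Matrix.of fun i j : Fin K => ℓ (X ^ ((i : ℕ) + (j : ℕ)))) =
        Matrix.of fun i j : Fin K => ℓ ((fun n : ℕ => (X : ℝ[X]) ^ n) i *
          (fun n : ℕ => (X : ℝ[X]) ^ n) j) := by
      ext i j
      simp only [Matrix.of_apply, pow_add]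
    rw [h1]
    refine Matrix.PosDef.det_pos (Matrix.PosDef.of_dotProduct_mulVec_pos
      (Gram_herm ℓ _) fun v hv => ?_)
    rw [Gram_quad]
    have hf : ∑ i : Fin K, v i • (fun n : ℕ => (X : ℝ[X]) ^ n) i ≠ 0 := by
      intro h0
      apply hv
      funext j
      have h2 := congrArg (fun p => coeff p (j : ℕ)) h0
      simp only [finsetSum_coeff, coeff_smul, coeff_X_pow, smul_eq_mul, mul_ite, mul_one,
        mul_zero, coeff_zero] at h2
      rw [Finset.sum_eq_single j] at h2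
      · rwa [if_pos rfl] at h2
      · intro i _ hij
        rw [if_neg]
        exact fun h => hij (Fin.ext h.symm)
      · exact fun h => absurd (Finset.mem_univ j) h
    exact hpos _ hf (Gram_deg _ (fun i _ => natDegree_X_pow i) v hf)
  · have h1 := det_two ℓ P (fun i hi => (hP i hi).2.le) (K := K)
    have h2 : ∏ i : Fin K, (P i).coeff i = 1 := by
      refine Finset.prod_eq_one fun i _ => ?_
      have h3 := (hP i i.2).1
      rw [Monic, leadingCoeff, (hP i i.2).2] at h3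
      exact h3
    rw [h2, one_pow, one_mul] at h1
    rw [← h1, Finset.prod_range fun i => ℓ (P i * P i)]
    refine Gram_had _ (Matrix.PosSemidef.of_dotProduct_mulVec_nonneg (Gram_herm ℓ P)
      fun v => ?_) fun i => ?_
    · rw [Gram_quad]
      by_cases hf : ∑ i : Fin K, v i • P i = 0
      · rw [hf, mul_zero, map_zero]
      · exact (hpos _ hf (Gram_deg P (fun i hi => (hP i hi).2) v hf)).le
    · rw [Matrix.of_apply]
      exact hpos _ (hP i i.2).1.ne_zero ((hP i i.2).2.symm ▸ i.2)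

end Pool.TH
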