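import Pool.Agent.Lib.TH.Defs

/-!
# TH.Herm (size 200): monic Hermite polynomials of the weight `exp (-Q x²)`

`He Q 0 = 1`, `He Q (k+1) = X * He Q k - (1/(2Q)) (He Q k)'`.
(1) `He_monic`: monic of degree `k`. By induction: `(He Q k)'` has degree `< k + 1`
    (`Polynomial.Monic.add_of_left`/`Monic.sub_of_left`, `degree_derivative_lt`...).
(2) `He_deriv`: `(He Q (k+1))' = (k+1) He Q k`. Induction: `(X h_k - c h_k')' =
    h_k + X h_k' - c h_k''`, `h_k' = k h_{k-1}`, so `= h_k + k (X h_{k-1} - c h_{k-1}')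
    = h_k + k h_k`.
(3) `He_rec`: `He Q (k+2) = X He Q (k+1) - C ((k+1)/(2Q)) He Q k` (from the definition and (2)).
(4) `He_int`: `∫ (He Q k)² exp(-Q x²) = √(π/Q) k! / (2Q)^k`, `Q > 0`. For every polynomial `g`,
    `∫ h_{k+1} g e^{-Q x²} = (1/(2Q)) ∫ h_k g' e^{-Q x²}`: the function
    `F = -(1/(2Q)) h_k g e^{-Q x²}` has derivative
    `(h_{k+1} g - (1/(2Q)) h_k g') e^{-Q x²}` and tends to `0` at `± ∞`
    (`integral_of_hasDerivAt_of_tendsto`, or
    `MeasureTheory.integral_eq_zero_of_hasDerivAt_of_integrable`).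
    With `g = h_{k+1}`, `g' = (k+1) h_k`: `I_{k+1} = (k+1)/(2Q) I_k`; `I_0 = √(π/Q)`
    (`integral_gaussian`).
    Integrability of `P(x) exp(-Q x²)` for a polynomial `P`: (5) `poly_gauss_integrable`, from
    `integrable_rpow_mul_exp_neg_mul_sq` / `integrable_mul_exp_neg_mul_sq`, or from
    `Polynomial.induction`; monomials: `integrable_pow_mul_exp_neg_mul_sq`-like lemmas, e.g.
    `|x|^k exp(-Q x²) ≤ C exp(-(Q/2) x²)`.
-/

namespace Pool.TH

open Polynomial MeasureTheory

theorem He_monic (Q : ℝ) (k : ℕ) : (He Q k).Monic ∧ (He Q k).natDegree = k := by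
  induction k with
  | zero => exact ⟨monic_one, natDegree_one⟩
  | succ k ih =>
    obtain ⟨h1, h2⟩ := ih
    have h3 : (X * He Q k).Monic := monic_X.mul h1
    have h4 : (X * He Q k).natDegree = k + 1 := by
      rw [monic_X.natDegree_mul h1, natDegree_X, h2, add_comm]
    have h5 : (C (1 / (2 * Q)) * derivative (He Q k)).natDegree < (X * He Q k).natDegree := by
      rw [h4]
      have h6 := natDegree_C_mul_le (1 / (2 * Q)) (derivative (He Q k))
      have h7 := natDegree_derivative_le (He Q k)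
      omega
    refine ⟨h3.sub_of_left (degree_lt_degree h5), ?_⟩
    change (X * He Q k - C (1 / (2 * Q)) * derivative (He Q k)).natDegree = k + 1
    rw [natDegree_sub_eq_left_of_natDegree_lt h5, h4]

private theorem Herm_deriv (Q : ℝ) (k : ℕ) :
    derivative (He Q (k + 1)) = C ((k : ℝ) + 1) * He Q k := by
  induction k with
  | zero =>
    change derivative (X * (1 : ℝ[X]) - C (1 / (2 * Q)) * derivative (1 : ℝ[X])) =
      C (((0 : ℕ) : ℝ) + 1) * 1
    simp
  | succ k ih =>
    have h1 : He Q (k + 1 + 1) = X * He Q (k + 1) - C (1 / (2 * Q)) * derivative (He Q (k + 1)) :=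
      rfl
    have h2 : He Q (k + 1) = X * He Q k - C (1 / (2 * Q)) * derivative (He Q k) := rfl
    rw [h1, ih, derivative_sub, derivative_mul, derivative_X, one_mul, ih,
      derivative_C_mul, derivative_C_mul]
    have h3 : C (((k + 1 : ℕ) : ℝ) + 1) = C ((k : ℝ) + 1) + (1 : ℝ[X]) := by
      rw [← C_1, ← C_add]
      push_cast
      ring_nf
    rw [h3]
    linear_combination (-C ((k : ℝ) + 1)) * h2

theorem He_deriv {Q : ℝ} (hQ : 0 < Q) (k : ℕ) :
    derivative (He Q (k + 1)) = C ((k : ℝ) + 1) * He Q k :=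
  Herm_deriv Q k

theorem He_rec {Q : ℝ} (hQ : 0 < Q) (k : ℕ) :
    He Q (k + 2) = X * He Q (k + 1) - C (((k : ℝ) + 1) / (2 * Q)) * He Q k := by
  have h1 : He Q (k + 2) = X * He Q (k + 1) - C (1 / (2 * Q)) * derivative (He Q (k + 1)) := rfl
  rw [h1, Herm_deriv, ← mul_assoc, ← C_mul]
  have h2 : 1 / (2 * Q) * ((k : ℝ) + 1) = ((k : ℝ) + 1) / (2 * Q) := by ring
  rw [h2]

theorem poly_gauss_integrable {Q : ℝ} (hQ : 0 < Q) (P : ℝ[X]) :
    Integrable fun x : ℝ => P.eval x * Real.exp (-Q * x ^ 2) := by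
  have h1 : (fun x : ℝ => P.eval x * Real.exp (-Q * x ^ 2)) = fun x : ℝ =>
      ∑ i ∈ Finset.range (P.natDegree + 1), P.coeff i * (x ^ i * Real.exp (-Q * x ^ 2)) := by
    funext x
    rw [eval_eq_sum_range, Finset.sum_mul]
    exact Finset.sum_congr rfl fun i _ => by ring
  rw [h1]
  refine integrable_finsetSum _ fun i _ => Integrable.const_mul ?_ _
  have h2 := integrable_rpow_mul_exp_neg_mul_sq hQ (s := (i : ℝ))
    (lt_of_lt_of_le (by norm_num) (Nat.cast_nonneg i))
  simpa only [Real.rpow_natCast] using h2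

private theorem Herm_ibp {Q : ℝ} (hQ : 0 < Q) (k : ℕ) (g : ℝ[X]) :
    ∫ x : ℝ, (He Q (k + 1) * g).eval x * Real.exp (-Q * x ^ 2) =
      1 / (2 * Q) * ∫ x : ℝ, (He Q k * derivative g).eval x * Real.exp (-Q * x ^ 2) := by
  have hder : ∀ x : ℝ, HasDerivAt
      (fun x : ℝ => -(1 / (2 * Q)) * ((He Q k * g).eval x * Real.exp (-Q * x ^ 2)))
      ((He Q (k + 1) * g).eval x * Real.exp (-Q * x ^ 2) -
        1 / (2 * Q) * ((He Q k * derivative g).eval x * Real.exp (-Q * x ^ 2))) x := by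
    intro x
    have h1 := (He Q k * g).hasDerivAt x
    have h2 : HasDerivAt (fun x : ℝ => -Q * x ^ 2) (-Q * (2 * x)) x := by
      simpa using (hasDerivAt_pow 2 x).const_mul (-Q)
    have h3 := (h1.mul h2.exp).const_mul (-(1 / (2 * Q)))
    refine h3.congr_deriv ?_
    have h4 : He Q (k + 1) = X * He Q k - C (1 / (2 * Q)) * derivative (He Q k) := rfl
    rw [h4, derivative_mul]
    simp only [eval_mul, eval_sub, eval_add, eval_X, eval_C]
    field_simp
    ring
  have hi1 := poly_gauss_integrable hQ (He Q (k + 1) * g)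
  have hi2 := (poly_gauss_integrable hQ (He Q k * derivative g)).const_mul (1 / (2 * Q))
  have hi3 := (poly_gauss_integrable hQ (He Q k * g)).const_mul (-(1 / (2 * Q)))
  have h5 := integral_eq_zero_of_hasDerivAt_of_integrable hder (hi1.sub hi2) hi3
  rw [integral_sub hi1 hi2, integral_const_mul] at h5
  linarith

theorem He_int {Q : ℝ} (hQ : 0 < Q) (k : ℕ) :
    ∫ x : ℝ, (He Q k).eval x ^ 2 * Real.exp (-Q * x ^ 2) =
      Real.sqrt (Real.pi / Q) * (k.factorial : ℝ) / (2 * Q) ^ k := by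
  induction k with
  | zero =>
    have h1 : (fun x : ℝ => (He Q 0).eval x ^ 2 * Real.exp (-Q * x ^ 2)) = fun x : ℝ =>
        Real.exp (-Q * x ^ 2) := by
      funext x
      change ((1 : ℝ[X]).eval x) ^ 2 * _ = _
      rw [eval_one, one_pow, one_mul]
    rw [h1, integral_gaussian]
    simp
  | succ k ih =>
    have h1 := Herm_ibp hQ k (He Q (k + 1))
    rw [Herm_deriv] at h1
    have h2 : (fun x : ℝ => (He Q (k + 1)).eval x ^ 2 * Real.exp (-Q * x ^ 2)) = fun x : ℝ =>
        (He Q (k + 1) * He Q (k + 1)).eval x * Real.exp (-Q * x ^ 2) := by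
      funext x
      rw [eval_mul, sq]
    have h3 : (fun x : ℝ => (He Q k * (C ((k : ℝ) + 1) * He Q k)).eval x *
        Real.exp (-Q * x ^ 2)) = fun x : ℝ =>
        ((k : ℝ) + 1) * ((He Q k).eval x ^ 2 * Real.exp (-Q * x ^ 2)) := by
      funext x
      rw [eval_mul, eval_mul, eval_C]
      ring
    rw [h2, h1, h3, integral_const_mul, ih, Nat.factorial_succ, pow_succ]
    have hQ' : (2 * Q) ≠ 0 := by positivity
    push_cast
    field_simp

end Pool.TH
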