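import Pool.Agent.Lib.TH.Herm

/-!
# TH.HermB (size 90): pointwise bound of Hermite polynomials outside the zeros

If `Q > 0` and `4 k ≤ 2 Q x²` then `|He Q k (x)| ≤ |x|^k`.

PROOF. Put `h_j = (He Q j).eval x`, `c = 1/(2Q)`. `He_rec`: `h_{j+2} = x h_{j+1} - (j+1) c h_j`.
If `k = 0` trivial. Otherwise `x ≠ 0`. Claim for `0 ≤ j < k`:
`x h_j h_{j+1} > 0`, `|h_{j+1}| ≤ |x| |h_j|` and `|x| |h_j| ≤ 2 |h_{j+1}|`.
`j = 0`: `h_0 = 1`, `h_1 = x`. Step `j → j+1` (`j + 1 < k`): `h_{j+2} = x h_{j+1} (1 - t)` with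
`t = (j+1) c h_j / (x h_{j+1})`, `t > 0` by the sign, and
`t = (j+1) c (x h_j h_{j+1}) / (x² h_{j+1}²) ≤ (j+1) c 2 / x² ≤ 1/2` because
`|x h_j| ≤ 2 |h_{j+1}|` and `4 (j+1) ≤ 4 k ≤ 2 Q x² = x²/c`. So `1/2 ≤ 1 - t < 1`, all three
claims follow. Then `|h_k| ≤ |x|^k` by induction.
(Division free version of the step: with `u = x h_j`, `v = h_{j+1}` one has `0 < u v`,
`|u| ≤ 2 |v|`, `x h_{j+2} = x² v - (j+1) c u`.)
-/

namespace Pool.TH

open Polynomial

/-- sign lemma: from `s v > 0` and `s a ≥ 0` follows `v a ≥ 0` -/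
theorem hermB_sign {s v a : ℝ} (h : 0 < s * v) (h2 : 0 ≤ s * a) : 0 ≤ v * a := by
  rcases lt_trichotomy s 0 with hs | hs | hs
  · have hv : v < 0 := by
      by_contra hc
      have := mul_nonpos_of_nonpos_of_nonneg hs.le (not_lt.mp hc)
      linarith
    have ha : a ≤ 0 := by
      by_contra hc
      have := mul_neg_of_neg_of_pos hs (not_le.mp hc)
      linarith
    exact mul_nonneg_of_nonpos_of_nonpos hv.le ha
  · rw [hs] at h; simp at h
  · have hv : 0 < v := by
      by_contra hc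
      have := mul_nonpos_of_nonneg_of_nonpos hs.le (not_lt.mp hc)
      linarith
    have ha : 0 ≤ a := by
      by_contra hc
      have := mul_neg_of_pos_of_neg hs (not_le.mp hc)
      linarith
    exact mul_nonneg hv.le ha

theorem hermB_step {Q : ℝ} (hQ : 0 < Q) (k : ℕ) (x : ℝ) (hx : x ≠ 0)
    (h : 4 * (k : ℝ) ≤ 2 * Q * x ^ 2) (j : ℕ) (hj : j < k) :
    0 < (x * (He Q j).eval x) * (He Q (j + 1)).eval x ∧
      (x * (He Q j).eval x) * (He Q (j + 1)).eval x ≤ 2 * (He Q (j + 1)).eval x ^ 2 ∧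
      (He Q (j + 1)).eval x ^ 2 ≤ (x * (He Q j).eval x) * (He Q (j + 1)).eval x := by
  induction j with
  | zero =>
    have h0 : (He Q 0).eval x = 1 := by simp [He]
    have h1 : (He Q 1).eval x = x := by simp [He]
    rw [h0]
    simp only [zero_add]
    rw [h1]
    have hxx : 0 < x * x := mul_self_pos.mpr hx
    refine ⟨by linarith, by nlinarith, by nlinarith⟩
  | succ j ih =>
    obtain ⟨i1, i2, i3⟩ := ih (by omega)
    have hrec : (He Q (j + 1 + 1)).eval x = x * (He Q (j + 1)).eval x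
        - (((j : ℝ) + 1) / (2 * Q)) * (He Q j).eval x := by
      have := congrArg (fun p => p.eval x) (He_rec hQ j)
      simpa using this
    set a : ℝ := ((j : ℝ) + 1) / (2 * Q) with ha
    have ha0 : 0 ≤ a := by rw [ha]; positivity
    have ha1 : a ≤ x ^ 2 / 4 := by
      rw [ha, div_le_div_iff₀ (by linarith) (by norm_num)]
      have : ((j : ℝ) + 1) ≤ k := by exact_mod_cast hj.le
      nlinarith
    generalize (He Q j).eval x = hj0 at *
    generalize (He Q (j + 1)).eval x = v at *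
    generalize (He Q (j + 1 + 1)).eval x = v2 at *
    have hv0 : v ≠ 0 := by rintro rfl; simp at i1
    have e1 : (x * v) * v2 = x ^ 2 * v ^ 2 - a * ((x * hj0) * v) := by rw [hrec]; ring
    have hv2 : 0 < v ^ 2 := by positivity
    have hx2 : 0 < x ^ 2 := by positivity
    have e2 : a * ((x * hj0) * v) ≤ x ^ 2 * v ^ 2 / 2 := by
      have t1 : a * ((x * hj0) * v) ≤ a * (2 * v ^ 2) := mul_le_mul_of_nonneg_left i2 ha0
      have t2 : a * (2 * v ^ 2) ≤ x ^ 2 / 4 * (2 * v ^ 2) :=
        mul_le_mul_of_nonneg_right ha1 (by positivity)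
      linarith
    have e3 : 0 ≤ a * ((x * hj0) * v) := mul_nonneg ha0 i1.le
    have hpos : 0 < (x * v) * v2 := by
      have : 0 < x ^ 2 * v ^ 2 := mul_pos hx2 hv2
      linarith
    refine ⟨hpos, ?_, ?_⟩
    · have := hermB_sign (s := x * v) (v := v2) (a := 2 * v2 - x * v) hpos (by nlinarith)
      nlinarith
    · have := hermB_sign (s := x * v) (v := v2) (a := x * v - v2) hpos (by nlinarith)
      nlinarith

theorem He_le {Q : ℝ} (hQ : 0 < Q) (k : ℕ) (x : ℝ) (h : 4 * (k : ℝ) ≤ 2 * Q * x ^ 2) :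
    |(He Q k).eval x| ≤ |x| ^ k := by
  by_cases hx : x = 0
  · subst hx
    have hk : k = 0 := by
      have : (k : ℝ) ≤ 0 := by
        have : (0 : ℝ) ^ 2 = 0 := by norm_num
        rw [this] at h
        linarith
      exact_mod_cast le_antisymm this (Nat.cast_nonneg k)
    subst hk
    simp [He]
  · have key : ∀ j, j ≤ k → |(He Q j).eval x| ≤ |x| ^ j := by
      intro j
      induction j with
      | zero => intro _; simp [He]
      | succ j ih =>
        intro hj
        obtain ⟨i1, i2, i3⟩ := hermB_step hQ k x hx h j (by omega)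
        have ih' := ih (by omega)
        have h1 : |(He Q (j + 1)).eval x| ≤ |x| * |(He Q j).eval x| := by
          rw [← abs_mul]
          generalize x * (He Q j).eval x = u at *
          generalize (He Q (j + 1)).eval x = v at *
          have i4 : 0 ≤ v * (u - v) := by nlinarith
          have i5 : 0 ≤ u * (u - v) := hermB_sign (s := v) (v := u) (by linarith [mul_comm u v]) i4
          exact sq_le_sq.mp (by nlinarith)
        calc |(He Q (j + 1)).eval x| ≤ |x| * |(He Q j).eval x| := h1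
          _ ≤ |x| * |x| ^ j := mul_le_mul_of_nonneg_left ih' (abs_nonneg _)
          _ = |x| ^ (j + 1) := by ring
    exact key k le_rfl

end Pool.TH
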