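import Pool.Agent.Lib.TH.Tools

/-!
# TH.SubI: the substitution `u = 1 - 8 s / 9` on `(1/9, 1)`

`∫_{1/9}^1 u^A (1-u)^B (1-9u)^C du` in two ways: by the coefficients, and after `u = 1 - 8 s/9`.
-/

namespace Pool.TH

open Polynomial Finset

private lemma SubI_eval (A B C : ℕ) (x : ℝ) :
    x ^ A * (1 - x) ^ B * (1 - 9 * x) ^ C =
      ∑ k ∈ range (A + B + C + 1), ((WZ A B C).coeff k : ℝ) * x ^ k := by
  have h1 : ((WZ A B C).map (Int.castRingHom ℝ)).eval x =
      x ^ A * (1 - x) ^ B * (1 - 9 * x) ^ C := by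
    unfold WZ
    simp [Polynomial.map_pow, Polynomial.map_mul, Polynomial.map_sub]
  rw [← h1, Polynomial.eval_eq_sum_range' (n := A + B + C + 1)]
  · refine Finset.sum_congr rfl fun k _ => ?_
    rw [Polynomial.coeff_map]
    simp
  · exact Nat.lt_succ_of_le (Polynomial.natDegree_map_le.trans (natDegree_WZ_le A B C))

private lemma SubI_left (A B C : ℕ) :
    ∫ x in (1 / 9 : ℝ)..1, x ^ A * (1 - x) ^ B * (1 - 9 * x) ^ C =
      ∑ k ∈ range (A + B + C + 1), ((WZ A B C).coeff k : ℝ) *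
        ((1 - 1 / 9 ^ (k + 1)) / (k + 1)) := by
  have h1 : (fun x : ℝ => x ^ A * (1 - x) ^ B * (1 - 9 * x) ^ C) =
      fun x : ℝ => ∑ k ∈ range (A + B + C + 1), ((WZ A B C).coeff k : ℝ) * x ^ k := by
    funext x
    exact SubI_eval A B C x
  rw [h1, intervalIntegral.integral_finsetSum]
  · refine Finset.sum_congr rfl fun k _ => ?_
    rw [intervalIntegral.integral_const_mul, integral_pow]
    rw [one_pow, one_div, inv_pow, one_div]
  · intro k _
    exact (Continuous.intervalIntegrable (by fun_prop) _ _)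

private lemma SubI_right (A B C : ℕ) :
    ∫ s in (0 : ℝ)..1, s ^ B * (1 - s) ^ C * (1 - 8 / 9 * s) ^ A =
      ∑ j ∈ range (A + 1), ∑ l ∈ range (C + 1),
        ((A.choose j : ℝ) * (-(8 / 9)) ^ j * ((C.choose l : ℝ) * (-1) ^ l) /
          ((B + j + l : ℕ) + 1)) := by
  have h1 : (fun s : ℝ => s ^ B * (1 - s) ^ C * (1 - 8 / 9 * s) ^ A) =
      fun s : ℝ => ∑ j ∈ range (A + 1), ∑ l ∈ range (C + 1),
        ((A.choose j : ℝ) * (-(8 / 9)) ^ j * ((C.choose l : ℝ) * (-1) ^ l)) * s ^ (B + j + l) := by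
    funext s
    have h2 : (1 - 8 / 9 * s) ^ A = ∑ j ∈ range (A + 1), (-(8 / 9) * s) ^ j * (A.choose j : ℝ) := by
      have h3 : (1 - 8 / 9 * s) = -(8 / 9) * s + 1 := by ring
      rw [h3, add_pow]
      refine Finset.sum_congr rfl fun j _ => ?_
      rw [one_pow, mul_one]
    have h4 : (1 - s) ^ C = ∑ l ∈ range (C + 1), (-1 * s) ^ l * (C.choose l : ℝ) := by
      have h5 : (1 - s) = -1 * s + 1 := by ring
      rw [h5, add_pow]
      refine Finset.sum_congr rfl fun j _ => ?_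
      rw [one_pow, mul_one]
    rw [h2, h4, mul_assoc, mul_comm (∑ l ∈ range (C + 1), _), Finset.sum_mul_sum, Finset.mul_sum]
    refine Finset.sum_congr rfl fun j _ => ?_
    rw [Finset.mul_sum]
    refine Finset.sum_congr rfl fun l _ => ?_
    rw [mul_pow, mul_pow, pow_add, pow_add]
    ring
  rw [h1, intervalIntegral.integral_finsetSum]
  · refine Finset.sum_congr rfl fun j _ => ?_
    rw [intervalIntegral.integral_finsetSum]
    · refine Finset.sum_congr rfl fun l _ => ?_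
      rw [intervalIntegral.integral_const_mul, integral_pow]
      rw [one_pow, zero_pow (by omega), sub_zero]
      ring
    · intro l _
      exact (Continuous.intervalIntegrable (by fun_prop) _ _)
  · intro j _
    exact (Continuous.intervalIntegrable (by fun_prop) _ _)

private lemma SubI_subst (A B C : ℕ) :
    ∫ x in (1 / 9 : ℝ)..1, x ^ A * (1 - x) ^ B * (1 - 9 * x) ^ C =
      (8 / 9 : ℝ) ^ (B + 1) * (-8) ^ C *
        ∫ s in (0 : ℝ)..1, s ^ B * (1 - s) ^ C * (1 - 8 / 9 * s) ^ A := by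
  have h1 := intervalIntegral.integral_comp_sub_mul
    (f := fun x : ℝ => x ^ A * (1 - x) ^ B * (1 - 9 * x) ^ C) (a := 0) (b := 1)
    (c := 8 / 9) (by norm_num) 1
  have h2 : (1 : ℝ) - 8 / 9 * 1 = 1 / 9 := by norm_num
  rw [h2, mul_zero, sub_zero] at h1
  have h3 : (fun s : ℝ => (1 - 8 / 9 * s) ^ A * (1 - (1 - 8 / 9 * s)) ^ B *
      (1 - 9 * (1 - 8 / 9 * s)) ^ C) =
      fun s : ℝ => ((8 / 9 : ℝ) ^ B * (-8) ^ C) * (s ^ B * (1 - s) ^ C * (1 - 8 / 9 * s) ^ A) := by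
    funext s
    have h4 : (1 - (1 - 8 / 9 * s)) = 8 / 9 * s := by ring
    have h5 : (1 - 9 * (1 - 8 / 9 * s)) = -8 * (1 - s) := by ring
    rw [h4, h5, mul_pow, mul_pow]
    ring
  rw [h3, intervalIntegral.integral_const_mul, smul_eq_mul] at h1
  have h6 : ∫ x in (1 / 9 : ℝ)..1, x ^ A * (1 - x) ^ B * (1 - 9 * x) ^ C =
      8 / 9 * (((8 / 9 : ℝ) ^ B * (-8) ^ C) *
        ∫ s in (0 : ℝ)..1, s ^ B * (1 - s) ^ C * (1 - 8 / 9 * s) ^ A) := by
    rw [h1]
    ring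
  rw [h6, pow_succ]
  ring

theorem sub_id (A B C : ℕ) :
    ∑ k ∈ range (A + B + C + 1), ((WZ A B C).coeff k : ℚ) * ((1 - 1 / 9 ^ (k + 1)) / (k + 1)) =
      (8 / 9 : ℚ) ^ (B + 1) * (-8) ^ C * ∑ j ∈ range (A + 1), ∑ l ∈ range (C + 1),
        ((A.choose j : ℚ) * (-(8 / 9)) ^ j * ((C.choose l : ℚ) * (-1) ^ l) / ((B + j + l : ℕ) + 1)) := by
  have h := (SubI_left A B C).symm.trans (SubI_subst A B C)
  rw [SubI_right] at h
  have h2 : ((∑ k ∈ range (A + B + C + 1), ((WZ A B C).coeff k : ℚ) *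
      ((1 - 1 / 9 ^ (k + 1)) / (k + 1)) : ℚ) : ℝ) =
      (((8 / 9 : ℚ) ^ (B + 1) * (-8) ^ C * ∑ j ∈ range (A + 1), ∑ l ∈ range (C + 1),
        ((A.choose j : ℚ) * (-(8 / 9)) ^ j * ((C.choose l : ℚ) * (-1) ^ l) /
          ((B + j + l : ℕ) + 1)) : ℚ) : ℝ) := by
    push_cast
    push_cast at h
    exact h
  exact_mod_cast h2

end Pool.TH
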