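import Pool.Agent.Lib.TH.DetB
import Pool.Agent.Lib.TH.SubI

/-!
# TH.Loc2 (size 180): the prime 2

`padicNorm 2 D ≤ (2000 N)^(55 N) * 2^(2 ∑_{i < 55 N} (72 N - 3 i))` (truncated subtraction), for
`m ≤ 3000 N`.

PROOF. `det_two` with `ℓ f = Lf M T (Wt N * f)` and `g i = (1 - X)^i` (`natDegree ≤ i`,
coefficient at `i` is `(-1)^i`, the square of the product is `1`): so
`D = det (Lf M T (Wt N * (1-X)^i * (1-X)^j))`, and
`Wt N * (1-X)^i * (1-X)^j = (WZ A B C).map`, `A = 912 N`, `B = 497 N + (i + j)`, `C = 455 N`.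
`det_norm_le` with `a i = 2000 N * 2^(72 N - 3 i)`, `b j = 2^(72 N - 3 j)`.
Entry: `J(k) = M/(k+1) - T (1 - 1/9^(k+1))/(k+1)`, so by `Lf_map_eq_sum` (with
`n = A + B + C + 1`) and `sub_id` the entry is
`∑_k f_k M/(k+1) - T (8/9)^(B+1) (-8)^C ∑_j ∑_l ...`. The first sum has norm
`≤ max (k+1) ≤ A + B + C + 1 ≤ 2000 N` (norm of `1/(k+1)` is `≤ k + 1`, see TH.LocS). Second:
`‖T‖ = 2^m ≤ 2^(3000 N)`, `‖(8/9)^(B+1) (-8)^C‖ = 2^(-3 (B + 1 + C))`, each term of the double sum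
has norm `≤ B + j + l + 1 ≤ 2000 N`. The exponent is `3000 N - 3 (952 N + i + j + 1)
= 144 N - 3 - 3 (i + j) ≤ (72 N - 3 i) + (72 N - 3 j)`, `≤` the sum of the truncated ones.
-/

namespace Pool.TH

open Polynomial Finset

private theorem Loc2_coeff (i : ℕ) : ((1 - X : ℚ[X]) ^ i).coeff i ^ 2 = 1 := by
  have h : (1 - X : ℚ[X]) ^ i = C ((-1) ^ i) * (X - C 1) ^ i := by
    rw [C_pow, ← mul_pow]
    congr 1
    simp only [map_neg, map_one]
    ring
  have h2 : ((X - C 1 : ℚ[X]) ^ i).coeff i = 1 := by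
    have h3 := ((monic_X_sub_C (1 : ℚ)).pow i).coeff_natDegree
    rwa [natDegree_pow, natDegree_X_sub_C, mul_one] at h3
  rw [h, coeff_C_mul, h2, mul_one, ← pow_mul, mul_comm, pow_mul]
  norm_num

private theorem Loc2_inv (n : ℕ) (hn : 0 < n) : (padicNorm 2 (1 / (n : ℚ)) : ℝ) ≤ n := by
  have hn0 : (n : ℚ) ≠ 0 := by exact_mod_cast hn.ne'
  have h1 : padicNorm 2 (1 / (n : ℚ)) = ((2 ^ padicValNat 2 n : ℕ) : ℚ) := by
    rw [padicNorm.div, padicNorm.one, padicNorm.eq_zpow_of_nonzero hn0, padicValRat.of_nat,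
      zpow_neg, one_div, inv_inv, zpow_natCast]
    push_cast
    rfl
  rw [h1]
  have h2 : 2 ^ padicValNat 2 n ≤ n := Nat.le_of_dvd hn pow_padicValNat_dvd
  exact_mod_cast h2

private theorem Loc2_int (z : ℤ) : (padicNorm 2 (z : ℚ) : ℝ) ≤ 1 := by
  exact_mod_cast padicNorm.of_int z

private theorem Loc2_two : (padicNorm 2 (2 : ℚ) : ℝ) = 1 / 2 := by
  have h : padicNorm 2 ((2 : ℕ) : ℚ) = ((2 : ℕ) : ℚ)⁻¹ := padicNorm.padicNorm_p_of_prime
  have h' : padicNorm 2 (2 : ℚ) = (2 : ℚ)⁻¹ := by exact_mod_cast h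
  rw [h']
  norm_num

private theorem Loc2_nine : (padicNorm 2 (9 : ℚ) : ℝ) = 1 := by
  have h : padicNorm 2 ((9 : ℕ) : ℚ) = 1 := (padicNorm.nat_eq_one_iff 9).2 (by norm_num)
  have h' : padicNorm 2 (9 : ℚ) = 1 := by exact_mod_cast h
  rw [h']
  norm_num

private theorem Loc2_three : (padicNorm 2 (3 : ℚ) : ℝ) = 1 := by
  have h : padicNorm 2 ((3 : ℕ) : ℚ) = 1 := (padicNorm.nat_eq_one_iff 3).2 (by norm_num)
  have h' : padicNorm 2 (3 : ℚ) = 1 := by exact_mod_cast h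
  rw [h']
  norm_num

private theorem Loc2_pow (q : ℚ) (n : ℕ) :
    (padicNorm 2 (q ^ n) : ℝ) = (padicNorm 2 q : ℝ) ^ n := by
  induction n with
  | zero => simp
  | succ n ih => rw [pow_succ, padicNorm_real_mul, ih, pow_succ]

private theorem Loc2_div (q r : ℚ) :
    (padicNorm 2 (q / r) : ℝ) = (padicNorm 2 q : ℝ) / (padicNorm 2 r : ℝ) := by
  rw [padicNorm.div]; push_cast; rfl

private theorem Loc2_neg (q : ℚ) : (padicNorm 2 (-q) : ℝ) = (padicNorm 2 q : ℝ) := by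
  rw [padicNorm.neg]

private theorem Loc2_eight : (padicNorm 2 (8 : ℚ) : ℝ) = 1 / 8 := by
  rw [show (8 : ℚ) = 2 ^ 3 by norm_num, Loc2_pow, Loc2_two]
  norm_num

private theorem Loc2_T (N m : ℕ) : (padicNorm 2 (TT N m) : ℝ) = 2 ^ m := by
  unfold TT
  rw [Loc2_div, Loc2_pow, Loc2_pow, Loc2_two, Loc2_three, one_pow, div_pow, one_pow, one_div_one_div]

private theorem Loc2_entry {N m : ℕ} (hN : 1 ≤ N) (hm : m ≤ 3000 * N) (M : ℤ) {i j : ℕ}
    (hi : i < 55 * N) (hj : j < 55 * N) :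
    (padicNorm 2 (Lf M (TT N m) (Wt N * ((1 - X) ^ i * (1 - X) ^ j))) : ℝ) ≤
      (2000 * N * 2 ^ (72 * N - 3 * i)) * 2 ^ (72 * N - 3 * j) := by
  have h1 : Wt N * ((1 - X) ^ i * (1 - X) ^ j) =
      (WZ (912 * N) (497 * N + (i + j)) (455 * N)).map (Int.castRingHom ℚ) := by
    rw [WZ_map, Wt, pow_add, pow_add]
    ring
  have hN' : (1 : ℝ) ≤ N := by exact_mod_cast hN
  have hE1 : (1 : ℝ) ≤ 2 ^ (72 * N - 3 * i) := one_le_pow₀ (by norm_num)
  have hE2 : (1 : ℝ) ≤ 2 ^ (72 * N - 3 * j) := one_le_pow₀ (by norm_num)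
  have hK : (0 : ℝ) ≤ 2000 * N := by positivity
  rw [h1, Lf_map_eq_sum _ _ _ (912 * N + (497 * N + (i + j)) + 455 * N + 1)
    (Nat.lt_succ_of_le (natDegree_WZ_le _ _ _))]
  have h2 : ∑ k ∈ range (912 * N + (497 * N + (i + j)) + 455 * N + 1),
      ((WZ (912 * N) (497 * N + (i + j)) (455 * N)).coeff k : ℚ) * Jm M (TT N m) k =
      (∑ k ∈ range (912 * N + (497 * N + (i + j)) + 455 * N + 1),
        (((WZ (912 * N) (497 * N + (i + j)) (455 * N)).coeff k * M : ℤ) : ℚ) *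
          (1 / ((k + 1 : ℕ) : ℚ))) +
      -(TT N m * (((8 / 9 : ℚ) ^ (497 * N + (i + j) + 1) * (-8) ^ (455 * N)) *
        ∑ a ∈ range (912 * N + 1), ∑ b ∈ range (455 * N + 1),
        (((912 * N).choose a : ℚ) * (-(8 / 9)) ^ a * (((455 * N).choose b : ℚ) * (-1) ^ b) /
          ((497 * N + (i + j) + a + b : ℕ) + 1)))) := by
    rw [← sub_id, Finset.mul_sum, ← sub_eq_add_neg, ← Finset.sum_sub_distrib]
    refine Finset.sum_congr rfl fun k _ => ?_
    unfold Jm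
    have hk : ((k : ℚ) + 1) ≠ 0 := by positivity
    push_cast
    field_simp
    ring
  rw [h2]
  have hA : (padicNorm 2 (∑ k ∈ range (912 * N + (497 * N + (i + j)) + 455 * N + 1),
        (((WZ (912 * N) (497 * N + (i + j)) (455 * N)).coeff k * M : ℤ) : ℚ) *
          (1 / ((k + 1 : ℕ) : ℚ))) : ℝ) ≤ 2000 * N := by
    refine padicNorm_real_sum_le hK fun k hk => ?_
    rw [padicNorm_real_mul]
    have h3 := Loc2_int ((WZ (912 * N) (497 * N + (i + j)) (455 * N)).coeff k * M)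
    have h4 := Loc2_inv (k + 1) (Nat.succ_pos k)
    have h5 : ((k + 1 : ℕ) : ℝ) ≤ 2000 * N := by
      have : k + 1 ≤ 2000 * N := by
        have := Finset.mem_range.1 hk
        omega
      exact_mod_cast this
    calc _ ≤ 1 * ((k + 1 : ℕ) : ℝ) :=
          mul_le_mul h3 h4 (padicNorm_real_nonneg _) zero_le_one
      _ ≤ 2000 * N := by rw [one_mul]; exact h5
  have hB : (padicNorm 2 (∑ a ∈ range (912 * N + 1), ∑ b ∈ range (455 * N + 1),
        (((912 * N).choose a : ℚ) * (-(8 / 9)) ^ a * (((455 * N).choose b : ℚ) * (-1) ^ b) /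
          ((497 * N + (i + j) + a + b : ℕ) + 1))) : ℝ) ≤ 2000 * N := by
    refine padicNorm_real_sum_le hK fun a ha => padicNorm_real_sum_le hK fun b hb => ?_
    have h4 := Loc2_inv (497 * N + (i + j) + a + b + 1) (Nat.succ_pos _)
    have h5 : ((497 * N + (i + j) + a + b + 1 : ℕ) : ℝ) ≤ 2000 * N := by
      have : 497 * N + (i + j) + a + b + 1 ≤ 2000 * N := by
        have := Finset.mem_range.1 ha
        have := Finset.mem_range.1 hb
        omega
      exact_mod_cast this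
    have h6 : (((912 * N).choose a : ℚ) * (-(8 / 9)) ^ a * (((455 * N).choose b : ℚ) * (-1) ^ b) /
          ((497 * N + (i + j) + a + b : ℕ) + 1)) =
        (((912 * N).choose a * ((455 * N).choose b * (-1) ^ b) : ℤ) : ℚ) * (-(8 / 9)) ^ a *
          (1 / ((497 * N + (i + j) + a + b + 1 : ℕ) : ℚ)) := by
      push_cast
      ring
    rw [h6, padicNorm_real_mul, padicNorm_real_mul]
    have h7 : (padicNorm 2 ((-(8 / 9) : ℚ) ^ a) : ℝ) ≤ 1 := by
      rw [Loc2_pow, Loc2_neg, Loc2_div, Loc2_eight, Loc2_nine]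
      exact pow_le_one₀ (by norm_num) (by norm_num)
    have h8 := Loc2_int ((912 * N).choose a * ((455 * N).choose b * (-1) ^ b))
    calc _ ≤ (1 * 1) * ((497 * N + (i + j) + a + b + 1 : ℕ) : ℝ) := by
          refine mul_le_mul (mul_le_mul h8 h7 (padicNorm_real_nonneg _) zero_le_one) h4
            (padicNorm_real_nonneg _) (by norm_num)
      _ ≤ 2000 * N := by rw [one_mul, one_mul]; exact h5
  have hC : (padicNorm 2 (TT N m * ((8 / 9 : ℚ) ^ (497 * N + (i + j) + 1) * (-8) ^ (455 * N))) : ℝ) ≤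
      2 ^ (72 * N - 3 * i) * 2 ^ (72 * N - 3 * j) := by
    rw [padicNorm_real_mul, padicNorm_real_mul, Loc2_T, Loc2_pow, Loc2_pow, Loc2_neg, Loc2_div,
      Loc2_eight, Loc2_nine, div_one, ← pow_add, ← pow_add, one_div, inv_pow, ← div_eq_mul_inv,
      div_le_iff₀ (by positivity), show (8 : ℝ) = 2 ^ 3 by norm_num, ← pow_mul, ← pow_add]
    exact pow_le_pow_right₀ (by norm_num) (by omega)
  have hD : (padicNorm 2 (-(TT N m * (((8 / 9 : ℚ) ^ (497 * N + (i + j) + 1) * (-8) ^ (455 * N)) *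
        ∑ a ∈ range (912 * N + 1), ∑ b ∈ range (455 * N + 1),
        (((912 * N).choose a : ℚ) * (-(8 / 9)) ^ a * (((455 * N).choose b : ℚ) * (-1) ^ b) /
          ((497 * N + (i + j) + a + b : ℕ) + 1))))) : ℝ) ≤
      (2000 * N * 2 ^ (72 * N - 3 * i)) * 2 ^ (72 * N - 3 * j) := by
    rw [Loc2_neg, ← mul_assoc, padicNorm_real_mul]
    calc _ ≤ (2 ^ (72 * N - 3 * i) * 2 ^ (72 * N - 3 * j)) * (2000 * N : ℝ) :=
          mul_le_mul hC hB (padicNorm_real_nonneg _) (by positivity)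
      _ = _ := by ring
  have hE : (2000 * N : ℝ) ≤ (2000 * N * 2 ^ (72 * N - 3 * i)) * 2 ^ (72 * N - 3 * j) := by
    rw [mul_assoc]
    exact le_mul_of_one_le_right hK (one_le_mul_of_one_le_of_one_le hE1 hE2)
  have h9 := padicNorm.nonarchimedean (p := 2)
    (q := ∑ k ∈ range (912 * N + (497 * N + (i + j)) + 455 * N + 1),
        (((WZ (912 * N) (497 * N + (i + j)) (455 * N)).coeff k * M : ℤ) : ℚ) *
          (1 / ((k + 1 : ℕ) : ℚ)))
    (r := -(TT N m * (((8 / 9 : ℚ) ^ (497 * N + (i + j) + 1) * (-8) ^ (455 * N)) *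
        ∑ a ∈ range (912 * N + 1), ∑ b ∈ range (455 * N + 1),
        (((912 * N).choose a : ℚ) * (-(8 / 9)) ^ a * (((455 * N).choose b : ℚ) * (-1) ^ b) /
          ((497 * N + (i + j) + a + b : ℕ) + 1)))))
  have h10 := (Rat.cast_le (K := ℝ)).2 h9
  rw [Rat.cast_max] at h10
  exact h10.trans (max_le (hA.trans hE) hD)

theorem norm_two {N m : ℕ} (hN : 1 ≤ N) (hm : m ≤ 3000 * N) (M : ℤ) :
    (padicNorm 2 (Dm M (TT N m) N).det : ℝ) ≤
      (2000 * N : ℝ) ^ (55 * N) * 2 ^ (2 * ∑ i ∈ range (55 * N), (72 * N - 3 * i)) := by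
  have h1 := det_two (K := 55 * N) ((Lf M (TT N m)).comp (LinearMap.mulLeft ℚ (Wt N)))
    (fun i => (1 - X) ^ i) (fun i _ => by
      have h : (1 - X : ℚ[X]).natDegree ≤ 1 := by compute_degree
      exact (natDegree_pow_le.trans (Nat.mul_le_mul_left i h)).trans (by rw [mul_one]))
  rw [← Finset.prod_pow, Finset.prod_congr rfl (fun (i : Fin (55 * N)) _ => Loc2_coeff (i : ℕ)),
    Finset.prod_const_one, one_mul] at h1
  have h2 : Dm M (TT N m) N = Matrix.of fun i j : Fin (55 * N) =>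
      ((Lf M (TT N m)).comp (LinearMap.mulLeft ℚ (Wt N))) (X ^ ((i : ℕ) + (j : ℕ))) := rfl
  rw [h2, ← h1]
  refine (det_norm_le _ (fun i : Fin (55 * N) => 2000 * N * 2 ^ (72 * N - 3 * (i : ℕ)))
    (fun j : Fin (55 * N) => 2 ^ (72 * N - 3 * (j : ℕ))) (fun i => by positivity)
    (fun i => by positivity) (fun i j => ?_)).trans (le_of_eq ?_)
  · exact Loc2_entry hN hm M i.2 j.2
  · rw [Finset.prod_mul_distrib, Finset.prod_const, Finset.card_univ, Fintype.card_fin,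
      Fin.prod_univ_eq_prod_range (fun i => (2 : ℝ) ^ (72 * N - 3 * i)) (55 * N),
      Finset.prod_pow_eq_pow_sum, mul_assoc, ← pow_add, ← two_mul]

end Pool.TH
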