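import Pool.Agent.Lib.TH.Tools

/-!
# TH.Loc3 (size 170): the prime 3

`padicNorm 3 D ≤ (2000 N)^(55 N) * 3^(2 ∑_{i < 55 N} (2 i + 1 - 91 N))` (truncated subtraction).

PROOF. `det_norm_le` with `a i = 2000 N * 3^(2 i + 1 - 91 N)`, `b j = 3^(2 j + 1 - 91 N)`.
Entry: `f = WZ (912 N + (i+j)) (497 N) (455 N)`, `Lf_map_eq_sum` with `n = 2000 N`, and
`padicNorm_real_sum_le`: one has to show for every `k < 2000 N`
`‖f_k * J(k)‖ ≤ 2000 N * 3^((2 i + 1 - 91 N) + (2 j + 1 - 91 N))`.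
`J(k) = ((M - T) + T / 9^(k+1)) / (k+1)`, `‖1/(k+1)‖ ≤ k + 1 ≤ 2000 N` (see TH.LocS), and
`‖f_k (M - T)‖ ≤ 1` since `M`, `T = 3^(3000 N) / 2^m` have norm `≤ 1`. It remains
`‖f_k T / 9^(k+1)‖ ≤ 3^(...)`. Claim: `9^(k - (912 N + i + j) - 497 N) ∣ f_k` (truncated; exponent
zero when `k` is small): `f = X^A * ((1 - X)^B * (1 - 9 X)^C)`; `coeff_X_pow_mul'`; the coefficient
of `(1 - X)^B (1 - 9 X)^C` at `r` is a sum over `u + v = r` (`coeff_mul`) of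
`((1-X)^B).coeff u * ((1-9X)^C).coeff v`, zero when `u > B` (degree) and
`((1 - 9 X)^C).coeff v` is divisible by `9^v` (it is `C.choose v * (-9)^v`; or: `(1 - 9 X)^C` is
`((1 - X)^C).comp (9 X)`, `comp_C_mul_X_coeff`), and `v = r - u ≥ r - B`. So with
`e = 912 N + i + j + 497 N = 1409 N + i + j`: if `k ≥ e`: `‖f_k T / 9^(k+1)‖ ≤
3^(-2 (k - e)) * 3^(-3000 N) * 3^(2 (k+1)) = 3^(2 e + 2 - 3000 N) = 3^(2 (i + j) + 2 - 182 N)` and
this is `3^((2i + 1 - 91 N) + (2 j + 1 - 91 N))` in integers, `≤` the truncated one. If `k < e`: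
`‖T / 9^(k+1)‖ = 3^(2 (k+1) - 3000 N) ≤ 3^(2 e - 3000 N)`, smaller.
(Work with integer exponents `zpow`, `padicNorm` of `3^n`: `padicNorm.padicNorm_p_zpow` or
`padicNorm.eq_zpow_of_nonzero`, or write everything as natural powers:
`f_k * 3^(3000 N) * 3^x = 3^y * (integer)`.)
-/

namespace Pool.TH

open Polynomial Finset

private instance loc3_fact : Fact (Nat.Prime 3) := ⟨Nat.prime_three⟩

private lemma loc3_pow (q : ℚ) (n : ℕ) :
    (padicNorm 3 (q ^ n) : ℝ) = (padicNorm 3 q : ℝ) ^ n := by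
  induction n with
  | zero => simp
  | succ n ih => rw [pow_succ, padicNorm_real_mul, ih, pow_succ]

private lemma loc3_three (n : ℕ) : (padicNorm 3 ((3 : ℚ) ^ n) : ℝ) = ((3 : ℝ) ^ n)⁻¹ := by
  rw [loc3_pow]
  have h : padicNorm 3 (3 : ℚ) = (3 : ℚ)⁻¹ := by
    have h1 := padicNorm.padicNorm_p (p := 3) (by norm_num)
    simpa using h1
  rw [h, Rat.cast_inv, Rat.cast_ofNat, inv_pow]

private lemma loc3_two (n : ℕ) : (padicNorm 3 ((2 : ℚ) ^ n) : ℝ) = 1 := by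
  rw [loc3_pow]
  have h : padicNorm 3 (2 : ℚ) = 1 := by
    haveI : Fact (Nat.Prime 2) := ⟨Nat.prime_two⟩
    have h1 := padicNorm.padicNorm_of_prime_of_ne (p := 3) (q := 2) (by norm_num)
    simpa using h1
  rw [h, Rat.cast_one, one_pow]

private lemma loc3_int (z : ℤ) : (padicNorm 3 (z : ℚ) : ℝ) ≤ 1 := by
  exact_mod_cast padicNorm.of_int z

private lemma loc3_nat (n : ℕ) (hn : n ≠ 0) : (padicNorm 3 ((n : ℚ)⁻¹) : ℝ) ≤ n := by
  have hn' : (n : ℚ) ≠ 0 := by exact_mod_cast hn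
  have h1 : (padicNorm 3 ((n : ℚ)⁻¹) : ℝ) * (padicNorm 3 (n : ℚ) : ℝ) = 1 := by
    rw [← padicNorm_real_mul, inv_mul_cancel₀ hn']
    simp
  have h2 : (padicNorm 3 (n : ℚ) : ℝ) = ((3 : ℝ) ^ (padicValNat 3 n))⁻¹ := by
    rw [padicNorm.eq_zpow_of_nonzero hn', padicValRat.of_nat, zpow_neg, zpow_natCast]
    push_cast
    rfl
  have h3 : (3 : ℝ) ^ (padicValNat 3 n) ≤ n := by
    have h4 : 3 ^ padicValNat 3 n ∣ n := pow_padicValNat_dvd
    exact_mod_cast Nat.le_of_dvd (Nat.pos_of_ne_zero hn) h4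
  have h5 : (padicNorm 3 ((n : ℚ)⁻¹) : ℝ) = (3 : ℝ) ^ (padicValNat 3 n) := by
    rw [h2] at h1
    have h6 : (0 : ℝ) < (3 : ℝ) ^ (padicValNat 3 n) := by positivity
    exact (mul_inv_eq_one₀ h6.ne').1 h1
  rw [h5]
  exact h3

private lemma loc3_dvd_pow (c v : ℕ) : (9 : ℤ) ^ v ∣ ((1 - 9 * X : ℤ[X]) ^ c).coeff v := by
  have h1 : ((1 - 9 * X : ℤ[X]) ^ c) = ((1 - X : ℤ[X]) ^ c).comp (C 9 * X) := by
    rw [pow_comp, sub_comp, one_comp, X_comp]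
    rfl
  rw [h1, comp_C_mul_X_coeff]
  exact Dvd.intro_left _ rfl

private lemma loc3_dvd (a b c k : ℕ) : (9 : ℤ) ^ (k - (a + b)) ∣ (WZ a b c).coeff k := by
  unfold WZ
  rw [coeff_mul]
  refine Finset.dvd_sum fun x hx => ?_
  rw [HasAntidiagonal.mem_antidiagonal] at hx
  by_cases h : x.1 ≤ a + b
  · refine Dvd.dvd.mul_left ?_ _
    refine (pow_dvd_pow _ ?_).trans (loc3_dvd_pow c x.2)
    omega
  · have h1 : (X ^ a * (1 - X) ^ b : ℤ[X]).natDegree ≤ a + b := by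
      have h2 : (1 - X : ℤ[X]).natDegree ≤ 1 := by compute_degree
      refine natDegree_mul_le.trans (Nat.add_le_add (natDegree_X_pow_le a) ?_)
      exact (natDegree_pow_le.trans (Nat.mul_le_mul_left _ h2)).trans (by rw [mul_one])
    rw [coeff_eq_zero_of_natDegree_lt (lt_of_le_of_lt h1 (not_le.1 h)), zero_mul]
    exact dvd_zero _

private lemma loc3_term {N m : ℕ} (hN : 1 ≤ N) (M : ℤ) (i j k : ℕ) (hk : k < 2000 * N) :
    (padicNorm 3 (((WZ (912 * N + (i + j)) (497 * N) (455 * N)).coeff k : ℚ) *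
      Jm M (TT N m) k) : ℝ) ≤
      (2000 * N : ℝ) * 3 ^ (2 * i + 1 - 91 * N) * 3 ^ (2 * j + 1 - 91 * N) := by
  obtain ⟨z, hz⟩ := loc3_dvd (912 * N + (i + j)) (497 * N) (455 * N) k
  set f : ℤ := (WZ (912 * N + (i + j)) (497 * N) (455 * N)).coeff k with hf
  set s : ℕ := (2 * i + 1 - 91 * N) + (2 * j + 1 - 91 * N) with hs
  have hT : (padicNorm 3 (TT N m) : ℝ) = ((3 : ℝ) ^ (3000 * N))⁻¹ := by
    have h1 : TT N m * 2 ^ m = 3 ^ (3000 * N) := by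
      unfold TT
      field_simp
    have h2 : (padicNorm 3 (TT N m * 2 ^ m) : ℝ) = ((3 : ℝ) ^ (3000 * N))⁻¹ := by
      rw [h1, loc3_three]
    rw [padicNorm_real_mul, loc3_two, mul_one] at h2
    exact h2
  have h3pos : ∀ n : ℕ, (0 : ℝ) < 3 ^ n := fun n => by positivity
  have h3one : ∀ n : ℕ, (1 : ℝ) ≤ 3 ^ n := fun n => one_le_pow₀ (by norm_num)
  -- first part
  have hA : (padicNorm 3 ((f : ℚ) * (M - TT N m)) : ℝ) ≤ 3 ^ s := by
    rw [padicNorm_real_mul]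
    have h1 : (padicNorm 3 ((M : ℚ) - TT N m) : ℝ) ≤ 1 := by
      have h2 : padicNorm 3 ((M : ℚ) - TT N m) ≤ max (padicNorm 3 (M : ℚ)) (padicNorm 3 (TT N m)) :=
        padicNorm.sub
      have h3 : (padicNorm 3 ((M : ℚ) - TT N m) : ℝ) ≤
          max (padicNorm 3 (M : ℚ) : ℝ) (padicNorm 3 (TT N m) : ℝ) := by
        exact_mod_cast h2
      refine h3.trans (max_le (loc3_int M) ?_)
      rw [hT]
      exact inv_le_one_of_one_le₀ (h3one _)
    calc (padicNorm 3 (f : ℚ) : ℝ) * (padicNorm 3 ((M : ℚ) - TT N m) : ℝ) ≤ 1 * 1 :=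
          mul_le_mul (loc3_int f) h1 (padicNorm_real_nonneg _) zero_le_one
      _ = 1 := one_mul 1
      _ ≤ 3 ^ s := h3one s
  -- second part
  have hB : (padicNorm 3 ((f : ℚ) * (TT N m / 9 ^ (k + 1))) : ℝ) ≤ 3 ^ s := by
    have h1 : ((f : ℚ) * (TT N m / 9 ^ (k + 1))) * (3 : ℚ) ^ (2 * (k + 1)) =
        ((z : ℚ) * (3 : ℚ) ^ (2 * (k - (912 * N + (i + j) + 497 * N)))) * TT N m := by
      rw [hz]
      push_cast
      rw [pow_mul (3 : ℚ) 2, pow_mul (3 : ℚ) 2]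
      norm_num
      field_simp
    have h2 : (padicNorm 3 (((f : ℚ) * (TT N m / 9 ^ (k + 1))) * (3 : ℚ) ^ (2 * (k + 1))) : ℝ) =
        (padicNorm 3 (((z : ℚ) * (3 : ℚ) ^ (2 * (k - (912 * N + (i + j) + 497 * N)))) *
          TT N m) : ℝ) := by rw [h1]
    rw [padicNorm_real_mul ((f : ℚ) * (TT N m / 9 ^ (k + 1))) _,
      padicNorm_real_mul ((z : ℚ) * (3 : ℚ) ^ (2 * (k - (912 * N + (i + j) + 497 * N)))) _,
      padicNorm_real_mul (z : ℚ) _, loc3_three, loc3_three, hT] at h2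
    rw [mul_inv_eq_iff_eq_mul₀ (h3pos _).ne'] at h2
    rw [h2]
    have h4 : (padicNorm 3 (z : ℚ) : ℝ) * ((3 : ℝ) ^ (2 * (k - (912 * N + (i + j) + 497 * N))))⁻¹ *
        ((3 : ℝ) ^ (3000 * N))⁻¹ * 3 ^ (2 * (k + 1)) ≤
        1 * ((3 : ℝ) ^ (2 * (k - (912 * N + (i + j) + 497 * N))))⁻¹ *
        ((3 : ℝ) ^ (3000 * N))⁻¹ * 3 ^ (2 * (k + 1)) := by
      have h5 := loc3_int z
      gcongr
    refine h4.trans ?_
    rw [one_mul, ← mul_inv, ← pow_add, inv_mul_le_iff₀ (h3pos _), ← pow_add]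
    refine pow_le_pow_right₀ (by norm_num) ?_
    omega
  have hJ : (f : ℚ) * Jm M (TT N m) k =
      ((f : ℚ) * (M - TT N m) + (f : ℚ) * (TT N m / 9 ^ (k + 1))) * (((k + 1 : ℕ) : ℚ))⁻¹ := by
    unfold Jm
    push_cast
    field_simp
  rw [hJ, padicNorm_real_mul]
  have hsum : (padicNorm 3 ((f : ℚ) * (M - TT N m) + (f : ℚ) * (TT N m / 9 ^ (k + 1))) : ℝ) ≤
      3 ^ s := by
    have h2 : padicNorm 3 ((f : ℚ) * (M - TT N m) + (f : ℚ) * (TT N m / 9 ^ (k + 1))) ≤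
        max (padicNorm 3 ((f : ℚ) * (M - TT N m))) (padicNorm 3 ((f : ℚ) * (TT N m / 9 ^ (k + 1)))) :=
      padicNorm.nonarchimedean
    have h3 : (padicNorm 3 ((f : ℚ) * (M - TT N m) + (f : ℚ) * (TT N m / 9 ^ (k + 1))) : ℝ) ≤
        max (padicNorm 3 ((f : ℚ) * (M - TT N m)) : ℝ)
          (padicNorm 3 ((f : ℚ) * (TT N m / 9 ^ (k + 1))) : ℝ) := by
      exact_mod_cast h2
    exact h3.trans (max_le hA hB)
  have hinv := loc3_nat (k + 1) (Nat.succ_ne_zero k)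
  have hk1 : (((k + 1 : ℕ) : ℝ)) ≤ 2000 * N := by
    exact_mod_cast hk
  calc (padicNorm 3 ((f : ℚ) * (M - TT N m) + (f : ℚ) * (TT N m / 9 ^ (k + 1))) : ℝ) *
        (padicNorm 3 (((k + 1 : ℕ) : ℚ))⁻¹ : ℝ) ≤ 3 ^ s * (2000 * N) :=
        mul_le_mul hsum (hinv.trans hk1) (padicNorm_real_nonneg _) (h3pos s).le
    _ = (2000 * N : ℝ) * 3 ^ (2 * i + 1 - 91 * N) * 3 ^ (2 * j + 1 - 91 * N) := by
        rw [hs, pow_add]; ring

theorem norm_three {N m : ℕ} (hN : 1 ≤ N) (M : ℤ) :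
    (padicNorm 3 (Dm M (TT N m) N).det : ℝ) ≤
      (2000 * N : ℝ) ^ (55 * N) * 3 ^ (2 * ∑ i ∈ range (55 * N), (2 * i + 1 - 91 * N)) := by
  have hmain := det_norm_le (p := 3) (Dm M (TT N m) N)
    (fun i => (2000 * N : ℝ) * 3 ^ (2 * (i : ℕ) + 1 - 91 * N))
    (fun j => 3 ^ (2 * (j : ℕ) + 1 - 91 * N)) (fun i => by positivity) (fun j => by positivity)
    (fun i j => by
      have h1 : (Dm M (TT N m) N) i j =
          Lf M (TT N m) ((WZ (912 * N + ((i : ℕ) + (j : ℕ))) (497 * N) (455 * N)).map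
            (Int.castRingHom ℚ)) := by
        have h2 : (Dm M (TT N m) N) i j = Lf M (TT N m) (Wt N * X ^ ((i : ℕ) + (j : ℕ))) := rfl
        rw [h2, WZ_map]
        congr 1
        unfold Wt
        rw [pow_add]
        ring
      rw [h1, Lf_map_eq_sum _ _ _ (2000 * N)]
      · refine padicNorm_real_sum_le (by positivity) fun k hk => ?_
        exact loc3_term hN M i j k (mem_range.1 hk)
      · refine lt_of_le_of_lt (natDegree_WZ_le _ _ _) ?_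
        have hi := i.2
        have hj := j.2
        omega)
  refine hmain.trans (le_of_eq ?_)
  rw [prod_mul_distrib, prod_const, card_univ, Fintype.card_fin, prod_pow_eq_pow_sum,
    Fin.sum_univ_eq_sum_range (fun i => 2 * i + 1 - 91 * N) (55 * N), mul_assoc, ← pow_add,
    ← two_mul]

end Pool.TH
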