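import Pool.Agent.Lib.TH.Coef
import Pool.Agent.Lib.TH.DetB

/-!
# TH.LocP (size 220): primes `p ≥ 5` with `p^2 > 2000 N`

`T = 3^(3000 N) / 2^m`, `M` an integer, `D = det (Dm M T N)`.

(0) `norm_J`: for `p ≥ 5` and `k + 1 < p^2`: `padicNorm p (Jm M T k) ≤ p`, and `≤ 1` if `p ∤ k + 1`.
PROOF: `M`, `T`, `T / 9^(k+1)` have norm `≤ 1` (`padicNorm p 2 = padicNorm p 3 = 1` because
`p ≠ 2, 3`: `padicNorm.padicNorm_of_prime_of_ne` or `padicNorm.nat_eq_one_iff`), so the numerator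
has norm `≤ 1`; the norm of the natural number `k + 1 < p^2` is `1` when `p ∤ k + 1` and `≥ p^(-1)`
otherwise (`padicNorm.nat_eq_one_iff`; if `p ∣ k+1`, `k + 1 = p t` with `0 < t < p`, so
`padicNorm p (k+1) = p^(-1) * padicNorm p t = p^(-1)`).

(1) `norm_good`. Let `912 N + s1 = p a + r1`, `497 N + s2 = p b + r2`, `455 N + s3 = p c + r3`,
`s1 + s2 + s3 + g ≤ 55 N`, `g + 55 N + (r1 + r2 + r3) ≤ p`. Then `padicNorm p D ≤ p^(55 N - g)`.
PROOF. `s = s1 + s2 + s3`, `D0 = WZ s1 s2 s3` (integer polynomial of degree `s`, coefficient at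
`X^s` equal to `(-1)^s2 * (-9)^s3`, a `p`-adic unit `u`). Basis: `g_i = X^i` for `i < s` and for
`i ≥ s + g`, `g_i = D0 * X^(i - s)` for `s ≤ i < s + g` (mapped to `ℚ[X]`). By `det_one` with
`ℓ f = Lf M T (Wt N * f)` (`(Lf M T).comp (LinearMap.mulLeft ℚ (Wt N))`) the determinant of
`ℓ (g_i X^j)` is `u^g * D`, of the same norm as `D`. Every entry has norm `≤ p`: the polynomial
`Wt N * g_i * X^j` has integer coefficients and degree `< 2000 N`, use `Lf_map_eq_sum`, (0) and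
`padicNorm_real_sum_le`. In a good row `s ≤ i < s + g` the polynomial is
`WZ (912 N + s1 + (i - s) + j) (497 N + s2) (455 N + s3) =
 WZ (p a + (r1 + (i - s) + j)) (p b + r2) (p c + r3)` (`WZ_mul`, `X_pow_eq_WZ`) and
`r1 + (i - s) + j + r2 + r3 + 2 ≤ (g - 1) + (55 N - 1) + (r1 + r2 + r3) + 2 ≤ p`; so by `coef_dvd`
the coefficient at `k` with `p ∣ k + 1` is divisible by `p` (norm `≤ p^(-1)`) and the term has norm
`≤ 1`; for `p ∤ k + 1` the term has norm `≤ 1` by (0). Now `det_norm_rows` with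
`bad = {i | ¬ (s ≤ i ∧ i < s + g)}` of cardinality `55 N - g` (or at most that: the filter of the
good ones has at least `g` elements).

(2) `norm_p`: the case of no good rows, `padicNorm p D ≤ p^(55 N)` (all entries have norm `≤ p`,
`det_norm_rows` with `bad = univ`).

(3) `norm_big`: for `1974 N ≤ p` take `a = b = c = 0`, `s = 0`, `g = 55 N`: `padicNorm p D ≤ 1`.
-/

namespace Pool.TH

open Polynomial Finset

private theorem LocP_nat_one {p : ℕ} [hp : Fact p.Prime] {n : ℕ} (h : ¬ p ∣ n) :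
    padicNorm p (n : ℚ) = 1 := (padicNorm.nat_eq_one_iff n).2 h

private theorem LocP_pow_one {p : ℕ} [hp : Fact p.Prime] {q : ℚ} (h : padicNorm p q = 1) (n : ℕ) :
    padicNorm p (q ^ n) = 1 := by
  induction n with
  | zero => rw [pow_zero]; exact padicNorm.one
  | succ n ih => rw [pow_succ, padicNorm.mul, ih, h, mul_one]

private theorem LocP_two {p : ℕ} [hp : Fact p.Prime] (h5 : 5 ≤ p) : padicNorm p (2 : ℚ) = 1 := by
  have h := LocP_nat_one (p := p) (n := 2) (fun hd => by have := Nat.le_of_dvd (by norm_num) hd; omega)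
  exact_mod_cast h

private theorem LocP_three {p : ℕ} [hp : Fact p.Prime] (h5 : 5 ≤ p) : padicNorm p (3 : ℚ) = 1 := by
  have h := LocP_nat_one (p := p) (n := 3) (fun hd => by have := Nat.le_of_dvd (by norm_num) hd; omega)
  exact_mod_cast h

private theorem LocP_nine {p : ℕ} [hp : Fact p.Prime] (h5 : 5 ≤ p) : padicNorm p (9 : ℚ) = 1 := by
  have h : (9 : ℚ) = 3 ^ 2 := by norm_num
  rw [h]
  exact LocP_pow_one (LocP_three h5) 2

private theorem LocP_num {p : ℕ} [hp : Fact p.Prime] (h5 : 5 ≤ p) (N m : ℕ) (M : ℤ) (k : ℕ) :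
    padicNorm p ((M : ℚ) - TT N m + TT N m / 9 ^ (k + 1)) ≤ 1 := by
  have hT : padicNorm p (TT N m) = 1 := by
    unfold TT
    rw [padicNorm.div, LocP_pow_one (LocP_three h5), LocP_pow_one (LocP_two h5), div_one]
  have h1 : padicNorm p (TT N m / 9 ^ (k + 1)) = 1 := by
    rw [padicNorm.div, hT, LocP_pow_one (LocP_nine h5), div_one]
  have h2 : padicNorm p ((M : ℚ) - TT N m) ≤ 1 :=
    padicNorm.sub.trans (max_le (padicNorm.of_int M) hT.le)
  exact padicNorm.nonarchimedean.trans (max_le h2 h1.le)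

private theorem LocP_J1 {p : ℕ} [hp : Fact p.Prime] (h5 : 5 ≤ p) (N m : ℕ) (M : ℤ) (k : ℕ)
    (hk : ¬ p ∣ k + 1) : (padicNorm p (Jm M (TT N m) k) : ℝ) ≤ 1 := by
  have h1 : padicNorm p ((k : ℚ) + 1) = 1 := by
    have := LocP_nat_one (p := p) hk
    push_cast at this
    exact this
  have h2 : padicNorm p (Jm M (TT N m) k) ≤ 1 := by
    unfold Jm
    rw [padicNorm.div, h1, div_one]
    exact LocP_num h5 N m M k
  exact_mod_cast h2

private theorem LocP_Jp {p : ℕ} [hp : Fact p.Prime] (h5 : 5 ≤ p) (N m : ℕ) (M : ℤ) (k : ℕ)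
    (hk : k + 1 < p ^ 2) : (padicNorm p (Jm M (TT N m) k) : ℝ) ≤ p := by
  by_cases hd : p ∣ k + 1
  · obtain ⟨t, ht⟩ := hd
    have hp0 : 0 < p := hp.out.pos
    have ht0 : 0 < t := by
      rcases Nat.eq_zero_or_pos t with h | h
      · rw [h, mul_zero] at ht
        omega
      · exact h
    have htp : t < p := by
      by_contra hc
      have h1 : p * p ≤ p * t := Nat.mul_le_mul_left p (not_lt.1 hc)
      rw [sq] at hk
      omega
    have h1 : padicNorm p ((k : ℚ) + 1) = (p : ℚ)⁻¹ := by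
      have h2 : ((k : ℚ) + 1) = (p : ℚ) * (t : ℚ) := by exact_mod_cast ht
      rw [h2, padicNorm.mul, padicNorm.padicNorm_p_of_prime,
        LocP_nat_one (p := p) (n := t) (fun hd => by have := Nat.le_of_dvd ht0 hd; omega), mul_one]
    have h2 : padicNorm p (Jm M (TT N m) k) ≤ p := by
      unfold Jm
      rw [padicNorm.div, h1, div_inv_eq_mul]
      have h3 := LocP_num h5 N m M k
      have hp0' : (0 : ℚ) ≤ p := by positivity
      calc _ ≤ 1 * (p : ℚ) := mul_le_mul_of_nonneg_right h3 hp0'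
        _ = p := one_mul _
    exact_mod_cast h2
  · refine (LocP_J1 h5 N m M k hd).trans ?_
    exact_mod_cast hp.out.one_lt.le

private theorem LocP_int {p : ℕ} [hp : Fact p.Prime] (z : ℤ) : (padicNorm p (z : ℚ) : ℝ) ≤ 1 := by
  exact_mod_cast padicNorm.of_int z

private theorem LocP_dvd {p : ℕ} [hp : Fact p.Prime] {z : ℤ} (h : (p : ℤ) ∣ z) :
    (padicNorm p (z : ℚ) : ℝ) * p ≤ 1 := by
  obtain ⟨w, rfl⟩ := h
  have hp0 : (0 : ℝ) < p := by exact_mod_cast hp.out.pos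
  rw [Int.cast_mul, padicNorm_real_mul, Int.cast_natCast, padicNorm.padicNorm_p_of_prime]
  push_cast
  have h1 := LocP_int (p := p) w
  rw [mul_comm, ← mul_assoc, mul_inv_cancel₀ hp0.ne', one_mul]
  exact h1

/-- all entries have norm at most `p` -/
private theorem LocP_entry {p : ℕ} [hp : Fact p.Prime] (h5 : 5 ≤ p) {N m : ℕ}
    (hpN : 2000 * N < p ^ 2) (M : ℤ) (f : ℤ[X]) (hf : f.natDegree < 2000 * N) :
    (padicNorm p (Lf M (TT N m) (f.map (Int.castRingHom ℚ))) : ℝ) ≤ p := by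
  rw [Lf_map_eq_sum _ _ f _ hf]
  refine padicNorm_real_sum_le (Nat.cast_nonneg p) fun k hk => ?_
  rw [Finset.mem_range] at hk
  rw [padicNorm_real_mul]
  have h1 := LocP_int (p := p) (f.coeff k)
  have h2 := LocP_Jp (p := p) h5 N m M k (by omega)
  calc _ ≤ 1 * (p : ℝ) := mul_le_mul h1 h2 (padicNorm_real_nonneg _) zero_le_one
    _ = p := one_mul _

/-- the entries of the good rows have norm at most `1` -/
private theorem LocP_good {p : ℕ} [hp : Fact p.Prime] (h5 : 5 ≤ p) {N m : ℕ}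
    (hpN : 2000 * N < p ^ 2) (M : ℤ) {a b c r1 r2 r3 : ℕ} (h : r1 + r2 + r3 + 2 ≤ p)
    (hf : (WZ (p * a + r1) (p * b + r2) (p * c + r3)).natDegree < 2000 * N) :
    (padicNorm p (Lf M (TT N m)
      ((WZ (p * a + r1) (p * b + r2) (p * c + r3)).map (Int.castRingHom ℚ))) : ℝ) ≤ 1 := by
  rw [Lf_map_eq_sum _ _ _ _ hf]
  refine padicNorm_real_sum_le zero_le_one fun k hk => ?_
  rw [Finset.mem_range] at hk
  rw [padicNorm_real_mul]
  by_cases hd : p ∣ k + 1
  · have hd' := hd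
    obtain ⟨l, hl⟩ := hd'
    have hl1 : 1 ≤ l := by
      rcases Nat.eq_zero_or_pos l with h0 | h0
      · rw [h0, mul_zero] at hl
        omega
      · exact h0
    have hk1 : k = p * l - 1 := by omega
    have h1 := LocP_dvd (coef_dvd (a := a) (b := b) (c := c) h hl1)
    rw [← hk1] at h1
    have h2 := LocP_Jp (p := p) h5 N m M k (by omega)
    exact (mul_le_mul_of_nonneg_left h2 (padicNorm_real_nonneg _)).trans h1
  · have h1 := LocP_int (p := p) ((WZ (p * a + r1) (p * b + r2) (p * c + r3)).coeff k)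
    have h2 := LocP_J1 (p := p) h5 N m M k hd
    calc _ ≤ (1 : ℝ) * 1 := mul_le_mul h1 h2 (padicNorm_real_nonneg _) zero_le_one
      _ = 1 := one_mul _

private theorem LocP_lead (s1 s2 s3 : ℕ) :
    (WZ s1 s2 s3).coeff (s1 + s2 + s3) = (-1) ^ s2 * (-9) ^ s3 := by
  unfold WZ
  have h1 : (1 - X : ℤ[X]).natDegree ≤ 1 := by compute_degree
  have h2 : (1 - 9 * X : ℤ[X]).natDegree ≤ 1 := by compute_degree
  have d1 : ((1 - X : ℤ[X]) ^ s2).natDegree ≤ s2 :=
    (natDegree_pow_le.trans (Nat.mul_le_mul_left _ h1)).trans (by rw [mul_one])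
  have d2 : ((1 - 9 * X : ℤ[X]) ^ s3).natDegree ≤ s3 :=
    (natDegree_pow_le.trans (Nat.mul_le_mul_left _ h2)).trans (by rw [mul_one])
  have d3 : ((X : ℤ[X]) ^ s1).natDegree ≤ s1 := natDegree_X_pow_le s1
  have d4 : ((X : ℤ[X]) ^ s1 * (1 - X : ℤ[X]) ^ s2).natDegree ≤ s1 + s2 :=
    natDegree_mul_le.trans (Nat.add_le_add d3 d1)
  have c1 : ((1 - X : ℤ[X]) ^ s2).coeff s2 = (-1) ^ s2 := by
    have h3 := coeff_pow_of_natDegree_le (m := s2) h1
    rw [mul_one] at h3
    rw [h3, coeff_sub, coeff_one, coeff_X_one, if_neg (by norm_num), zero_sub]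
  have c2 : ((1 - 9 * X : ℤ[X]) ^ s3).coeff s3 = (-9) ^ s3 := by
    have h3 := coeff_pow_of_natDegree_le (m := s3) h2
    rw [mul_one] at h3
    have h4 : (1 - 9 * X : ℤ[X]).coeff 1 = -9 := by
      have h5 : (9 : ℤ[X]) = C 9 := rfl
      rw [h5, coeff_sub, coeff_one, coeff_C_mul, coeff_X_one, if_neg (by norm_num), zero_sub,
        mul_one]
    rw [h3, h4]
  rw [coeff_mul_add_eq_of_natDegree_le d4 d2, coeff_mul_add_eq_of_natDegree_le d3 d1, c1, c2, coeff_X_pow_self,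
    one_mul]

/-- the new basis -/
private noncomputable def LocP_gz (s1 s2 s3 g i : ℕ) : ℤ[X] :=
  if s1 + s2 + s3 ≤ i ∧ i < s1 + s2 + s3 + g then WZ s1 s2 s3 * X ^ (i - (s1 + s2 + s3)) else X ^ i

private theorem LocP_gz_deg (s1 s2 s3 g i : ℕ) : (LocP_gz s1 s2 s3 g i).natDegree ≤ i := by
  unfold LocP_gz
  split_ifs with h
  · refine natDegree_mul_le.trans ?_
    have h1 := natDegree_WZ_le s1 s2 s3
    have h2 : ((X : ℤ[X]) ^ (i - (s1 + s2 + s3))).natDegree ≤ i - (s1 + s2 + s3) :=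
      natDegree_X_pow_le _
    omega
  · exact natDegree_X_pow_le i

private theorem LocP_gz_coeff {p : ℕ} [hp : Fact p.Prime] (h5 : 5 ≤ p) (s1 s2 s3 g i : ℕ) :
    padicNorm p (((LocP_gz s1 s2 s3 g i).coeff i : ℤ) : ℚ) = 1 := by
  unfold LocP_gz
  split_ifs with h
  · have h1 : (WZ s1 s2 s3 * X ^ (i - (s1 + s2 + s3))).coeff i = (-1) ^ s2 * (-9) ^ s3 := by
      rw [← LocP_lead s1 s2 s3, coeff_mul_X_pow', if_pos (Nat.sub_le _ _), Nat.sub_sub_self h.1]
    rw [h1]
    push_cast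
    rw [padicNorm.mul, LocP_pow_one (q := -1) (by rw [padicNorm.neg]; exact padicNorm.one),
      LocP_pow_one (q := -9) (by rw [padicNorm.neg]; exact LocP_nine h5), one_mul]
  · rw [coeff_X_pow_self, Int.cast_one]
    exact padicNorm.one

theorem norm_good {p : ℕ} [hp : Fact p.Prime] (h5 : 5 ≤ p) {N m : ℕ} (hN : 1 ≤ N)
    (hpN : 2000 * N < p ^ 2) (M : ℤ) {a b c s1 s2 s3 r1 r2 r3 g : ℕ}
    (h1 : 912 * N + s1 = p * a + r1) (h2 : 497 * N + s2 = p * b + r2)
    (h3 : 455 * N + s3 = p * c + r3) (h4 : s1 + s2 + s3 + g ≤ 55 * N)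
    (h6 : g + 55 * N + (r1 + r2 + r3) ≤ p) :
    (padicNorm p (Dm M (TT N m) N).det : ℝ) ≤ (p : ℝ) ^ (55 * N - g) := by
  classical
  obtain ⟨ℓ, hℓ⟩ : ∃ ℓ : ℚ[X] →ₗ[ℚ] ℚ, ∀ f, ℓ f = Lf M (TT N m) (Wt N * f) :=
    ⟨(Lf M (TT N m)).comp (LinearMap.mulLeft ℚ (Wt N)), fun f => rfl⟩
  have hdet := det_one (K := 55 * N) ℓ
    (fun i => (LocP_gz s1 s2 s3 g i).map (Int.castRingHom ℚ))
    (fun i _ => natDegree_map_le.trans (LocP_gz_deg s1 s2 s3 g i))
  have hD : (Matrix.of fun i j : Fin (55 * N) => ℓ (X ^ ((i : ℕ) + (j : ℕ)))) =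
      Dm M (TT N m) N := by
    ext i j
    rw [Matrix.of_apply, hℓ]
    rfl
  rw [hD] at hdet
  have hu : (padicNorm p (∏ i : Fin (55 * N),
      ((LocP_gz s1 s2 s3 g i).map (Int.castRingHom ℚ)).coeff i) : ℝ) = 1 := by
    rw [padicNorm_prod]
    refine Finset.prod_eq_one fun i _ => ?_
    rw [coeff_map]
    have h7 := LocP_gz_coeff (p := p) h5 s1 s2 s3 g i
    have h8 : (Int.castRingHom ℚ) ((LocP_gz s1 s2 s3 g i).coeff i) =
        (((LocP_gz s1 s2 s3 g i).coeff i : ℤ) : ℚ) := rfl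
    rw [h8, h7]
    norm_num
  have hnorm : (padicNorm p (Dm M (TT N m) N).det : ℝ) = (padicNorm p (Matrix.of
      fun i j : Fin (55 * N) => ℓ ((LocP_gz s1 s2 s3 g i).map (Int.castRingHom ℚ) *
        X ^ (j : ℕ))).det : ℝ) := by
    rw [hdet, padicNorm_real_mul, hu, one_mul]
  rw [hnorm]
  have hentry : ∀ i j : Fin (55 * N), ℓ ((LocP_gz s1 s2 s3 g i).map (Int.castRingHom ℚ) *
      X ^ (j : ℕ)) = Lf M (TT N m) ((WZ (912 * N) (497 * N) (455 * N) *
        (LocP_gz s1 s2 s3 g i * X ^ (j : ℕ))).map (Int.castRingHom ℚ)) := by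
    intro i j
    rw [hℓ, Wt_eq, Polynomial.map_mul, Polynomial.map_mul, Polynomial.map_pow, map_X]
  have hdeg : ∀ i j : Fin (55 * N), (WZ (912 * N) (497 * N) (455 * N) *
        (LocP_gz s1 s2 s3 g i * X ^ (j : ℕ))).natDegree < 2000 * N := by
    intro i j
    have h7 := natDegree_WZ_le (912 * N) (497 * N) (455 * N)
    have h8 := LocP_gz_deg s1 s2 s3 g i
    have h9 : ((X : ℤ[X]) ^ (j : ℕ)).natDegree ≤ j := natDegree_X_pow_le _
    have h10 := natDegree_mul_le (p := LocP_gz s1 s2 s3 g i) (q := (X : ℤ[X]) ^ (j : ℕ))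
    have h11 := natDegree_mul_le (p := WZ (912 * N) (497 * N) (455 * N))
      (q := LocP_gz s1 s2 s3 g i * X ^ (j : ℕ))
    have h12 := i.2
    have h13 := j.2
    omega
  refine (det_norm_rows _ (Finset.univ.filter fun i : Fin (55 * N) =>
    ¬ (s1 + s2 + s3 ≤ (i : ℕ) ∧ (i : ℕ) < s1 + s2 + s3 + g)) ?_ ?_).trans ?_
  · intro i j
    rw [Matrix.of_apply, hentry]
    exact LocP_entry h5 hpN M _ (hdeg i j)
  · intro i hi j
    rw [Finset.mem_filter, not_and, not_not] at hi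
    have hi' := hi (Finset.mem_univ i)
    rw [Matrix.of_apply, hentry]
    have hgz : LocP_gz s1 s2 s3 g i = WZ s1 s2 s3 * X ^ ((i : ℕ) - (s1 + s2 + s3)) := by
      unfold LocP_gz
      rw [if_pos hi']
    have hdg := hdeg i j
    have hpoly : WZ (912 * N) (497 * N) (455 * N) * (LocP_gz s1 s2 s3 g i * X ^ (j : ℕ)) =
        WZ (p * a + (r1 + ((i : ℕ) - (s1 + s2 + s3)) + j)) (p * b + r2) (p * c + r3) := by
      rw [hgz, X_pow_eq_WZ, X_pow_eq_WZ, WZ_mul, WZ_mul, WZ_mul]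
      have q1 : 912 * N + (s1 + ((i : ℕ) - (s1 + s2 + s3)) + j) =
          p * a + (r1 + ((i : ℕ) - (s1 + s2 + s3)) + j) := by omega
      have q2 : 497 * N + (s2 + 0 + 0) = p * b + r2 := by omega
      have q3 : 455 * N + (s3 + 0 + 0) = p * c + r3 := by omega
      rw [q1, q2, q3]
    rw [hpoly] at hdg ⊢
    have h12 := j.2
    refine LocP_good h5 hpN M ?_ hdg
    omega
  · have hp1 : (1 : ℝ) ≤ p := by exact_mod_cast hp.out.one_lt.le
    refine pow_le_pow_right₀ hp1 ?_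
    have hcard := Finset.card_filter_add_card_filter_not (s := (Finset.univ : Finset (Fin (55 * N))))
      (fun i : Fin (55 * N) => s1 + s2 + s3 ≤ (i : ℕ) ∧ (i : ℕ) < s1 + s2 + s3 + g)
    rw [Finset.card_univ, Fintype.card_fin] at hcard
    have hg : g ≤ (Finset.univ.filter fun i : Fin (55 * N) =>
        s1 + s2 + s3 ≤ (i : ℕ) ∧ (i : ℕ) < s1 + s2 + s3 + g).card := by
      have h7 : (Finset.range g).card ≤ (Finset.univ.filter fun i : Fin (55 * N) =>
          s1 + s2 + s3 ≤ (i : ℕ) ∧ (i : ℕ) < s1 + s2 + s3 + g).card := by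
        refine Finset.card_le_card_of_injOn
          (fun x => if h : s1 + s2 + s3 + x < 55 * N then (⟨s1 + s2 + s3 + x, h⟩ : Fin (55 * N))
            else ⟨0, by omega⟩) ?_ ?_
        · intro x hx
          rw [Finset.mem_coe, Finset.mem_range] at hx
          have hx' : s1 + s2 + s3 + x < 55 * N := by omega
          rw [Finset.mem_coe, Finset.mem_filter]
          refine ⟨Finset.mem_univ _, ?_⟩
          simp only [hx', dif_pos]
          constructor
          · omega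
          · omega
        · intro x hx y hy hxy
          rw [Finset.mem_coe, Finset.mem_range] at hx hy
          have hx' : s1 + s2 + s3 + x < 55 * N := by omega
          have hy' : s1 + s2 + s3 + y < 55 * N := by omega
          simp only [hx', hy', dif_pos, Fin.mk.injEq] at hxy
          omega
      rwa [Finset.card_range] at h7
    omega

theorem norm_p {p : ℕ} [hp : Fact p.Prime] (h5 : 5 ≤ p) {N m : ℕ} (hN : 1 ≤ N)
    (hpN : 2000 * N < p ^ 2) (M : ℤ) :
    (padicNorm p (Dm M (TT N m) N).det : ℝ) ≤ (p : ℝ) ^ (55 * N) := by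
  have hp1 := hp.out.one_lt
  have h1 := det_norm_rows (p := p) (Dm M (TT N m) N) Finset.univ (fun i j => by
    have h2 : Dm M (TT N m) N i j = Lf M (TT N m) ((WZ (912 * N) (497 * N) (455 * N) *
        X ^ ((i : ℕ) + (j : ℕ))).map (Int.castRingHom ℚ)) := by
      rw [Polynomial.map_mul, Polynomial.map_pow, map_X, ← Wt_eq]
      rfl
    rw [h2]
    refine LocP_entry h5 hpN M _ ?_
    have h7 := natDegree_WZ_le (912 * N) (497 * N) (455 * N)
    have h9 : ((X : ℤ[X]) ^ ((i : ℕ) + (j : ℕ))).natDegree ≤ (i : ℕ) + j := natDegree_X_pow_le _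
    have h11 := natDegree_mul_le (p := WZ (912 * N) (497 * N) (455 * N))
      (q := (X : ℤ[X]) ^ ((i : ℕ) + (j : ℕ)))
    have h12 := i.2
    have h13 := j.2
    omega) (fun i hi => absurd (Finset.mem_univ i) hi)
  rw [Finset.card_univ, Fintype.card_fin] at h1
  exact h1

theorem norm_big {p : ℕ} [hp : Fact p.Prime] {N m : ℕ} (hN : 1 ≤ N)
    (hpN : 1974 * N ≤ p) (M : ℤ) :
    (padicNorm p (Dm M (TT N m) N).det : ℝ) ≤ 1 := by
  have h5 : 5 ≤ p := by omega
  have hpN2 : 2000 * N < p ^ 2 := by nlinarith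
  have h := norm_good (p := p) (a := 0) (b := 0) (c := 0) (s1 := 0) (s2 := 0) (s3 := 0)
    (r1 := 912 * N) (r2 := 497 * N) (r3 := 455 * N) (g := 55 * N) (m := m) h5 hN hpN2 M
    (by omega) (by omega) (by omega) (by omega) (by omega)
  rw [Nat.sub_self, pow_zero] at h
  exact h

end Pool.TH
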