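import Pool.Agent.Lib.TH.Tools

/-!
# TH.LocS (size 90): the crude bound for small primes `p ≥ 5`

`padicNorm p D ≤ (2000 N)^(55 N)` for every prime `p ≥ 5`.

PROOF. `det_norm_le` with `a i = 2000 N`, `b j = 1`. Entry: `Wt N * X^(i+j)` is the image of
`WZ (912 N + (i+j)) (497 N) (455 N)` (`Wt_eq`, `WZ_mul`, `X_pow_eq_WZ`), of degree
`≤ 1864 N + i + j < 2000 N`; `Lf_map_eq_sum` and `padicNorm_real_sum_le`: the coefficient is an
integer (norm `≤ 1`, `padicNorm.of_int`), and `padicNorm p (Jm M T k) ≤ k + 1 ≤ 2000 N`: the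
numerator `M - T + T / 9^(k+1)` has norm `≤ 1` (`p ≠ 2, 3`), the norm of the natural number `k + 1`
is at least `1 / (k + 1)`: `padicNorm p n = p^(-v)` with `p^v ∣ n`, so `p^v ≤ n`
(`padicNorm.eq_zpow_of_nonzero`, `pow_padicValNat_dvd`, `Nat.le_of_dvd`).
-/

namespace Pool.TH

open Polynomial Finset

private theorem locs_unit {p : ℕ} [hp : Fact p.Prime] (h5 : 5 ≤ p) {a : ℕ} (ha : a.Prime)
    (ha5 : a < 5) (k : ℕ) : padicNorm p ((a : ℚ) ^ k) = 1 := by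
  have h1 : ((a : ℚ) ^ k) = ((a ^ k : ℕ) : ℚ) := by push_cast; rfl
  rw [h1, padicNorm.nat_eq_one_iff]
  intro h
  have h2 := hp.out.dvd_of_dvd_pow h
  have h3 := (Nat.prime_dvd_prime_iff_eq hp.out ha).1 h2
  omega

private theorem locs_T {p : ℕ} [hp : Fact p.Prime] (h5 : 5 ≤ p) (N m : ℕ) :
    padicNorm p (TT N m) = 1 := by
  have h3 := locs_unit h5 Nat.prime_three (by norm_num) (3000 * N)
  have h2 := locs_unit h5 Nat.prime_two (by norm_num) m
  unfold TT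
  push_cast at h3 h2
  rw [padicNorm.div, h3, h2, div_one]

private theorem locs_T9 {p : ℕ} [hp : Fact p.Prime] (h5 : 5 ≤ p) (N m k : ℕ) :
    padicNorm p (TT N m / 9 ^ (k + 1)) = 1 := by
  have h3 := locs_unit h5 Nat.prime_three (by norm_num) (2 * (k + 1))
  push_cast at h3
  have h4 : (3 : ℚ) ^ (2 * (k + 1)) = 9 ^ (k + 1) := by
    rw [pow_mul]
    norm_num
  rw [h4] at h3
  rw [padicNorm.div, locs_T h5, h3, div_one]

private theorem locs_num {p : ℕ} [hp : Fact p.Prime] (h5 : 5 ≤ p) (M : ℤ) (N m k : ℕ) :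
    padicNorm p ((M : ℚ) - TT N m + TT N m / 9 ^ (k + 1)) ≤ 1 := by
  refine padicNorm.nonarchimedean.trans (max_le ?_ (locs_T9 h5 N m k).le)
  rw [sub_eq_add_neg]
  refine padicNorm.nonarchimedean.trans (max_le (padicNorm.of_int M) ?_)
  rw [padicNorm.neg]
  exact (locs_T h5 N m).le

private theorem locs_inv {p : ℕ} [hp : Fact p.Prime] (k : ℕ) :
    (padicNorm p (((k + 1 : ℕ)) : ℚ))⁻¹ ≤ ((k + 1 : ℕ) : ℚ) := by
  have h0 : (((k + 1 : ℕ)) : ℚ) ≠ 0 := by positivity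
  rw [padicNorm.eq_zpow_of_nonzero h0, padicValRat.of_nat, zpow_neg, inv_inv, zpow_natCast]
  have h1 : p ^ padicValNat p (k + 1) ≤ k + 1 := Nat.le_of_dvd (Nat.succ_pos k) pow_padicValNat_dvd
  exact_mod_cast h1

private theorem locs_J {p : ℕ} [hp : Fact p.Prime] (h5 : 5 ≤ p) (M : ℤ) (N m k : ℕ) :
    padicNorm p (Jm M (TT N m) k) ≤ ((k + 1 : ℕ) : ℚ) := by
  unfold Jm
  have h1 := locs_num h5 M N m k
  have h2 := locs_inv (p := p) k
  have h3 : ((k : ℚ) + 1) = ((k + 1 : ℕ) : ℚ) := by push_cast; rfl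
  rw [h3, padicNorm.div, div_eq_mul_inv]
  have h4 : 0 ≤ (padicNorm p (((k + 1 : ℕ)) : ℚ))⁻¹ := inv_nonneg.2 (padicNorm.nonneg _)
  calc padicNorm p ((M : ℚ) - TT N m + TT N m / 9 ^ (k + 1)) *
        (padicNorm p (((k + 1 : ℕ)) : ℚ))⁻¹ ≤ 1 * (padicNorm p (((k + 1 : ℕ)) : ℚ))⁻¹ :=
        mul_le_mul_of_nonneg_right h1 h4
    _ = (padicNorm p (((k + 1 : ℕ)) : ℚ))⁻¹ := one_mul _
    _ ≤ _ := h2

private theorem locs_entry {p : ℕ} [hp : Fact p.Prime] (h5 : 5 ≤ p) {N m : ℕ} (M : ℤ)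
    (i j : Fin (55 * N)) :
    (padicNorm p (Dm M (TT N m) N i j) : ℝ) ≤ (2000 * N : ℝ) := by
  have h1 : Dm M (TT N m) N i j = Lf M (TT N m) (Wt N * X ^ ((i : ℕ) + (j : ℕ))) := rfl
  have h2 : Wt N * X ^ ((i : ℕ) + (j : ℕ)) =
      (WZ (912 * N + ((i : ℕ) + (j : ℕ))) (497 * N + 0) (455 * N + 0)).map
        (Int.castRingHom ℚ) := by
    rw [← WZ_mul, ← X_pow_eq_WZ, Polynomial.map_mul, ← Wt_eq, Polynomial.map_pow,
      Polynomial.map_X]
  have hdeg : (WZ (912 * N + ((i : ℕ) + (j : ℕ))) (497 * N + 0) (455 * N + 0)).natDegree <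
      2000 * N := by
    have h3 := natDegree_WZ_le (912 * N + ((i : ℕ) + (j : ℕ))) (497 * N + 0) (455 * N + 0)
    have h4 := i.2
    have h5 := j.2
    omega
  rw [h1, h2, Lf_map_eq_sum _ _ _ _ hdeg]
  refine padicNorm_real_sum_le (by positivity) fun k hk => ?_
  rw [padicNorm_real_mul]
  have h3 : (padicNorm p (((WZ (912 * N + ((i : ℕ) + (j : ℕ))) (497 * N + 0)
      (455 * N + 0)).coeff k : ℤ) : ℚ) : ℝ) ≤ 1 := by
    exact_mod_cast padicNorm.of_int _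
  have h4 : (padicNorm p (Jm M (TT N m) k) : ℝ) ≤ 2000 * N := by
    have h5 : (padicNorm p (Jm M (TT N m) k) : ℝ) ≤ ((k + 1 : ℕ) : ℝ) := by
      exact_mod_cast locs_J h5 M N m k
    have h6 : ((k + 1 : ℕ) : ℝ) ≤ ((2000 * N : ℕ) : ℝ) := by
      exact_mod_cast mem_range.1 hk
    push_cast at h6
    push_cast at h5
    linarith
  calc (padicNorm p (((WZ (912 * N + ((i : ℕ) + (j : ℕ))) (497 * N + 0)
        (455 * N + 0)).coeff k : ℤ) : ℚ) : ℝ) * (padicNorm p (Jm M (TT N m) k) : ℝ)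
      ≤ 1 * (2000 * N) := mul_le_mul h3 h4 (padicNorm_real_nonneg _) zero_le_one
    _ = 2000 * N := one_mul _

theorem norm_small {p : ℕ} [hp : Fact p.Prime] (h5 : 5 ≤ p) {N m : ℕ} (hN : 1 ≤ N) (M : ℤ) :
    (padicNorm p (Dm M (TT N m) N).det : ℝ) ≤ (2000 * N : ℝ) ^ (55 * N) := by
  have h1 := det_norm_le (p := p) (Dm M (TT N m) N) (fun _ => (2000 * N : ℝ)) (fun _ => 1)
    (fun _ => by positivity) (fun _ => zero_le_one)
    (fun i j => by rw [mul_one]; exact locs_entry h5 M i j)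
  refine h1.trans (le_of_eq ?_)
  rw [Finset.prod_const_one, mul_one, Finset.prod_const, Finset.card_univ, Fintype.card_fin]

end Pool.TH
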