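import Pool.Agent.Lib.TH.Defs

/-!
# TH.LogQ (size 60): a quadratic upper bound of the logarithm

For `0 < t ≤ tm`, `0 < t0 ≤ tm`: `log t ≤ log t0 + (t - t0)/t0 - (t - t0)²/(2 tm²)`.

PROOF. `F(t) = log t0 + (t - t0)/t0 - (t - t0)²/(2 tm²) - log t` has
`F'(t) = (t - t0) (1/(t t0) - 1/tm²)`, of the sign of `t - t0` on `(0, tm]`, and `F(t0) = 0`:
`antitoneOn_of_deriv_nonpos` on `(0, t0]`, `monotoneOn_of_deriv_nonneg` on `[t0, tm]`.
(Or: put `s = t/t0`, `log s ≤ (s - 1) - (s - 1)²/2` for `s ≤ 1` and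
`log s ≤ (s-1) - (s-1)²/(2 s²)` for `s ≥ 1`.)
-/

namespace Pool.TH

private noncomputable def LogQ_F (t0 tm x : ℝ) : ℝ :=
  Real.log t0 + (x - t0) / t0 - (x - t0) ^ 2 / (2 * tm ^ 2) - Real.log x

private theorem LogQ_deriv {t0 tm x : ℝ} (hx : 0 < x) (h0 : 0 < t0) (hm : 0 < tm) :
    HasDerivAt (LogQ_F t0 tm) ((x - t0) * (1 / (x * t0) - 1 / tm ^ 2)) x := by
  have h1 : HasDerivAt (fun x : ℝ => Real.log t0 + (x - t0) / t0) (1 / t0) x :=
    (((hasDerivAt_id x).sub_const t0).div_const t0).const_add _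
  have h2 : HasDerivAt (fun x : ℝ => (x - t0) ^ 2 / (2 * tm ^ 2))
      (2 * (x - t0) / (2 * tm ^ 2)) x := by
    have := (((hasDerivAt_id x).sub_const t0).pow 2).div_const (2 * tm ^ 2)
    refine this.congr_deriv ?_
    simp
  have h3 := (h1.sub h2).sub (Real.hasDerivAt_log hx.ne')
  refine (h3.congr_deriv ?_)
  field_simp
  ring

private theorem LogQ_zero {t0 tm : ℝ} : LogQ_F t0 tm t0 = 0 := by
  unfold LogQ_F
  simp

theorem log_quad {t t0 tm : ℝ} (ht : 0 < t) (ht0 : 0 < t0) (h : t ≤ tm) (h0 : t0 ≤ tm) :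
    Real.log t ≤ Real.log t0 + (t - t0) / t0 - (t - t0) ^ 2 / (2 * tm ^ 2) := by
  have hm : 0 < tm := ht.trans_le h
  have key : 0 ≤ LogQ_F t0 tm t := by
    rcases le_total t0 t with hc | hc
    · have hmono : MonotoneOn (LogQ_F t0 tm) (Set.Icc t0 t) := by
        refine monotoneOn_of_deriv_nonneg (convex_Icc t0 t) ?_ ?_ ?_
        · intro x hx
          exact (LogQ_deriv (ht0.trans_le hx.1) ht0 hm).continuousAt.continuousWithinAt
        · intro x hx
          rw [interior_Icc] at hx
          exact (LogQ_deriv (ht0.trans hx.1) ht0 hm).differentiableAt.differentiableWithinAt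
        · intro x hx
          rw [interior_Icc] at hx
          have hx0 : 0 < x := ht0.trans hx.1
          rw [(LogQ_deriv hx0 ht0 hm).deriv]
          refine mul_nonneg (by linarith [hx.1]) (sub_nonneg.2 ?_)
          refine one_div_le_one_div_of_le (mul_pos hx0 ht0) ?_
          rw [pow_two]
          exact mul_le_mul (hx.2.le.trans h) h0 ht0.le hm.le
      have := hmono (Set.left_mem_Icc.2 hc) (Set.right_mem_Icc.2 hc) hc
      rwa [LogQ_zero] at this
    · have hanti : AntitoneOn (LogQ_F t0 tm) (Set.Icc t t0) := by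
        refine antitoneOn_of_deriv_nonpos (convex_Icc t t0) ?_ ?_ ?_
        · intro x hx
          exact (LogQ_deriv (ht.trans_le hx.1) ht0 hm).continuousAt.continuousWithinAt
        · intro x hx
          rw [interior_Icc] at hx
          exact (LogQ_deriv (ht.trans hx.1) ht0 hm).differentiableAt.differentiableWithinAt
        · intro x hx
          rw [interior_Icc] at hx
          have hx0 : 0 < x := ht.trans hx.1
          rw [(LogQ_deriv hx0 ht0 hm).deriv]
          refine mul_nonpos_of_nonpos_of_nonneg (by linarith [hx.2]) (sub_nonneg.2 ?_)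
          refine one_div_le_one_div_of_le (mul_pos hx0 ht0) ?_
          rw [pow_two]
          exact mul_le_mul (hx.2.le.trans h0) h0 ht0.le hm.le
      have := hanti (Set.left_mem_Icc.2 hc) (Set.right_mem_Icc.2 hc) hc
      rwa [LogQ_zero] at this
  unfold LogQ_F at key
  linarith

end Pool.TH
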