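import Pool.Agent.Lib.TH.Defs

/-!
# TH.PSum (size 150): sums of a linear function over primes

Hypothesis: `|θ(x) - x| ≤ ε x` for `x ≥ X0`. For `X0 ≤ x ≤ y`, `0 ≤ x`:
`|∑_{x < p ≤ y} (a p + b) log p - (a (y² - x²)/2 + b (y - x))|
   ≤ ε (|a y + b| y + |a x + b| x + |a| (y² - x²)/2)`.

PROOF. Abel summation, `sum_mul_eq_sub_sub_integral_mul` of Mathlib
(`Mathlib.NumberTheory.AbelSummation`) with `c k = if k.Prime then log k else 0` and
`f t = a t + b` (`deriv f t = a`): `∑_{k ∈ Ioc ⌊x⌋₊ ⌊y⌋₊} f k * c k = f y * θ(y) - f x * θ(x)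
 - ∫_{x}^{y} a θ(t) dt`, because `∑ k ∈ Icc 0 ⌊t⌋₊, c k = Chebyshev.theta t`
(`Chebyshev.theta_eq_sum_Icc`, `Finset.sum_filter`). Write `θ(t) = t + r(t)`, `|r(t)| ≤ ε t`; the
main part is `(a y + b) y - (a x + b) x - a (y² - x²)/2 = a (y² - x²)/2 + b (y - x)`; the rest is
bounded by the triangle inequality (`norm_integral_le_of_norm_le` or
`intervalIntegral.norm_integral_le_...`; `Chebyshev.theta_mono` gives measurability and
integrability on bounded intervals: `MonotoneOn.intervalIntegrable`).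
-/

namespace Pool.TH

open Finset

private lemma PSum_abel {x y : ℝ} (hx0 : 0 ≤ x) (hxy : x ≤ y) (a b : ℝ) :
    ∑ p ∈ (Ioc ⌊x⌋₊ ⌊y⌋₊).filter Nat.Prime, (a * p + b) * Real.log p =
      (a * y + b) * Chebyshev.theta y - (a * x + b) * Chebyshev.theta x -
        a * ∫ t in x..y, Chebyshev.theta t := by
  have hd : ∀ t : ℝ, HasDerivAt (fun t : ℝ => a * t + b) a t := by
    intro t
    simpa using ((hasDerivAt_id t).const_mul a).add_const b
  have hderiv : deriv (fun t : ℝ => a * t + b) = fun _ => a := by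
    funext t; exact (hd t).deriv
  have h := sum_mul_eq_sub_sub_integral_mul (𝕜 := ℝ)
    (fun k : ℕ => if k.Prime then Real.log k else 0) (f := fun t : ℝ => a * t + b) hx0 hxy
    (fun t _ => (hd t).differentiableAt)
    (by rw [hderiv]; exact MeasureTheory.integrableOn_const (by simp) (by simp))
  have hth : ∀ t : ℝ, ∑ k ∈ Icc 0 ⌊t⌋₊, (if k.Prime then Real.log k else 0) =
      Chebyshev.theta t := by
    intro t
    rw [Chebyshev.theta_eq_sum_Icc, Finset.sum_filter]
  rw [hderiv] at h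
  simp only [hth] at h
  rw [Finset.sum_filter]
  rw [intervalIntegral.integral_of_le hxy, ← MeasureTheory.integral_const_mul, ← h]
  refine Finset.sum_congr rfl fun k _ => ?_
  split_ifs
  · rfl
  · simp

theorem psum {X0 ε : ℝ} (hε : 0 ≤ ε)
    (hθ : ∀ x : ℝ, X0 ≤ x → |Chebyshev.theta x - x| ≤ ε * x) {x y : ℝ} (hx0 : 0 ≤ x)
    (hx : X0 ≤ x) (hxy : x ≤ y) (a b : ℝ) :
    |∑ p ∈ (Ioc ⌊x⌋₊ ⌊y⌋₊).filter Nat.Prime, (a * p + b) * Real.log p -
        (a * (y ^ 2 - x ^ 2) / 2 + b * (y - x))| ≤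
      ε * (|a * y + b| * y + |a * x + b| * x + |a| * (y ^ 2 - x ^ 2) / 2) := by
  have hy0 : 0 ≤ y := hx0.trans hxy
  rw [PSum_abel hx0 hxy a b]
  have hint : IntervalIntegrable Chebyshev.theta MeasureTheory.volume x y :=
    Chebyshev.theta_mono.intervalIntegrable
  have hid : IntervalIntegrable (fun t : ℝ => t) MeasureTheory.volume x y :=
    continuous_id.intervalIntegrable _ _
  have hsplit : ∫ t in x..y, Chebyshev.theta t =
      (y ^ 2 - x ^ 2) / 2 + ∫ t in x..y, (Chebyshev.theta t - t) := by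
    rw [intervalIntegral.integral_sub hint hid, integral_id]
    ring
  have hbd : |∫ t in x..y, (Chebyshev.theta t - t)| ≤ ε * ((y ^ 2 - x ^ 2) / 2) := by
    have h1 := intervalIntegral.norm_integral_le_of_norm_le
      (f := fun t : ℝ => Chebyshev.theta t - t) (g := fun t : ℝ => ε * t)
      (μ := MeasureTheory.volume) hxy
      (by
        refine Filter.Eventually.of_forall fun t ht => ?_
        rw [Real.norm_eq_abs]
        exact hθ t (hx.trans ht.1.le))
      ((continuous_const.mul continuous_id).intervalIntegrable _ _)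
    rw [Real.norm_eq_abs, intervalIntegral.integral_const_mul, integral_id] at h1
    exact h1
  have hY := hθ y (hx.trans hxy)
  have hX := hθ x hx
  rw [hsplit]
  set I : ℝ := ∫ t in x..y, (Chebyshev.theta t - t)
  set Ty : ℝ := Chebyshev.theta y
  set Tx : ℝ := Chebyshev.theta x
  have hdec : (a * y + b) * Ty - (a * x + b) * Tx - a * ((y ^ 2 - x ^ 2) / 2 + I) -
      (a * (y ^ 2 - x ^ 2) / 2 + b * (y - x)) =
      (a * y + b) * (Ty - y) - (a * x + b) * (Tx - x) - a * I := by ring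
  rw [hdec]
  have h1 : |(a * y + b) * (Ty - y)| ≤ |a * y + b| * (ε * y) := by
    rw [abs_mul]; exact mul_le_mul_of_nonneg_left hY (abs_nonneg _)
  have h2 : |(a * x + b) * (Tx - x)| ≤ |a * x + b| * (ε * x) := by
    rw [abs_mul]; exact mul_le_mul_of_nonneg_left hX (abs_nonneg _)
  have h3 : |a * I| ≤ |a| * (ε * ((y ^ 2 - x ^ 2) / 2)) := by
    rw [abs_mul]; exact mul_le_mul_of_nonneg_left hbd (abs_nonneg _)
  have h4 : |(a * y + b) * (Ty - y) - (a * x + b) * (Tx - x) - a * I| ≤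
      |(a * y + b) * (Ty - y)| + |(a * x + b) * (Tx - x)| + |a * I| :=
    (abs_sub _ _).trans (add_le_add_left (abs_sub _ _) _)
  calc |(a * y + b) * (Ty - y) - (a * x + b) * (Tx - x) - a * I|
      ≤ |(a * y + b) * (Ty - y)| + |(a * x + b) * (Tx - x)| + |a * I| := h4
    _ ≤ |a * y + b| * (ε * y) + |a * x + b| * (ε * x) +
        |a| * (ε * ((y ^ 2 - x ^ 2) / 2)) := by linarith
    _ = ε * (|a * y + b| * y + |a * x + b| * x + |a| * (y ^ 2 - x ^ 2) / 2) := by ring

end Pool.TH
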