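import Pool.Agent.Lib.TH.Defs

/-!
# TH.Tab (proved): the table of the savings and its soundness
-/

namespace Pool.TH

/-- the table, 58 entries, intervals in increasing order -/
def Tab : List Ent :=
  [⟨711, 11, 65, 1, 14, 8, 7, false, true, false, 22, -1422⟩,
   ⟨65, 1, 456, 7, 14, 8, 7, false, true, true, 15, -967⟩,
   ⟨456, 7, 329, 5, 14, 8, 7, true, true, true, 1, -55⟩,
   ⟨329, 5, 1919, 29, 14, 8, 7, true, true, true, -29, 1919⟩,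
   ⟨1422, 19, 455, 6, 12, 7, 6, false, true, false, 19, -1422⟩,
   ⟨455, 6, 987, 13, 12, 7, 6, false, true, true, 13, -967⟩,
   ⟨987, 13, 76, 1, 12, 7, 6, false, true, true, -13, 1007⟩,
   ⟨76, 1, 1919, 25, 12, 7, 6, true, true, true, -25, 1919⟩,
   ⟨244, 3, 329, 4, 11, 6, 6, false, false, true, 18, -1464⟩,
   ⟨329, 4, 497, 6, 11, 6, 6, false, false, true, -6, 510⟩,
   ⟨497, 6, 912, 11, 11, 6, 6, false, true, true, -12, 1007⟩,
   ⟨912, 11, 1919, 23, 11, 6, 6, true, true, true, -23, 1919⟩,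
   ⟨711, 8, 987, 11, 10, 6, 5, false, true, false, 16, -1422⟩,
   ⟨987, 11, 91, 1, 10, 6, 5, false, true, false, -6, 552⟩,
   ⟨91, 1, 456, 5, 10, 6, 5, false, true, true, -11, 1007⟩,
   ⟨456, 5, 1919, 21, 10, 6, 5, true, true, true, -21, 1919⟩,
   ⟨92, 1, 94, 1, 10, 5, 5, true, false, true, 6, -552⟩,
   ⟨94, 1, 474, 5, 10, 5, 5, true, false, true, -15, 1422⟩,
   ⟨488, 5, 987, 10, 9, 5, 5, false, false, true, 15, -1464⟩,
   ⟨987, 10, 497, 5, 9, 5, 5, false, false, true, -5, 510⟩,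
   ⟨497, 5, 1007, 10, 9, 5, 5, false, true, true, -10, 1007⟩,
   ⟨102, 1, 1974, 19, 9, 5, 4, true, true, false, 5, -510⟩,
   ⟨1974, 19, 732, 7, 9, 5, 4, true, true, false, -14, 1464⟩,
   ⟨1919, 17, 455, 4, 8, 4, 4, false, false, false, 17, -1919⟩,
   ⟨455, 4, 114, 1, 8, 4, 4, false, false, true, 13, -1464⟩,
   ⟨114, 1, 1974, 17, 8, 4, 4, true, false, true, 5, -552⟩,
   ⟨1974, 17, 237, 2, 8, 4, 4, true, false, true, -12, 1422⟩,
   ⟨122, 1, 987, 8, 7, 4, 4, false, false, true, 12, -1464⟩,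
   ⟨987, 8, 497, 4, 7, 4, 4, false, false, true, -4, 510⟩,
   ⟨497, 4, 1007, 8, 7, 4, 4, false, true, true, -8, 1007⟩,
   ⟨1422, 11, 912, 7, 7, 4, 3, false, true, false, 11, -1422⟩,
   ⟨912, 7, 658, 5, 7, 4, 3, true, true, false, 4, -510⟩,
   ⟨658, 5, 1464, 11, 7, 4, 3, true, true, false, -11, 1464⟩,
   ⟨1919, 13, 455, 3, 6, 3, 3, false, false, false, 13, -1919⟩,
   ⟨455, 3, 1974, 13, 6, 3, 3, false, false, true, 10, -1464⟩,
   ⟨1974, 13, 152, 1, 6, 3, 3, false, false, true, -3, 510⟩,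
   ⟨152, 1, 158, 1, 6, 3, 3, true, false, true, -9, 1422⟩,
   ⟨488, 3, 329, 2, 5, 3, 3, false, false, true, 9, -1464⟩,
   ⟨329, 2, 497, 3, 5, 3, 3, false, false, true, -3, 510⟩,
   ⟨497, 3, 1007, 6, 5, 3, 3, false, true, true, -6, 1007⟩,
   ⟨711, 4, 1974, 11, 5, 3, 2, false, true, false, 8, -1422⟩,
   ⟨1974, 11, 912, 5, 5, 3, 2, false, true, false, -3, 552⟩,
   ⟨912, 5, 183, 1, 5, 3, 2, true, true, false, -8, 1464⟩,
   ⟨1919, 9, 658, 3, 4, 2, 2, false, false, false, 9, -1919⟩,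
   ⟨658, 3, 455, 2, 4, 2, 2, false, false, false, 0, 55⟩,
   ⟨455, 2, 228, 1, 4, 2, 2, false, false, true, -2, 510⟩,
   ⟨228, 1, 237, 1, 4, 2, 2, true, false, true, -6, 1422⟩,
   ⟨244, 1, 987, 4, 3, 2, 2, false, false, true, 6, -1464⟩,
   ⟨987, 4, 497, 2, 3, 2, 2, false, false, true, -2, 510⟩,
   ⟨497, 2, 1007, 4, 3, 2, 2, false, true, true, -4, 1007⟩,
   ⟨1919, 5, 1974, 5, 2, 1, 1, false, false, false, 5, -1919⟩,
   ⟨1974, 5, 455, 1, 2, 1, 1, false, false, false, 0, 55⟩,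
   ⟨455, 1, 456, 1, 2, 1, 1, false, false, true, -1, 510⟩,
   ⟨456, 1, 474, 1, 2, 1, 1, true, false, true, -3, 1422⟩,
   ⟨488, 1, 987, 2, 1, 1, 1, false, false, true, 3, -1464⟩,
   ⟨987, 2, 497, 1, 1, 1, 1, false, false, true, -1, 510⟩,
   ⟨497, 1, 1007, 2, 1, 1, 1, false, true, true, -2, 1007⟩,
   ⟨1919, 1, 1974, 1, 0, 0, 0, false, false, false, 1, -1919⟩]

/-- `a p + b N ≥ 0` at both ends of the interval -/
def okL (t : Ent) (a b : ℤ) : Bool :=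
  decide (0 ≤ a * t.u1 + b * t.v1) && decide (0 ≤ a * t.u2 + b * t.v2)

/-- the check of one factor -/
def okF (t : Ent) (fl : Bool) (q : ℕ) (e : ℤ) : Bool :=
  if fl then okL t q (-e) else okL t (-q) e

/-- the check of an entry -/
def okE (t : Ent) : Bool :=
  decide (0 < t.v1) && decide (0 < t.v2) && decide (64 * t.v1 ≤ t.u1) &&
  decide (t.u1 * t.v2 ≤ t.u2 * t.v1) && decide (t.u2 ≤ 1974 * t.v2) && okL t t.al t.be &&
  okF t t.b1 t.q1 912 && okF t t.b2 t.q2 497 && okF t t.b3 t.q3 455 &&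
  okL t (-t.al - (if t.b1 then (t.q1 : ℤ) else 0) - (if t.b2 then (t.q2 : ℤ) else 0)
      - (if t.b3 then (t.q3 : ℤ) else 0))
    (55 - t.be + (if t.b1 then 912 else 0) + (if t.b2 then 497 else 0)
      + (if t.b3 then 455 else 0)) &&
  okL t (1 - t.al + (if t.b1 then 0 else (t.q1 : ℤ)) + (if t.b2 then 0 else (t.q2 : ℤ))
      + (if t.b3 then 0 else (t.q3 : ℤ)))
    (-t.be - 55 - (if t.b1 then 0 else 912) - (if t.b2 then 0 else 497)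
      - (if t.b3 then 0 else 455))

theorem tab_ok : ∀ t ∈ Tab, okE t = true := by decide +kernel

/-- the intervals are disjoint and increasing -/
theorem tab_pairwise : Tab.Pairwise fun s t => s.u2 * t.v1 ≤ t.u1 * s.v2 := by decide +kernel

/-- the main term of an entry -/
def mainT (t : Ent) : ℚ :=
  t.al * ((t.u2 / t.v2 : ℚ) ^ 2 - (t.u1 / t.v1 : ℚ) ^ 2) / 2 + t.be * ((t.u2 / t.v2 : ℚ) - (t.u1 / t.v1 : ℚ))

/-- the error term of an entry -/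
def errT (t : Ent) : ℚ :=
  |t.al * (t.u2 / t.v2 : ℚ) + t.be| * (t.u2 / t.v2 : ℚ) + |t.al * (t.u1 / t.v1 : ℚ) + t.be| * (t.u1 / t.v1 : ℚ)
    + |(t.al : ℚ)| * ((t.u2 / t.v2 : ℚ) ^ 2 - (t.u1 / t.v1 : ℚ) ^ 2) / 2

theorem tab_main : 7428 ≤ (Tab.map mainT).sum := by decide +kernel

theorem tab_err : (Tab.map errT).sum ≤ 1000000 := by decide +kernel

theorem okL_sound {t : Ent} {a b : ℤ} (h : okL t a b = true) {N p : ℕ} (hv1 : 0 < t.v1)
    (hv2 : 0 < t.v2) (h1 : t.u1 * N < t.v1 * p) (h2 : t.v2 * p ≤ t.u2 * N) :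
    0 ≤ a * p + b * N := by
  simp only [okL, Bool.and_eq_true, decide_eq_true_eq] at h
  obtain ⟨h3, h4⟩ := h
  have h1' : (t.u1 : ℤ) * N < t.v1 * p := by exact_mod_cast h1
  have h2' : (t.v2 : ℤ) * p ≤ t.u2 * N := by exact_mod_cast h2
  have hN : (0 : ℤ) ≤ N := by positivity
  rcases le_total 0 a with ha | ha
  · have hv : (0 : ℤ) < t.v1 := by exact_mod_cast hv1
    have h5 : 0 ≤ (t.v1 : ℤ) * (a * p + b * N) := by
      nlinarith [mul_le_mul_of_nonneg_left h1'.le ha, mul_nonneg h3 hN]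
    exact nonneg_of_mul_nonneg_right h5 hv
  · have hv : (0 : ℤ) < t.v2 := by exact_mod_cast hv2
    have h5 : 0 ≤ (t.v2 : ℤ) * (a * p + b * N) := by
      nlinarith [mul_le_mul_of_nonpos_left h2' ha, mul_nonneg h4 hN]
    exact nonneg_of_mul_nonneg_right h5 hv

theorem okF_sound {t : Ent} {fl : Bool} {q : ℕ} {e : ℕ} (h : okF t fl q e = true) {N p : ℕ}
    (hv1 : 0 < t.v1) (hv2 : 0 < t.v2) (h1 : t.u1 * N < t.v1 * p) (h2 : t.v2 * p ≤ t.u2 * N) :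
    ∃ s r : ℕ, e * N + s = p * q + r ∧ (s : ℤ) = (if fl then (q : ℤ) else 0) * p - (if fl then (e : ℤ) else 0) * N ∧
      (r : ℤ) = (if fl then 0 else (e : ℤ)) * N - (if fl then 0 else (q : ℤ)) * p := by
  cases fl with
  | true =>
    simp only [okF, if_true] at h
    have h3 := okL_sound h hv1 hv2 h1 h2
    refine ⟨((q : ℤ) * p + -(e : ℤ) * N).toNat, 0, ?_, ?_, ?_⟩
    · zify
      rw [Int.toNat_of_nonneg h3]
      ring
    · rw [Int.toNat_of_nonneg h3]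
      simp
      ring
    · simp
  | false =>
    simp only [okF, Bool.false_eq_true, if_false] at h
    have h3 := okL_sound h hv1 hv2 h1 h2
    refine ⟨0, (-(q : ℤ) * p + (e : ℤ) * N).toNat, ?_, ?_, ?_⟩
    · zify
      rw [Int.toNat_of_nonneg h3]
      ring
    · simp
    · rw [Int.toNat_of_nonneg h3]
      simp
      ring

theorem tab_sound {t : Ent} (ht : t ∈ Tab) {N p : ℕ} (h1 : t.u1 * N < t.v1 * p)
    (h2 : t.v2 * p ≤ t.u2 * N) :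
    ∃ s1 s2 s3 r1 r2 r3 g : ℕ, 912 * N + s1 = p * t.q1 + r1 ∧ 497 * N + s2 = p * t.q2 + r2 ∧
      455 * N + s3 = p * t.q3 + r3 ∧ s1 + s2 + s3 + g ≤ 55 * N ∧
      g + 55 * N + (r1 + r2 + r3) ≤ p ∧ (g : ℤ) = t.al * p + t.be * N := by
  have hok := tab_ok t ht
  simp only [okE, Bool.and_eq_true, decide_eq_true_eq] at hok
  obtain ⟨⟨⟨⟨⟨⟨⟨⟨⟨⟨hv1, hv2⟩, -⟩, -⟩, -⟩, hg⟩, hf1⟩, hf2⟩, hf3⟩, hs⟩, hr⟩ := hok
  obtain ⟨s1, r1, e1, es1, er1⟩ := okF_sound (e := 912) hf1 hv1 hv2 h1 h2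
  obtain ⟨s2, r2, e2, es2, er2⟩ := okF_sound (e := 497) hf2 hv1 hv2 h1 h2
  obtain ⟨s3, r3, e3, es3, er3⟩ := okF_sound (e := 455) hf3 hv1 hv2 h1 h2
  have hg' := okL_sound hg hv1 hv2 h1 h2
  have hs' := okL_sound hs hv1 hv2 h1 h2
  have hr' := okL_sound hr hv1 hv2 h1 h2
  refine ⟨s1, s2, s3, r1, r2, r3, (t.al * p + t.be * N).toNat, e1, e2, e3, ?_, ?_, ?_⟩
  · zify
    rw [Int.toNat_of_nonneg hg', es1, es2, es3]
    split_ifs at hs' ⊢ <;> push_cast at hs' ⊢ <;> linarith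
  · zify
    rw [Int.toNat_of_nonneg hg', er1, er2, er3]
    split_ifs at hr' ⊢ <;> push_cast at hr' ⊢ <;> linarith
  · rw [Int.toNat_of_nonneg hg']

/-- simple facts on the entries -/
theorem tab_facts {t : Ent} (ht : t ∈ Tab) : 0 < t.v1 ∧ 0 < t.v2 ∧ 64 * t.v1 ≤ t.u1 ∧
    t.u1 * t.v2 ≤ t.u2 * t.v1 ∧ t.u2 ≤ 1974 * t.v2 := by
  have hok := tab_ok t ht
  simp only [okE, Bool.and_eq_true, decide_eq_true_eq] at hok
  obtain ⟨⟨⟨⟨⟨⟨⟨⟨⟨⟨hv1, hv2⟩, h3⟩, h4⟩, h5⟩, hg⟩, hf1⟩, hf2⟩, hf3⟩, hs⟩, hr⟩ := hok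
  exact ⟨hv1, hv2, h3, h4, h5⟩

end Pool.TH
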