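import Pool.Agent.Lib.TH.LocP
import Pool.Agent.Lib.TH.LocS
import Pool.Agent.Lib.TH.Loc3
import Pool.Agent.Lib.TH.Loc2
import Pool.Agent.Lib.TH.PSum
import Pool.Agent.Lib.TH.Tab

/-!
# TH.Low: the lower bound for the determinant (assembly)
-/

namespace Pool.TH

open Finset

/-- the saving at the prime `p` -/
def savG (L : List Ent) (N p : ℕ) : ℝ :=
  (L.map fun t => if t.u1 * N < t.v1 * p ∧ t.v2 * p ≤ t.u2 * N then
    (t.al : ℝ) * p + t.be * N else 0).sum

private theorem savG_cases {L : List Ent}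
    (hL : L.Pairwise fun s t => s.u2 * t.v1 ≤ t.u1 * s.v2)
    (hv : ∀ t ∈ L, 0 < t.v1 ∧ 0 < t.v2) (N p : ℕ) :
    (savG L N p = 0 ∧ ∀ t ∈ L, ¬ (t.u1 * N < t.v1 * p ∧ t.v2 * p ≤ t.u2 * N)) ∨
    ∃ t ∈ L, (t.u1 * N < t.v1 * p ∧ t.v2 * p ≤ t.u2 * N) ∧
      savG L N p = (t.al : ℝ) * p + t.be * N := by
  induction L with
  | nil => left; simp [savG]
  | cons t L ih =>
    rw [List.pairwise_cons] at hL
    have hv' := hv t (List.mem_cons_self)
    have hvL : ∀ t ∈ L, 0 < t.v1 ∧ 0 < t.v2 := fun s hs => hv s (List.mem_cons_of_mem _ hs)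
    by_cases hp : t.u1 * N < t.v1 * p ∧ t.v2 * p ≤ t.u2 * N
    · right
      refine ⟨t, List.mem_cons_self, hp, ?_⟩
      have h0 : ∀ s ∈ L, ¬ (s.u1 * N < s.v1 * p ∧ s.v2 * p ≤ s.u2 * N) := by
        rintro s hs ⟨h1, -⟩
        have h2 := hL.1 s hs
        have h3 := hp.2
        have h4 := (hv s (List.mem_cons_of_mem _ hs)).1
        have h5 : t.v2 * (s.v1 * p) ≤ t.v2 * (s.u1 * N) := by
          calc t.v2 * (s.v1 * p) = s.v1 * (t.v2 * p) := by ring
            _ ≤ s.v1 * (t.u2 * N) := Nat.mul_le_mul_left _ h3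
            _ = t.u2 * s.v1 * N := by ring
            _ ≤ s.u1 * t.v2 * N := Nat.mul_le_mul_right _ h2
            _ = t.v2 * (s.u1 * N) := by ring
        have h6 := Nat.le_of_mul_le_mul_left h5 hv'.2
        omega
      have h1 : savG L N p = 0 := by
        rcases ih hL.2 hvL with h | ⟨s, hs, h2, -⟩
        · exact h.1
        · exact absurd h2 (h0 s hs)
      have h2 : savG (t :: L) N p = ((t.al : ℝ) * p + t.be * N) + savG L N p := by
        simp only [savG, List.map_cons, List.sum_cons]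
        rw [if_pos hp]
      rw [h2, h1, add_zero]
    · have h2 : savG (t :: L) N p = savG L N p := by
        simp only [savG, List.map_cons, List.sum_cons]
        rw [if_neg hp, zero_add]
      rcases ih hL.2 hvL with h | ⟨s, hs, h3, h4⟩
      · left
        refine ⟨by rw [h2]; exact h.1, ?_⟩
        intro s hs
        rcases List.mem_cons.1 hs with rfl | hs
        · exact hp
        · exact h.2 s hs
      · right
        exact ⟨s, List.mem_cons_of_mem _ hs, h3, by rw [h2]; exact h4⟩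

private theorem sum_savG (L : List Ent) (S : Finset ℕ) (N : ℕ) :
    ∑ p ∈ S, savG L N p * Real.log p =
      (L.map fun t => ∑ p ∈ S.filter (fun p => t.u1 * N < t.v1 * p ∧ t.v2 * p ≤ t.u2 * N),
        ((t.al : ℝ) * p + t.be * N) * Real.log p).sum := by
  induction L with
  | nil => simp [savG]
  | cons t L ih =>
    rw [List.map_cons, List.sum_cons, ← ih, sum_filter, ← sum_add_distrib]
    refine sum_congr rfl fun p _ => ?_
    simp only [savG, List.map_cons, List.sum_cons]
    split_ifs <;> ring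

private theorem list_lb (L : List Ent) (f : Ent → ℝ) (ε N2 : ℝ)
    (h : ∀ t ∈ L, ((mainT t : ℚ) : ℝ) * N2 - ε * ((errT t : ℚ) : ℝ) * N2 ≤ f t) :
    (((L.map mainT).sum : ℚ) : ℝ) * N2 - ε * (((L.map errT).sum : ℚ) : ℝ) * N2 ≤ (L.map f).sum := by
  induction L with
  | nil => simp
  | cons t L ih =>
    simp only [List.map_cons, List.sum_cons]
    rw [Rat.cast_add, Rat.cast_add]
    have h1 := h t List.mem_cons_self
    have h2 := ih fun s hs => h s (List.mem_cons_of_mem _ hs)
    linarith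

/-- the savings -/
theorem savings {X0 : ℝ} (hX : 10 ^ 20 ≤ X0)
    (hθ : ∀ x : ℝ, X0 ≤ x → |Chebyshev.theta x - x| ≤ x / 10 ^ 6) {N : ℕ}
    (hN : X0 ≤ 64 * N) :
    7427 * (N : ℝ) ^ 2 ≤
      ∑ p ∈ (range (1974 * N + 1)).filter Nat.Prime, savG Tab N p * Real.log p := by
  rw [sum_savG]
  have hN0 : (0 : ℝ) < N := by
    have : (0 : ℝ) < 64 * N := by linarith
    linarith
  have h := list_lb Tab (fun t => ∑ p ∈ ((range (1974 * N + 1)).filter Nat.Prime).filter
      (fun p => t.u1 * N < t.v1 * p ∧ t.v2 * p ≤ t.u2 * N),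
        ((t.al : ℝ) * p + t.be * N) * Real.log p) (1 / 10 ^ 6) ((N : ℝ) ^ 2) ?_
  · refine le_trans ?_ h
    have h1 : (7428 : ℝ) ≤ (((Tab.map mainT).sum : ℚ) : ℝ) := by exact_mod_cast tab_main
    have h2 : (((Tab.map errT).sum : ℚ) : ℝ) ≤ 1000000 := by exact_mod_cast tab_err
    have h3 : (0 : ℝ) ≤ (N : ℝ) ^ 2 := by positivity
    nlinarith [mul_le_mul_of_nonneg_right h1 h3, mul_le_mul_of_nonneg_right h2 h3]
  · intro t ht
    obtain ⟨hv1, hv2, h64, hle, h1974⟩ := tab_facts ht
    have hv1' : (0 : ℝ) < t.v1 := by exact_mod_cast hv1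
    have hv2' : (0 : ℝ) < t.v2 := by exact_mod_cast hv2
    set α : ℝ := (t.u1 : ℝ) / t.v1 with hα
    set β : ℝ := (t.u2 : ℝ) / t.v2 with hβ
    have hα64 : 64 ≤ α := by
      rw [hα, le_div_iff₀ hv1']
      exact_mod_cast h64
    have hαβ : α ≤ β := by
      rw [hα, hβ, div_le_div_iff₀ hv1' hv2']
      exact_mod_cast hle
    have hβ1974 : β ≤ 1974 := by
      rw [hβ, div_le_iff₀ hv2']
      exact_mod_cast h1974
    have hθ' : ∀ x : ℝ, X0 ≤ x → |Chebyshev.theta x - x| ≤ 1 / 10 ^ 6 * x := by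
      intro x hx
      have := hθ x hx
      rw [one_div_mul_eq_div]
      exact this
    have hps := psum (X0 := X0) (ε := 1 / 10 ^ 6) (by positivity) hθ' (x := α * N) (y := β * N)
      (by positivity) (by nlinarith) (by nlinarith) (t.al : ℝ) (t.be * N)
    have hset : (Ioc ⌊α * N⌋₊ ⌊β * N⌋₊).filter Nat.Prime =
        ((range (1974 * N + 1)).filter Nat.Prime).filter
          (fun p => t.u1 * N < t.v1 * p ∧ t.v2 * p ≤ t.u2 * N) := by
      ext p
      simp only [mem_filter, mem_Ioc, mem_range]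
      have hα0 : 0 ≤ α * N := by positivity
      have hβ0 : 0 ≤ β * N := by nlinarith
      have e1 : ⌊α * N⌋₊ < p ↔ t.u1 * N < t.v1 * p := by
        rw [Nat.floor_lt hα0, hα, div_mul_eq_mul_div, div_lt_iff₀ hv1']
        constructor
        · intro h
          have : ((t.u1 * N : ℕ) : ℝ) < ((p * t.v1 : ℕ) : ℝ) := by push_cast; exact h
          have := Nat.cast_lt.1 this
          rw [mul_comm t.v1]; exact this
        · intro h
          rw [mul_comm t.v1] at h
          have : ((t.u1 * N : ℕ) : ℝ) < ((p * t.v1 : ℕ) : ℝ) := Nat.cast_lt.2 h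
          push_cast at this
          exact this
      have e2 : p ≤ ⌊β * N⌋₊ ↔ t.v2 * p ≤ t.u2 * N := by
        rw [Nat.le_floor_iff hβ0, hβ, div_mul_eq_mul_div, le_div_iff₀ hv2']
        constructor
        · intro h
          have : ((p * t.v2 : ℕ) : ℝ) ≤ ((t.u2 * N : ℕ) : ℝ) := by push_cast; exact h
          have := Nat.cast_le.1 this
          rw [mul_comm t.v2]; exact this
        · intro h
          rw [mul_comm t.v2] at h
          have : ((p * t.v2 : ℕ) : ℝ) ≤ ((t.u2 * N : ℕ) : ℝ) := Nat.cast_le.2 h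
          push_cast at this
          exact this
      rw [e1, e2]
      constructor
      · rintro ⟨⟨h1, h2⟩, h3⟩
        refine ⟨⟨?_, h3⟩, h1, h2⟩
        have h4 : t.v2 * p ≤ t.v2 * (1974 * N) := by
          calc t.v2 * p ≤ t.u2 * N := h2
            _ ≤ 1974 * t.v2 * N := Nat.mul_le_mul_right _ h1974
            _ = t.v2 * (1974 * N) := by ring
        have h5 := Nat.le_of_mul_le_mul_left h4 hv2
        omega
      · rintro ⟨⟨h1, h3⟩, h4, h2⟩
        exact ⟨⟨h4, h2⟩, h3⟩
    rw [hset] at hps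
    have h1 := (abs_le.1 hps).1
    have e3 : ((mainT t : ℚ) : ℝ) * (N : ℝ) ^ 2 =
        (t.al : ℝ) * ((β * N) ^ 2 - (α * N) ^ 2) / 2 + t.be * N * (β * N - α * N) := by
      rw [hα, hβ]
      simp only [mainT]
      push_cast
      ring
    have e4 : ((errT t : ℚ) : ℝ) * (N : ℝ) ^ 2 =
        |(t.al : ℝ) * (β * N) + t.be * N| * (β * N) + |(t.al : ℝ) * (α * N) + t.be * N| * (α * N) +
          |(t.al : ℝ)| * ((β * N) ^ 2 - (α * N) ^ 2) / 2 := by
      have e5 : |(t.al : ℝ) * (β * N) + t.be * N| = |(t.al : ℝ) * β + t.be| * N := by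
        rw [← abs_of_pos hN0, ← abs_mul, abs_of_pos hN0]
        congr 1
        ring
      have e6 : |(t.al : ℝ) * (α * N) + t.be * N| = |(t.al : ℝ) * α + t.be| * N := by
        rw [← abs_of_pos hN0, ← abs_mul, abs_of_pos hN0]
        congr 1
        ring
      rw [e5, e6, hα, hβ]
      simp only [errT]
      push_cast
      ring
    have e7 : 1 / 10 ^ 6 * ((errT t : ℚ) : ℝ) * (N : ℝ) ^ 2 =
        1 / 10 ^ 6 * (((errT t : ℚ) : ℝ) * (N : ℝ) ^ 2) := by ring
    rw [e7, e4, e3]
    linarith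


theorem sum_two (N : ℕ) : ∑ i ∈ range (55 * N), (72 * N - 3 * i) ≤ 864 * N ^ 2 + 36 * N := by
  have h1 : ∑ i ∈ range (55 * N), (72 * N - 3 * i) = ∑ i ∈ range (24 * N), (72 * N - 3 * i) := by
    rw [← Finset.sum_range_add_sum_Ico _ (show 24 * N ≤ 55 * N by omega)]
    have : ∑ i ∈ Ico (24 * N) (55 * N), (72 * N - 3 * i) = 0 := by
      refine sum_eq_zero fun i hi => ?_
      rw [mem_Ico] at hi
      omega
    rw [this, add_zero]
  have h2 : ∀ k : ℕ, k ≤ 24 * N → (∑ i ∈ range k, (72 * N - 3 * i)) * 2 + 3 * k ^ 2 ≤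
      144 * N * k + 3 * k := by
    intro k
    induction k with
    | zero => intro _; simp
    | succ k ih =>
      intro hk
      rw [sum_range_succ]
      have := ih (by omega)
      have e : 72 * N - 3 * k + 3 * k = 72 * N := by omega
      nlinarith
  have h3 := h2 (24 * N) le_rfl
  rw [h1]
  nlinarith

theorem sum_three (N : ℕ) :
    2 * ∑ i ∈ range (55 * N), (2 * i + 1 - 91 * N) ≤ 181 * N ^ 2 + 19 * N + 1 := by
  set a := 91 * N / 2 with ha
  have h0 : 2 * a ≤ 91 * N := by omega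
  have h0' : 91 * N ≤ 2 * a + 1 := by omega
  have h1 : ∑ i ∈ range (55 * N), (2 * i + 1 - 91 * N) =
      ∑ i ∈ Ico a (55 * N), (2 * i + 1 - 91 * N) := by
    rw [← Finset.sum_range_add_sum_Ico _ (show a ≤ 55 * N by omega)]
    have : ∑ i ∈ range a, (2 * i + 1 - 91 * N) = 0 := by
      refine sum_eq_zero fun i hi => ?_
      rw [mem_range] at hi
      omega
    rw [this, zero_add]
  have h2 : ∀ k : ℕ, ∑ i ∈ Ico a (a + k), (2 * i + 1 - 91 * N) ≤ k ^ 2 := by
    intro k
    induction k with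
    | zero => simp
    | succ k ih =>
      rw [← add_assoc, Finset.sum_Ico_succ_top (by omega)]
      have : 2 * (a + k) + 1 - 91 * N ≤ 2 * k + 1 := by omega
      nlinarith
  have h3 := h2 (55 * N - a)
  rw [show a + (55 * N - a) = 55 * N by omega] at h3
  rw [h1]
  have h4 : 2 * (55 * N - a) ≤ 19 * N + 1 := by omega
  have h5 : 4 * (55 * N - a) ^ 2 ≤ (19 * N + 1) ^ 2 := by nlinarith
  nlinarith

/-- the lower bound for the determinant -/
theorem log_det_lower {X0 : ℝ} (hX : 10 ^ 20 ≤ X0)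
    (hθ : ∀ x : ℝ, X0 ≤ x → |Chebyshev.theta x - x| ≤ x / 10 ^ 6) {N m : ℕ}
    (hN : X0 ≤ 64 * N) (hm : m ≤ 3000 * N) (M : ℤ) (hD : (Dm M (TT N m) N).det ≠ 0) :
    -(102545 : ℝ) * N ^ 2 ≤ Real.log |((Dm M (TT N m) N).det : ℝ)| := by
  have hNR : (10 : ℝ) ^ 18 ≤ N := by
    have h1 : (10 : ℝ) ^ 20 ≤ 64 * N := hX.trans hN
    have h2 : (10 : ℝ) ^ 20 = 100 * 10 ^ 18 := by norm_num
    have h3 : (0 : ℝ) < 10 ^ 18 := by positivity
    linarith
  have hN18 : 10 ^ 18 ≤ N := by exact_mod_cast hNR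
  have hN1 : 1 ≤ N := le_trans (by norm_num) hN18
  have hN0 : (0 : ℝ) < N := lt_of_lt_of_le (by norm_num) hNR
  obtain ⟨D, hDd⟩ : ∃ D : ℚ, D = (Dm M (TT N m) N).det := ⟨_, rfl⟩
  rw [← hDd] at hD ⊢
  set S := (range (1974 * N + 1)).filter Nat.Prime with hS
  have hprod := ll_product D hD S (fun p hp => (mem_filter.1 hp).2) (by
    intro p hp hpS
    have _ := Fact.mk hp
    have h1 : 1974 * N ≤ p := by
      by_contra hcon
      push Not at hcon
      exact hpS (mem_filter.2 ⟨mem_range.2 (by omega), hp⟩)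
    have h2 := norm_big (m := m) hN1 h1 M
    rw [← hDd] at h2
    exact_mod_cast h2)
  refine le_trans ?_ hprod
  obtain ⟨R, hR⟩ : ∃ R : ℝ, R = 55 * N * Real.log (2000 * N) := ⟨_, rfl⟩
  have hlog0 : 0 ≤ Real.log (2000 * N) := Real.log_nonneg (by linarith)
  have hR0 : 0 ≤ R := by rw [hR]; positivity
  have hpos : ∀ p : ℕ, p.Prime → (0 : ℝ) < (padicNorm p D : ℝ) := by
    intro p hp
    have _ := Fact.mk hp
    have h1 : 0 ≤ padicNorm p D := padicNorm.nonneg D
    have h2 : padicNorm p D ≠ 0 := padicNorm.nonzero hD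
    exact_mod_cast lt_of_le_of_ne h1 h2.symm
  have hlogR : Real.log ((2000 * N : ℝ) ^ (55 * N)) = R := by
    rw [Real.log_pow, hR]
    push_cast
    ring
  have h2000 : (0 : ℝ) < (2000 * N : ℝ) ^ (55 * N) := by positivity
  obtain ⟨s2, hs2⟩ : ∃ s : ℕ, s = ∑ i ∈ range (55 * N), (72 * N - 3 * i) := ⟨_, rfl⟩
  obtain ⟨s3, hs3⟩ : ∃ s : ℕ, s = ∑ i ∈ range (55 * N), (2 * i + 1 - 91 * N) := ⟨_, rfl⟩
  -- the bound for each prime
  have hkey : ∀ p ∈ S, Real.log (padicNorm p D : ℝ) ≤
      (55 * N * Real.log p - savG Tab N p * Real.log p) + (if p ^ 2 ≤ 2000 * N then R else 0)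
        + (if p = 2 then 2 * s2 * Real.log 2 else 0)
        + (if p = 3 then 2 * s3 * Real.log 3 else 0) := by
    intro p hpS
    have hp := (mem_filter.1 hpS).2
    have _ := Fact.mk hp
    have hp0 : (0 : ℝ) < p := by exact_mod_cast hp.pos
    have hlp : 0 ≤ Real.log p := Real.log_nonneg (by exact_mod_cast hp.one_le)
    have hl2 : 0 ≤ Real.log 2 := Real.log_nonneg (by norm_num)
    have hl3 : 0 ≤ Real.log 3 := Real.log_nonneg (by norm_num)
    have i2 : (0 : ℝ) ≤ if p = 2 then 2 * s2 * Real.log 2 else 0 := by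
      split_ifs
      · positivity
      · exact le_rfl
    have i3 : (0 : ℝ) ≤ if p = 3 then 2 * s3 * Real.log 3 else 0 := by
      split_ifs
      · positivity
      · exact le_rfl
    have hcases := savG_cases tab_pairwise (fun t ht => ⟨(tab_facts ht).1, (tab_facts ht).2.1⟩) N p
    by_cases hsm : p ^ 2 ≤ 2000 * N
    · -- small primes: no saving
      have hG : savG Tab N p = 0 := by
        rcases hcases with h | ⟨t, ht, h1, -⟩
        · exact h.1
        · exfalso
          obtain ⟨hv1, hv2, h64, -, -⟩ := tab_facts ht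
          have h2 : t.v1 * (64 * N) < t.v1 * p := by
            calc t.v1 * (64 * N) = 64 * t.v1 * N := by ring
              _ ≤ t.u1 * N := Nat.mul_le_mul_right _ h64
              _ < t.v1 * p := h1.1
          have h3 := Nat.lt_of_mul_lt_mul_left h2
          nlinarith
      rw [hG, if_pos hsm]
      have hKl : 0 ≤ 55 * N * Real.log p := by positivity
      by_cases hp2 : p = 2
      · subst hp2
        have h1 := norm_two hN1 hm M
        rw [← hDd, ← hs2] at h1
        have h2 := Real.log_le_log (hpos 2 hp) h1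
        rw [Real.log_mul h2000.ne' (by positivity), hlogR, Real.log_pow] at h2
        rw [if_pos rfl, if_neg (by norm_num)]
        push_cast at h2 hKl ⊢
        linarith
      · by_cases hp3 : p = 3
        · subst hp3
          have h1 := norm_three (m := m) hN1 M
          rw [← hDd, ← hs3] at h1
          have h2 := Real.log_le_log (hpos 3 hp) h1
          rw [Real.log_mul h2000.ne' (by positivity), hlogR, Real.log_pow] at h2
          rw [if_neg hp2, if_pos rfl]
          push_cast at h2 hKl ⊢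
          linarith
        · have h5 : 5 ≤ p := by
            have h2 := hp.two_le
            by_contra hcon
            push Not at hcon
            interval_cases p
            · exact hp2 rfl
            · exact hp3 rfl
            · exact absurd hp (by decide)
          have h1 := norm_small (m := m) h5 hN1 M
          rw [← hDd] at h1
          have h2 := Real.log_le_log (hpos p hp) h1
          rw [hlogR] at h2
          rw [if_neg hp2, if_neg hp3]
          linarith
    · push Not at hsm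
      have h45 : 5 ≤ p := by
        by_contra hcon
        push Not at hcon
        have : p ^ 2 ≤ 4 ^ 2 := Nat.pow_le_pow_left (by omega) 2
        omega
      rw [if_neg (by omega)]
      rcases hcases with h | ⟨t, ht, h1, h2⟩
      · rw [h.1]
        have h1 := norm_p (m := m) h45 hN1 hsm M
        rw [← hDd] at h1
        have h2 := Real.log_le_log (hpos p hp) h1
        rw [Real.log_pow] at h2
        push_cast at h2
        linarith
      · obtain ⟨a1, a2, a3, r1, r2, r3, g, e1, e2, e3, e4, e5, e6⟩ := tab_sound ht h1.1 h1.2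
        have h3 := norm_good (m := m) h45 hN1 hsm M e1 e2 e3 e4 e5
        rw [← hDd] at h3
        have h4 := Real.log_le_log (hpos p hp) h3
        rw [Real.log_pow, Nat.cast_sub (by omega)] at h4
        have e7 : (g : ℝ) = (t.al : ℝ) * p + t.be * N := by exact_mod_cast e6
        rw [h2, ← e7]
        push_cast at h4
        linarith
  have hsum := sum_le_sum hkey
  rw [sum_add_distrib, sum_add_distrib, sum_add_distrib, sum_sub_distrib] at hsum
  -- the four parts
  have hsav := savings hX hθ hN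
  rw [← hS] at hsav
  have hth : ∑ p ∈ S, 55 * (N : ℝ) * Real.log p ≤ 55 * N * (1974 * N * (1 + 1 / 10 ^ 6)) := by
    rw [← mul_sum]
    refine mul_le_mul_of_nonneg_left ?_ (by positivity)
    have h1 : ∑ p ∈ S, Real.log (p : ℝ) = Chebyshev.theta (1974 * N : ℕ) := by
      rw [Chebyshev.theta_eq_sum_Icc, Nat.floor_natCast, hS]
      refine sum_congr ?_ fun _ _ => rfl
      congr 1
      ext k
      simp only [mem_range, mem_Icc]
      omega
    rw [h1]
    have h2 := hθ ((1974 * N : ℕ) : ℝ) (by push_cast; linarith)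
    have h3 := (abs_le.1 h2).2
    push_cast at h3 ⊢
    linarith
  have hsm : ∑ p ∈ S, (if p ^ 2 ≤ 2000 * N then R else 0) ≤ 3 * (N : ℝ) ^ 2 := by
    rw [← sum_filter, sum_const, nsmul_eq_mul]
    have h1 : ((S.filter fun p => p ^ 2 ≤ 2000 * N).card : ℝ) ≤ Real.sqrt (2000 * N) := by
      have h2 : (S.filter fun p => p ^ 2 ≤ 2000 * N) ⊆ Icc 1 (Nat.sqrt (2000 * N)) := by
        intro p hp
        rw [mem_filter] at hp
        rw [mem_Icc]
        exact ⟨((mem_filter.1 hp.1).2).one_le, Nat.le_sqrt'.2 hp.2⟩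
      have h3 := card_le_card h2
      rw [Nat.card_Icc, Nat.add_sub_cancel] at h3
      have h4 : ((Nat.sqrt (2000 * N) : ℕ) : ℝ) ≤ Real.sqrt (2000 * N) := by
        have := Real.nat_sqrt_le_real_sqrt (a := 2000 * N)
        push_cast at this
        exact this
      exact le_trans (by exact_mod_cast h3) h4
    refine (mul_le_mul_of_nonneg_right h1 hR0).trans ?_
    have h5 : Real.log (2000 * N) ≤ (2000 * (N : ℝ)) ^ (1 / 4 : ℝ) / (1 / 4) :=
      Real.log_le_rpow_div (by positivity) (by norm_num)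
    obtain ⟨y, hy⟩ : ∃ y : ℝ, y = (2000 * (N : ℝ)) ^ (1 / 4 : ℝ) := ⟨_, rfl⟩
    have hy0 : 0 < y := by rw [hy]; positivity
    have hy4 : y ^ 4 = 2000 * N := by
      rw [hy, ← Real.rpow_natCast, ← Real.rpow_mul (by positivity)]
      norm_num
    have hy2 : Real.sqrt (2000 * N) = y ^ 2 := by
      rw [← hy4, show y ^ 4 = (y ^ 2) ^ 2 by ring, Real.sqrt_sq (by positivity)]
    rw [← hy] at h5
    rw [hy2, hR]
    have h6 : (N : ℝ) = y ^ 4 / 2000 := by rw [hy4]; ring
    have h7 : (2 : ℝ) * 10 ^ 5 ≤ y := by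
      have h8 : ((2 : ℝ) * 10 ^ 5) ^ 4 ≤ y ^ 4 := by
        rw [hy4]
        norm_num at hNR ⊢
        linarith
      exact le_of_pow_le_pow_left₀ (by norm_num) hy0.le h8
    have h8 : y ^ 2 * (55 * N * Real.log (2000 * N)) ≤ y ^ 2 * (55 * N * (4 * y)) := by
      have : Real.log (2000 * N) ≤ 4 * y := by linarith
      gcongr
    refine h8.trans ?_
    rw [h6]
    have h9 : 0 < y ^ 7 := by positivity
    have e1 : y ^ 2 * (55 * (y ^ 4 / 2000) * (4 * y)) = y ^ 7 * (220 / 2000) := by ring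
    have e2 : 3 * (y ^ 4 / 2000) ^ 2 = y ^ 7 * (y * (3 / 4000000)) := by ring
    rw [e1, e2]
    refine mul_le_mul_of_nonneg_left ?_ h9.le
    linarith
  have h2s : ∑ p ∈ S, (if p = 2 then 2 * (s2 : ℝ) * Real.log 2 else 0) ≤
      (1728 * N ^ 2 + 72 * N) * Real.log 2 := by
    rw [Finset.sum_ite_eq' S 2 (fun _ => 2 * (s2 : ℝ) * Real.log 2)]
    have h1 : (s2 : ℝ) ≤ 864 * N ^ 2 + 36 * N := by
      have := sum_two N
      rw [← hs2] at this
      exact_mod_cast this
    have hl2 : 0 ≤ Real.log 2 := Real.log_nonneg (by norm_num)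
    split_ifs
    · nlinarith
    · positivity
  have h3s : ∑ p ∈ S, (if p = 3 then 2 * (s3 : ℝ) * Real.log 3 else 0) ≤
      (181 * N ^ 2 + 19 * N + 1) * Real.log 3 := by
    rw [Finset.sum_ite_eq' S 3 (fun _ => 2 * (s3 : ℝ) * Real.log 3)]
    have h1 : 2 * (s3 : ℝ) ≤ 181 * N ^ 2 + 19 * N + 1 := by
      have := sum_three N
      rw [← hs3] at this
      exact_mod_cast this
    have hl3 : 0 ≤ Real.log 3 := Real.log_nonneg (by norm_num)
    split_ifs
    · exact mul_le_mul_of_nonneg_right h1 hl3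
    · positivity
  have hl2 : Real.log 2 ≤ 0.6932 := by linarith [Real.log_two_lt_d9]
  have hl3 : Real.log 3 ≤ 1.0987 := by
    have h1 : Real.log 3 = Real.log 2 + Real.log (3 / 2) := by
      rw [← Real.log_mul (by norm_num) (by norm_num)]
      norm_num
    have h2 : (3 : ℝ) ^ 12 ≤ 2 ^ 19 * (1.0137 : ℝ) := by norm_num
    have h3 : Real.log ((3 : ℝ) ^ 12) ≤ Real.log (2 ^ 19 * (1.0137 : ℝ)) :=
      Real.log_le_log (by positivity) h2
    rw [Real.log_mul (by positivity) (by norm_num), Real.log_pow, Real.log_pow] at h3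
    have h4 : Real.log (1.0137 : ℝ) ≤ 1.0137 - 1 := Real.log_le_sub_one_of_pos (by norm_num)
    push_cast at h3
    have := Real.log_two_lt_d9
    linarith
  have hN2 : (N : ℝ) * 10 ^ 18 ≤ N ^ 2 := by nlinarith
  have hN3 : (1 : ℝ) ≤ N := by linarith
  have f2 : (1728 * (N : ℝ) ^ 2 + 72 * N) * Real.log 2 ≤ (1728 * (N : ℝ) ^ 2 + 72 * N) * 0.6932 :=
    mul_le_mul_of_nonneg_left hl2 (by positivity)
  have f3 : (181 * (N : ℝ) ^ 2 + 19 * N + 1) * Real.log 3 ≤
      (181 * (N : ℝ) ^ 2 + 19 * N + 1) * 1.0987 := mul_le_mul_of_nonneg_left hl3 (by positivity)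
  have : ∑ p ∈ S, Real.log (padicNorm p D : ℝ) ≤ 102545 * (N : ℝ) ^ 2 := by
    norm_num at hN2 f2 f3 hth ⊢
    nlinarith
  linarith

end Pool.TH
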