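import Pool.Agent.Lib.TH.LogQ
import Pool.Agent.Lib.Z579.Num1

/-!
# TH.Maj1 (size 150): the Gaussian majorant on `(0, 1/9)`

`912 log x + 497 log (1-x) + 455 log (1-9x) ≤ 1000 (A1 - q1 (x - x1)²)` for `0 < x < 1/9`.

PROOF. For an interval `[l, r]` with centre `c ∈ [l, r]`, `log_quad` three times
(`log x`: `t0 = c`, `tm = r`; `log (1 - x)`: `t0 = 1 - c`, `tm = 1 - l`; `log (1 - 9 x)`:
`t0 = 1 - 9 c`, `tm = 1 - 9 l`) gives for `x ∈ [l, r]` (and `x < 1/9`)
`LHS ≤ φ(c) + φ'(c) (x - c) - H (x - c)²`,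
`φ(c) = 912 log c + 497 log (1-c) + 455 log (1-9c)`,
`H = 912/(2 r²) + 497/(2 (1-l)²) + 455*81/(2 (1-9l)²)`, and
`RHS - (this) ≥ s` (a quadratic polynomial in `x`; check with `nlinarith`
`[mul_nonneg (x - l ≥ 0) (r - x ≥ 0), sq_nonneg (x - v)]`) with the slack `s`:

  [0, 49/1000]        c = 45/1000     s = 0.55     (concave: values at the ends)
  [49/1000, 59/1000]  c = 545/10000   s = 0.23     (concave)
  [59/1000, 67/1000]  c = 64/1000     s = 0.20
  [67/1000, 71/1000]  c = 71/1000     s = 0.084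
  [71/1000, 76/1000]  c = 73/1000     s = 0.0080   (convex, vertex inside: contact point)
  [76/1000, 1/9]      c = 765/10000   s = 0.25

`φ(c)` needs an upper bound with error less than `s` (in the fifth interval `< 0.007`, i.e. the
logarithms to `10^(-6)`); all arguments are quotients of integers (`45/1000, 955/1000, 595/1000`;
`545, 9455, 5095` over `10000`; `64, 936, 424`; `71, 929, 361`; `73, 927, 343` over `1000`;
`765, 9235, 3115` over `10000`): `Z579.lgI_bounds n` encloses `2^32 log n` between the integers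
`(lgI n).1`, `(lgI n).2` (`decide +kernel` / `norm_num [lgI]` to evaluate them, error `10^(-9)`),
or use `Real.log_two_near_10` etc. Two steps per interval: one private lemma per interval.
-/

namespace Pool.TH

private theorem maj1_lg (n : ℕ) (lo hi : ℤ) (hn : 1 ≤ n)
    (h : Z579.Num.lgI n = (lo, hi)) : (lo : ℝ) / 2 ^ 32 ≤ Real.log n ∧
      Real.log n ≤ (hi : ℝ) / 2 ^ 32 := by
  have h1 := Z579.Num.lgI_bounds n hn
  rw [h] at h1
  constructor
  · rw [div_le_iff₀ (by positivity)]
    linarith [h1.1]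
  · rw [le_div_iff₀ (by positivity)]
    linarith [h1.2]

private theorem maj1_gen {x l r c La Lb Lc : ℝ} (hx0 : 0 < x) (hx1 : x < 1 / 9) (hl : l ≤ x)
    (hr : x ≤ r) (hlc : l ≤ c) (hcr : c ≤ r) (hc0 : 0 < c) (hc1 : c < 1 / 9)
    (hLa : Real.log c ≤ La) (hLb : Real.log (1 - c) ≤ Lb) (hLc : Real.log (1 - 9 * c) ≤ Lc) :
    912 * Real.log x + 497 * Real.log (1 - x) + 455 * Real.log (1 - 9 * x) ≤
      912 * (La + (x - c) / c - (x - c) ^ 2 / (2 * r ^ 2)) +
      497 * (Lb + ((1 - x) - (1 - c)) / (1 - c) -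
        ((1 - x) - (1 - c)) ^ 2 / (2 * (1 - l) ^ 2)) +
      455 * (Lc + ((1 - 9 * x) - (1 - 9 * c)) / (1 - 9 * c) -
        ((1 - 9 * x) - (1 - 9 * c)) ^ 2 / (2 * (1 - 9 * l) ^ 2)) := by
  have h1 := log_quad hx0 hc0 hr hcr
  have h2 := log_quad (t := 1 - x) (t0 := 1 - c) (tm := 1 - l) (by linarith) (by linarith)
    (by linarith) (by linarith)
  have h3 := log_quad (t := 1 - 9 * x) (t0 := 1 - 9 * c) (tm := 1 - 9 * l) (by linarith)
    (by linarith) (by linarith) (by linarith)
  linarith

private theorem maj1_i1 {x : ℝ} (hx0 : 0 < x) (hx1 : x < 1 / 9) (hl : 0 ≤ x) (hr : x ≤ 49 / 1000) :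
    912 * Real.log x + 497 * Real.log (1 - x) + 455 * Real.log (1 - 9 * x) ≤
      1000 * (A1 - q1 * (x - x1) ^ 2) := by
  have l45 := maj1_lg 45 16349490890 16349490908 (by norm_num) (by decide +kernel)
  have l955 := maj1_lg 955 29470825784 29470825814 (by norm_num) (by decide +kernel)
  have l595 := maj1_lg 595 27438662287 27438662317 (by norm_num) (by decide +kernel)
  have l1000 := maj1_lg 1000 29668582994 29668583024 (by norm_num) (by decide +kernel)
  push_cast at l45 l955 l595 l1000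
  have ha : Real.log (45 / 1000 : ℝ) ≤ -12404371 / 4000000 := by
    rw [Real.log_div (by norm_num) (by norm_num)]
    linarith [l45.2, l1000.1]
  have hb : Real.log (1 - 45 / 1000 : ℝ) ≤ -460439 / 10000000 := by
    have e : (1 - 45 / 1000 : ℝ) = 955 / 1000 := by norm_num
    rw [e, Real.log_div (by norm_num) (by norm_num)]
    linarith [l955.2, l1000.1]
  have hc : Real.log (1 - 9 * (45 / 1000 : ℝ)) ≤ -6489923 / 12500000 := by
    have e : 1 - 9 * (45 / 1000 : ℝ) = 595 / 1000 := by norm_num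
    rw [e, Real.log_div (by norm_num) (by norm_num)]
    linarith [l595.2, l1000.1]
  have h := maj1_gen (c := 45 / 1000) hx0 hx1 hl hr (by norm_num) (by norm_num) (by norm_num)
    (by norm_num) ha hb hc
  unfold A1 q1 x1
  have e : 1000 * (-(29115 / 10000) - 220 * (x - 913 / 12500) ^ 2) - (912 * (-12404371 / 4000000 + (x - (45 / 1000)) / (45 / 1000) - (x - (45 / 1000)) ^ 2 / (2 * (49 / 1000) ^ 2)) +
      497 * (-460439 / 10000000 + ((1 - x) - (1 - (45 / 1000))) / (1 - (45 / 1000)) -
        ((1 - x) - (1 - (45 / 1000))) ^ 2 / (2 * (1 - 0) ^ 2)) +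
      455 * (-6489923 / 12500000 + ((1 - 9 * x) - (1 - 9 * (45 / 1000))) / (1 - 9 * (45 / 1000)) -
        ((1 - 9 * x) - (1 - 9 * (45 / 1000))) ^ 2 / (2 * (1 - 9 * (0)) ^ 2))) =
      27378924 / 2401 * ((x - 0) * (49 / 1000 - x)) + 5171790165247 / 458407563600 * (x - 0) +
      53517917519041 / 764012606000 * (49 / 1000 - x) := by
    ring
  have p1 := mul_nonneg (sub_nonneg.2 hl) (sub_nonneg.2 hr)
  have p2 := sub_nonneg.2 hl
  have p3 := sub_nonneg.2 hr
  linarith [mul_nonneg (by norm_num : (0 : ℝ) ≤ 27378924 / 2401) p1,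
    mul_nonneg (by norm_num : (0 : ℝ) ≤ 5171790165247 / 458407563600) p2,
    mul_nonneg (by norm_num : (0 : ℝ) ≤ 53517917519041 / 764012606000) p3]

private theorem maj1_i2 {x : ℝ} (hx0 : 0 < x) (hx1 : x < 1 / 9) (hl : 49 / 1000 ≤ x) (hr : x ≤ 59 / 1000) :
    912 * Real.log x + 497 * Real.log (1 - x) + 455 * Real.log (1 - 9 * x) ≤
      1000 * (A1 - q1 * (x - x1) ^ 2) := by
  have l545 := maj1_lg 545 27061668909 27061668939 (by norm_num) (by decide +kernel)
  have l9455 := maj1_lg 9455 39317414716 39317414758 (by norm_num) (by decide +kernel)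
  have l5095 := maj1_lg 5095 36661905006 36661905045 (by norm_num) (by decide +kernel)
  have l10000 := maj1_lg 10000 39558110658 39558110700 (by norm_num) (by decide +kernel)
  push_cast at l545 l9455 l5095 l10000
  have ha : Real.log (545 / 10000 : ℝ) ≤ -145477727 / 50000000 := by
    rw [Real.log_div (by norm_num) (by norm_num)]
    linarith [l545.2, l10000.1]
  have hb : Real.log (1 - 545 / 10000 : ℝ) ≤ -700517 / 12500000 := by
    have e : (1 - 545 / 10000 : ℝ) = 9455 / 10000 := by norm_num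
    rw [e, Real.log_div (by norm_num) (by norm_num)]
    linarith [l9455.2, l10000.1]
  have hc : Real.log (1 - 9 * (545 / 10000 : ℝ)) ≤ -67432539 / 100000000 := by
    have e : 1 - 9 * (545 / 10000 : ℝ) = 5095 / 10000 := by norm_num
    rw [e, Real.log_div (by norm_num) (by norm_num)]
    linarith [l5095.2, l10000.1]
  have h := maj1_gen (c := 545 / 10000) hx0 hx1 hl hr (by norm_num) (by norm_num) (by norm_num)
    (by norm_num) ha hb hc
  unfold A1 q1 x1
  have e : 1000 * (-(29115 / 10000) - 220 * (x - 913 / 12500) ^ 2) - (912 * (-145477727 / 50000000 + (x - (545 / 10000)) / (545 / 10000) - (x - (545 / 10000)) ^ 2 / (2 * (59 / 1000) ^ 2)) +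
      497 * (-700517 / 12500000 + ((1 - x) - (1 - (545 / 10000))) / (1 - (545 / 10000)) -
        ((1 - x) - (1 - (545 / 10000))) ^ 2 / (2 * (1 - 49 / 1000) ^ 2)) +
      455 * (-67432539 / 100000000 + ((1 - 9 * x) - (1 - 9 * (545 / 10000))) / (1 - 9 * (545 / 10000)) -
        ((1 - 9 * x) - (1 - 9 * (545 / 10000))) ^ 2 / (2 * (1 - 9 * (49 / 1000)) ^ 2))) =
      2251809512467340000 / 75673761279597 * ((x - 49 / 1000) * (59 / 1000 - x)) + 14145656624724636805335087281 / 353203515582485552662600000 * (x - 49 / 1000) +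
      75333450346014536921835945529 / 3178831640242369973963400000 * (59 / 1000 - x) := by
    ring
  have p1 := mul_nonneg (sub_nonneg.2 hl) (sub_nonneg.2 hr)
  have p2 := sub_nonneg.2 hl
  have p3 := sub_nonneg.2 hr
  linarith [mul_nonneg (by norm_num : (0 : ℝ) ≤ 2251809512467340000 / 75673761279597) p1,
    mul_nonneg (by norm_num : (0 : ℝ) ≤ 14145656624724636805335087281 / 353203515582485552662600000) p2,
    mul_nonneg (by norm_num : (0 : ℝ) ≤ 75333450346014536921835945529 / 3178831640242369973963400000) p3]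

private theorem maj1_i3 {x : ℝ} (hx0 : 0 < x) (hx1 : x < 1 / 9) (hl : 59 / 1000 ≤ x) (hr : x ≤ 67 / 1000) :
    912 * Real.log x + 497 * Real.log (1 - x) + 455 * Real.log (1 - 9 * x) ≤
      1000 * (A1 - q1 * (x - x1) ^ 2) := by
  have l64 := maj1_lg 64 17862266819 17862266840 (by norm_num) (by decide +kernel)
  have l936 := maj1_lg 936 29384514705 29384514735 (by norm_num) (by decide +kernel)
  have l424 := maj1_lg 424 25983407324 25983407351 (by norm_num) (by decide +kernel)
  have l1000 := maj1_lg 1000 29668582994 29668583024 (by norm_num) (by decide +kernel)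
  push_cast at l64 l936 l424 l1000
  have ha : Real.log (64 / 1000 : ℝ) ≤ -17180451 / 6250000 := by
    rw [Real.log_div (by norm_num) (by norm_num)]
    linarith [l64.2, l1000.1]
  have hb : Real.log (1 - 64 / 1000 : ℝ) ≤ -6613977 / 100000000 := by
    have e : (1 - 64 / 1000 : ℝ) = 936 / 1000 := by norm_num
    rw [e, Real.log_div (by norm_num) (by norm_num)]
    linarith [l936.2, l1000.1]
  have hc : Real.log (1 - 9 * (64 / 1000 : ℝ)) ≤ -85802179 / 100000000 := by
    have e : 1 - 9 * (64 / 1000 : ℝ) = 424 / 1000 := by norm_num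
    rw [e, Real.log_div (by norm_num) (by norm_num)]
    linarith [l424.2, l1000.1]
  have h := maj1_gen (c := 64 / 1000) hx0 hx1 hl hr (by norm_num) (by norm_num) (by norm_num)
    (by norm_num) ha hb hc
  unfold A1 q1 x1
  have e : 1000 * (-(29115 / 10000) - 220 * (x - 913 / 12500) ^ 2) - (912 * (-17180451 / 6250000 + (x - (64 / 1000)) / (64 / 1000) - (x - (64 / 1000)) ^ 2 / (2 * (67 / 1000) ^ 2)) +
      497 * (-6613977 / 100000000 + ((1 - x) - (1 - (64 / 1000))) / (1 - (64 / 1000)) -
        ((1 - x) - (1 - (64 / 1000))) ^ 2 / (2 * (1 - 59 / 1000) ^ 2)) +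
      455 * (-85802179 / 100000000 + ((1 - 9 * x) - (1 - 9 * (64 / 1000))) / (1 - 9 * (64 / 1000)) -
        ((1 - 9 * x) - (1 - 9 * (64 / 1000))) ^ 2 / (2 * (1 - 9 * (59 / 1000)) ^ 2))) =
      956090581860000 / 27824469463 * ((x - 59 / 1000) * (67 / 1000 - x)) + 588330648902322319963 / 23005271352008400000 * (x - 59 / 1000) +
      2777814252822743439889 / 69015814056025200000 * (67 / 1000 - x) := by
    ring
  have p1 := mul_nonneg (sub_nonneg.2 hl) (sub_nonneg.2 hr)
  have p2 := sub_nonneg.2 hl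
  have p3 := sub_nonneg.2 hr
  linarith [mul_nonneg (by norm_num : (0 : ℝ) ≤ 956090581860000 / 27824469463) p1,
    mul_nonneg (by norm_num : (0 : ℝ) ≤ 588330648902322319963 / 23005271352008400000) p2,
    mul_nonneg (by norm_num : (0 : ℝ) ≤ 2777814252822743439889 / 69015814056025200000) p3]

private theorem maj1_i4 {x : ℝ} (hx0 : 0 < x) (hx1 : x < 1 / 9) (hl : 67 / 1000 ≤ x) (hr : x ≤ 71 / 1000) :
    912 * Real.log x + 497 * Real.log (1 - x) + 455 * Real.log (1 - 9 * x) ≤
      1000 * (A1 - q1 * (x - x1) ^ 2) := by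
  have l71 := maj1_lg 71 18308070653 18308070674 (by norm_num) (by decide +kernel)
  have l929 := maj1_lg 929 29352273513 29352273543 (by norm_num) (by decide +kernel)
  have l361 := maj1_lg 361 25292538225 25292538252 (by norm_num) (by decide +kernel)
  have l1000 := maj1_lg 1000 29668582994 29668583024 (by norm_num) (by decide +kernel)
  push_cast at l71 l929 l361 l1000
  have ha : Real.log (71 / 1000 : ℝ) ≤ -264507537 / 100000000 := by
    rw [Real.log_div (by norm_num) (by norm_num)]
    linarith [l71.2, l1000.1]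
  have hb : Real.log (1 - 71 / 1000 : ℝ) ≤ -7364651 / 100000000 := by
    have e : (1 - 71 / 1000 : ℝ) = 929 / 1000 := by norm_num
    rw [e, Real.log_div (by norm_num) (by norm_num)]
    linarith [l929.2, l1000.1]
  have hc : Real.log (1 - 9 * (71 / 1000 : ℝ)) ≤ -101887729 / 100000000 := by
    have e : 1 - 9 * (71 / 1000 : ℝ) = 361 / 1000 := by norm_num
    rw [e, Real.log_div (by norm_num) (by norm_num)]
    linarith [l361.2, l1000.1]
  have h := maj1_gen (c := 71 / 1000) hx0 hx1 hl hr (by norm_num) (by norm_num) (by norm_num)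
    (by norm_num) ha hb hc
  unfold A1 q1 x1
  have e : 1000 * (-(29115 / 10000) - 220 * (x - 913 / 12500) ^ 2) - (912 * (-264507537 / 100000000 + (x - (71 / 1000)) / (71 / 1000) - (x - (71 / 1000)) ^ 2 / (2 * (71 / 1000) ^ 2)) +
      497 * (-7364651 / 100000000 + ((1 - x) - (1 - (71 / 1000))) / (1 - (71 / 1000)) -
        ((1 - x) - (1 - (71 / 1000))) ^ 2 / (2 * (1 - 67 / 1000) ^ 2)) +
      455 * (-101887729 / 100000000 + ((1 - 9 * x) - (1 - 9 * (71 / 1000))) / (1 - 9 * (71 / 1000)) -
        ((1 - 9 * x) - (1 - 9 * (71 / 1000))) ^ 2 / (2 * (1 - 9 * (67 / 1000)) ^ 2))) =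
      8532526563825020000 / 691609576937841 * ((x - 67 / 1000) * (71 / 1000 - x)) + 4233393 / 200000 * (x - 67 / 1000) +
      1893335519898020732852320297 / 46388882441613359665800000 * (71 / 1000 - x) := by
    ring
  have p1 := mul_nonneg (sub_nonneg.2 hl) (sub_nonneg.2 hr)
  have p2 := sub_nonneg.2 hl
  have p3 := sub_nonneg.2 hr
  linarith [mul_nonneg (by norm_num : (0 : ℝ) ≤ 8532526563825020000 / 691609576937841) p1,
    mul_nonneg (by norm_num : (0 : ℝ) ≤ 4233393 / 200000) p2,
    mul_nonneg (by norm_num : (0 : ℝ) ≤ 1893335519898020732852320297 / 46388882441613359665800000) p3]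

private theorem maj1_i5 {x : ℝ} (hx0 : 0 < x) (hx1 : x < 1 / 9) (hl : 71 / 1000 ≤ x) (hr : x ≤ 19 / 250) :
    912 * Real.log x + 497 * Real.log (1 - x) + 455 * Real.log (1 - 9 * x) ≤
      1000 * (A1 - q1 * (x - x1) ^ 2) := by
  have l73 := maj1_lg 73 18427382972 18427382993 (by norm_num) (by decide +kernel)
  have l927 := maj1_lg 927 29343017114 29343017144 (by norm_num) (by decide +kernel)
  have l343 := maj1_lg 343 25072861337 25072861364 (by norm_num) (by decide +kernel)
  have l1000 := maj1_lg 1000 29668582994 29668583024 (by norm_num) (by decide +kernel)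
  push_cast at l73 l927 l343 l1000
  have ha : Real.log (73 / 1000 : ℝ) ≤ -13086479 / 5000000 := by
    rw [Real.log_div (by norm_num) (by norm_num)]
    linarith [l73.2, l1000.1]
  have hb : Real.log (1 - 73 / 1000 : ℝ) ≤ -947521 / 12500000 := by
    have e : (1 - 73 / 1000 : ℝ) = 927 / 1000 := by norm_num
    rw [e, Real.log_div (by norm_num) (by norm_num)]
    linarith [l927.2, l1000.1]
  have hc : Real.log (1 - 9 * (73 / 1000 : ℝ)) ≤ -1337531 / 1250000 := by
    have e : 1 - 9 * (73 / 1000 : ℝ) = 343 / 1000 := by norm_num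
    rw [e, Real.log_div (by norm_num) (by norm_num)]
    linarith [l343.2, l1000.1]
  have h := maj1_gen (c := 73 / 1000) hx0 hx1 hl hr (by norm_num) (by norm_num) (by norm_num)
    (by norm_num) ha hb hc
  unfold A1 q1 x1
  have e : 1000 * (-(29115 / 10000) - 220 * (x - 913 / 12500) ^ 2) - (912 * (-13086479 / 5000000 + (x - (73 / 1000)) / (73 / 1000) - (x - (73 / 1000)) ^ 2 / (2 * (19 / 250) ^ 2)) +
      497 * (-947521 / 12500000 + ((1 - x) - (1 - (73 / 1000))) / (1 - (73 / 1000)) -
        ((1 - x) - (1 - (73 / 1000))) ^ 2 / (2 * (1 - 71 / 1000) ^ 2)) +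
      455 * (-1337531 / 1250000 + ((1 - 9 * x) - (1 - 9 * (73 / 1000))) / (1 - 9 * (73 / 1000)) -
        ((1 - 9 * x) - (1 - 9 * (73 / 1000))) ^ 2 / (2 * (1 - 9 * (71 / 1000)) ^ 2))) =
      71549569080000 / 112472366161 * (x - 21797537115077914741 / 296562141964276650000) ^ 2 + 1961086381335927076920247249 / 245841044683590923481337500000 := by
    ring
  linarith [mul_nonneg (by norm_num : (0 : ℝ) ≤ 71549569080000 / 112472366161) (sq_nonneg (x - 21797537115077914741 / 296562141964276650000))]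

private theorem maj1_i6 {x : ℝ} (hx0 : 0 < x) (hx1 : x < 1 / 9) (hl : 19 / 250 ≤ x) (hr : x ≤ 1 / 9) :
    912 * Real.log x + 497 * Real.log (1 - x) + 455 * Real.log (1 - 9 * x) ≤
      1000 * (A1 - q1 * (x - x1) ^ 2) := by
  have l765 := maj1_lg 765 28518049538 28518049568 (by norm_num) (by decide +kernel)
  have l9235 := maj1_lg 9235 39216297921 39216297963 (by norm_num) (by decide +kernel)
  have l3115 := maj1_lg 3115 34548650040 34548650076 (by norm_num) (by decide +kernel)
  have l10000 := maj1_lg 10000 39558110658 39558110700 (by norm_num) (by decide +kernel)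
  push_cast at l765 l9235 l3115 l10000
  have ha : Real.log (765 / 10000 : ℝ) ≤ -5140929 / 2000000 := by
    rw [Real.log_div (by norm_num) (by norm_num)]
    linarith [l765.2, l10000.1]
  have hb : Real.log (1 - 765 / 10000 : ℝ) ≤ -1989611 / 25000000 := by
    have e : (1 - 765 / 10000 : ℝ) = 9235 / 10000 := by norm_num
    rw [e, Real.log_div (by norm_num) (by norm_num)]
    linarith [l9235.2, l10000.1]
  have hc : Real.log (1 - 9 * (765 / 10000 : ℝ)) ≤ -116635591 / 100000000 := by
    have e : 1 - 9 * (765 / 10000 : ℝ) = 3115 / 10000 := by norm_num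
    rw [e, Real.log_div (by norm_num) (by norm_num)]
    linarith [l3115.2, l10000.1]
  have h := maj1_gen (c := 765 / 10000) hx0 hx1 hl hr (by norm_num) (by norm_num) (by norm_num)
    (by norm_num) ha hb hc
  unfold A1 q1 x1
  have e : 1000 * (-(29115 / 10000) - 220 * (x - 913 / 12500) ^ 2) - (912 * (-5140929 / 2000000 + (x - (765 / 10000)) / (765 / 10000) - (x - (765 / 10000)) ^ 2 / (2 * (1 / 9) ^ 2)) +
      497 * (-1989611 / 25000000 + ((1 - x) - (1 - (765 / 10000))) / (1 - (765 / 10000)) -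
        ((1 - x) - (1 - (765 / 10000))) ^ 2 / (2 * (1 - 19 / 250) ^ 2)) +
      455 * (-116635591 / 100000000 + ((1 - 9 * x) - (1 - 9 * (765 / 10000))) / (1 - 9 * (765 / 10000)) -
        ((1 - 9 * x) - (1 - 9 * (765 / 10000))) ^ 2 / (2 * (1 - 9 * (19 / 250)) ^ 2))) =
      84103271848 / 47575143 * (x - 19 / 250) ^ 2 + 3963566363758704809 / 16618657555009125 * (x - 19 / 250) + 3397987432851577065629 / 13294926044007300000000 := by
    ring
  have p2 := sub_nonneg.2 hl
  linarith [mul_nonneg (by norm_num : (0 : ℝ) ≤ 84103271848 / 47575143) (sq_nonneg (x - 19 / 250)),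
    mul_nonneg (by norm_num : (0 : ℝ) ≤ 3963566363758704809 / 16618657555009125) p2]

theorem maj_one {x : ℝ} (h0 : 0 < x) (h1 : x < 1 / 9) :
    912 * Real.log x + 497 * Real.log (1 - x) + 455 * Real.log (1 - 9 * x) ≤
      1000 * (A1 - q1 * (x - x1) ^ 2) := by
  rcases le_total x (49 / 1000) with g1 | g1
  · exact maj1_i1 h0 h1 h0.le g1
  rcases le_total x (59 / 1000) with g2 | g2
  · exact maj1_i2 h0 h1 g1 g2
  rcases le_total x (67 / 1000) with g3 | g3
  · exact maj1_i3 h0 h1 g2 g3
  rcases le_total x (71 / 1000) with g4 | g4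
  · exact maj1_i4 h0 h1 g3 g4
  rcases le_total x (19 / 250) with g5 | g5
  · exact maj1_i5 h0 h1 g4 g5
  exact maj1_i6 h0 h1 g5 h1.le

end Pool.TH
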