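import Pool.Agent.Lib.TH.LogQ
import Pool.Agent.Lib.Z579.Num1

/-!
# TH.Maj2 (size 150): the Gaussian majorant on `(1/9, 1)`

`912 log x + 497 log (1-x) + 455 log (9x-1) ≤ 1000 (A2 - q2 (x - y1)²)` for `1/9 < x < 1`.

PROOF. For an interval `[l, r]` with centre `c ∈ [l, r]`, `log_quad` three times
(`log x`: `t0 = c`, `tm = r`; `log (1 - x)`: `t0 = 1 - c`, `tm = 1 - l`; `log (9 x - 1)`:
`t0 = 9 c - 1`, `tm = 9 r - 1`) gives for `x ∈ [l, r]`
`LHS ≤ φ(c) + φ'(c) (x - c) - H (x - c)²`,
`φ(c) = 912 log c + 497 log (1-c) + 455 log (9c-1)`,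
`H = 912/(2 r²) + 497/(2 (1-l)²) + 455*81/(2 (9r-1)²)`, and
`RHS - (this) ≥ s` (a quadratic polynomial in `x`; check with `nlinarith`
`[mul_nonneg (x - l ≥ 0) (r - x ≥ 0), sq_nonneg (x - v)]`) with the slack `s`:

  [1/9, 48/100]     c = 436/1000      s = 1.06
  [48/100, 61/100]  c = 532/1000      s = 0.12
  [61/100, 71/100]  c = 687/1000      s = 0.34
  [71/100, 79/100]  c = 74432/100000  s = 0.0093   (convex, vertex inside: contact point)
  [79/100, 1]       c = 791/1000      s = 3.15

`φ(c)` needs an upper bound with error less than `s` (in the fourth interval `< 0.008`: the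
logarithms to `10^(-6)`); all arguments are quotients of integers (`436, 564, 2924`;
`532, 468, 3788`; `687, 313, 5183`; `791, 209, 6119` over `1000`; `74432, 25568, 569888` over
`100000`): `Z579.lgI_bounds n` encloses `2^32 log n` between the integers `(lgI n).1`, `(lgI n).2`
(`decide +kernel` / `norm_num [lgI]` to evaluate them, error `10^(-9)`). One private lemma per
interval.
-/

namespace Pool.TH

private theorem maj2_lg (n : ℕ) (lo hi : ℤ) (hn : 1 ≤ n)
    (h : Z579.Num.lgI n = (lo, hi)) : (lo : ℝ) / 2 ^ 32 ≤ Real.log n ∧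
      Real.log n ≤ (hi : ℝ) / 2 ^ 32 := by
  have h1 := Z579.Num.lgI_bounds n hn
  rw [h] at h1
  constructor
  · rw [div_le_iff₀ (by positivity)]
    linarith [h1.1]
  · rw [le_div_iff₀ (by positivity)]
    linarith [h1.2]

private theorem maj2_gen {x l r c La Lb Lc : ℝ} (hx0 : 1 / 9 < x) (hx1 : x < 1) (hl : l ≤ x)
    (hr : x ≤ r) (hlc : l ≤ c) (hcr : c ≤ r) (hc0 : 1 / 9 < c) (hc1 : c < 1)
    (hLa : Real.log c ≤ La) (hLb : Real.log (1 - c) ≤ Lb) (hLc : Real.log (9 * c - 1) ≤ Lc) :
    912 * Real.log x + 497 * Real.log (1 - x) + 455 * Real.log (9 * x - 1) ≤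
      912 * (La + (x - c) / c - (x - c) ^ 2 / (2 * r ^ 2)) +
      497 * (Lb + ((1 - x) - (1 - c)) / (1 - c) -
        ((1 - x) - (1 - c)) ^ 2 / (2 * (1 - l) ^ 2)) +
      455 * (Lc + ((9 * x - 1) - (9 * c - 1)) / (9 * c - 1) -
        ((9 * x - 1) - (9 * c - 1)) ^ 2 / (2 * (9 * r - 1) ^ 2)) := by
  have h1 := log_quad (t := x) (t0 := c) (tm := r) (by linarith) (by linarith) hr hcr
  have h2 := log_quad (t := 1 - x) (t0 := 1 - c) (tm := 1 - l) (by linarith) (by linarith)
    (by linarith) (by linarith)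
  have h3 := log_quad (t := 9 * x - 1) (t0 := 9 * c - 1) (tm := 9 * r - 1) (by linarith)
    (by linarith) (by linarith) (by linarith)
  linarith

private theorem maj2_i1 {x : ℝ} (hx0 : 1 / 9 < x) (hx1 : x < 1) (hl : 1 / 9 ≤ x) (hr : x ≤ 12 / 25) :
    912 * Real.log x + 497 * Real.log (1 - x) + 455 * Real.log (9 * x - 1) ≤
      1000 * (A2 - q2 * (x - y1) ^ 2) := by
  have l436 := maj2_lg 436 26103274656 26103274683 (by norm_num) (by decide +kernel)
  have l564 := maj2_lg 564 27208850811 27208850841 (by norm_num) (by decide +kernel)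
  have l2924 := maj2_lg 2924 34276879068 34276879104 (by norm_num) (by decide +kernel)
  have l1000 := maj2_lg 1000 29668582994 29668583024 (by norm_num) (by decide +kernel)
  push_cast at l436 l564 l2924 l1000
  have ha : Real.log (436 / 1000 : ℝ) ≤ -830113 / 1000000 := by
    rw [Real.log_div (by norm_num) (by norm_num)]
    linarith [l436.2, l1000.1]
  have hb : Real.log (1 - 436 / 1000 : ℝ) ≤ -57270099 / 100000000 := by
    have e : (1 - 436 / 1000 : ℝ) = 564 / 1000 := by norm_num
    rw [e, Real.log_div (by norm_num) (by norm_num)]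
    linarith [l564.2, l1000.1]
  have hc : Real.log (9 * (436 / 1000 : ℝ) - 1) ≤ 53647629 / 50000000 := by
    have e : 9 * (436 / 1000 : ℝ) - 1 = 2924 / 1000 := by norm_num
    rw [e, Real.log_div (by norm_num) (by norm_num)]
    linarith [l2924.2, l1000.1]
  have h := maj2_gen (c := 436 / 1000) hx0 hx1 hl hr (by norm_num) (by norm_num) (by norm_num)
    (by norm_num) ha hb hc
  unfold A2 q2 y1
  have e : 1000 * (-(15529 / 100000) - 83 / 20 * (x - 2326 / 3125) ^ 2) - (912 * (-830113 / 1000000 + (x - (436 / 1000)) / (436 / 1000) - (x - (436 / 1000)) ^ 2 / (2 * (12 / 25) ^ 2)) +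
      497 * (-57270099 / 100000000 + ((1 - x) - (1 - (436 / 1000))) / (1 - (436 / 1000)) -
        ((1 - x) - (1 - (436 / 1000))) ^ 2 / (2 * (1 - 1 / 9) ^ 2)) +
      455 * (53647629 / 50000000 + ((9 * x - 1) - (9 * (436 / 1000) - 1)) / (9 * (436 / 1000) - 1) -
        ((9 * x - 1) - (9 * (436 / 1000) - 1)) ^ 2 / (2 * (9 * (12 / 25) - 1) ^ 2))) =
      488078981 / 2645376 * ((x - 1 / 9) * (12 / 25 - x)) + 49433054711569409067 / 17130340556248000000 * (x - 1 / 9) +
      1911570094806809339 / 632721197016000000 * (12 / 25 - x) := by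
    ring
  have p1 := mul_nonneg (sub_nonneg.2 hl) (sub_nonneg.2 hr)
  have p2 := sub_nonneg.2 hl
  have p3 := sub_nonneg.2 hr
  linarith [mul_nonneg (by norm_num : (0 : ℝ) ≤ 488078981 / 2645376) p1,
    mul_nonneg (by norm_num : (0 : ℝ) ≤ 49433054711569409067 / 17130340556248000000) p2,
    mul_nonneg (by norm_num : (0 : ℝ) ≤ 1911570094806809339 / 632721197016000000) p3]

private theorem maj2_i2 {x : ℝ} (hx0 : 1 / 9 < x) (hx1 : x < 1) (hl : 12 / 25 ≤ x) (hr : x ≤ 61 / 100) :
    912 * Real.log x + 497 * Real.log (1 - x) + 455 * Real.log (9 * x - 1) ≤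
      1000 * (A2 - q2 * (x - y1) ^ 2) := by
  have l532 := maj2_lg 532 26957978497 26957978527 (by norm_num) (by decide +kernel)
  have l468 := maj2_lg 468 26407470235 26407470262 (by norm_num) (by decide +kernel)
  have l3788 := maj2_lg 3788 35388784397 35388784433 (by norm_num) (by decide +kernel)
  have l1000 := maj2_lg 1000 29668582994 29668583024 (by norm_num) (by decide +kernel)
  push_cast at l532 l468 l3788 l1000
  have ha : Real.log (532 / 1000 : ℝ) ≤ -2524447 / 4000000 := by
    rw [Real.log_div (by norm_num) (by norm_num)]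
    linarith [l532.2, l1000.1]
  have hb : Real.log (1 - 532 / 1000 : ℝ) ≤ -15185739 / 20000000 := by
    have e : (1 - 532 / 1000 : ℝ) = 468 / 1000 := by norm_num
    rw [e, Real.log_div (by norm_num) (by norm_num)]
    linarith [l468.2, l1000.1]
  have hc : Real.log (9 * (532 / 1000 : ℝ) - 1) ≤ 133183821 / 100000000 := by
    have e : 9 * (532 / 1000 : ℝ) - 1 = 3788 / 1000 := by norm_num
    rw [e, Real.log_div (by norm_num) (by norm_num)]
    linarith [l3788.2, l1000.1]
  have h := maj2_gen (c := 532 / 1000) hx0 hx1 hl hr (by norm_num) (by norm_num) (by norm_num)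
    (by norm_num) ha hb hc
  unfold A2 q2 y1
  have e : 1000 * (-(15529 / 100000) - 83 / 20 * (x - 2326 / 3125) ^ 2) - (912 * (-2524447 / 4000000 + (x - (532 / 1000)) / (532 / 1000) - (x - (532 / 1000)) ^ 2 / (2 * (61 / 100) ^ 2)) +
      497 * (-15185739 / 20000000 + ((1 - x) - (1 - (532 / 1000))) / (1 - (532 / 1000)) -
        ((1 - x) - (1 - (532 / 1000))) ^ 2 / (2 * (1 - 12 / 25) ^ 2)) +
      455 * (133183821 / 100000000 + ((9 * x - 1) - (9 * (532 / 1000) - 1)) / (9 * (532 / 1000) - 1) -
        ((9 * x - 1) - (9 * (532 / 1000) - 1)) ^ 2 / (2 * (9 * (61 / 100) - 1) ^ 2))) =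
      276742168101075 / 253553174498 * ((x - 12 / 25) * (61 / 100 - x)) + 72765293320454620007 / 48484730588862750000 * (x - 12 / 25) +
      143702374386679661771 / 145454191766588250000 * (61 / 100 - x) := by
    ring
  have p1 := mul_nonneg (sub_nonneg.2 hl) (sub_nonneg.2 hr)
  have p2 := sub_nonneg.2 hl
  have p3 := sub_nonneg.2 hr
  linarith [mul_nonneg (by norm_num : (0 : ℝ) ≤ 276742168101075 / 253553174498) p1,
    mul_nonneg (by norm_num : (0 : ℝ) ≤ 72765293320454620007 / 48484730588862750000) p2,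
    mul_nonneg (by norm_num : (0 : ℝ) ≤ 143702374386679661771 / 145454191766588250000) p3]

private theorem maj2_i3 {x : ℝ} (hx0 : 1 / 9 < x) (hx1 : x < 1) (hl : 61 / 100 ≤ x) (hr : x ≤ 71 / 100) :
    912 * Real.log x + 497 * Real.log (1 - x) + 455 * Real.log (9 * x - 1) ≤
      1000 * (A2 - q2 * (x - y1) ^ 2) := by
  have l687 := maj2_lg 687 28056162134 28056162164 (by norm_num) (by decide +kernel)
  have l313 := maj2_lg 313 24679754763 24679754790 (by norm_num) (by decide +kernel)
  have l5183 := maj2_lg 5183 36735453626 36735453665 (by norm_num) (by decide +kernel)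
  have l1000 := maj2_lg 1000 29668582994 29668583024 (by norm_num) (by decide +kernel)
  push_cast at l687 l313 l5183 l1000
  have ha : Real.log (687 / 1000 : ℝ) ≤ -7508419 / 20000000 := by
    rw [Real.log_div (by norm_num) (by norm_num)]
    linarith [l687.2, l1000.1]
  have hb : Real.log (1 - 687 / 1000 : ℝ) ≤ -23231041 / 20000000 := by
    have e : (1 - 687 / 1000 : ℝ) = 313 / 1000 := by norm_num
    rw [e, Real.log_div (by norm_num) (by norm_num)]
    linarith [l313.2, l1000.1]
  have hc : Real.log (9 * (687 / 1000 : ℝ) - 1) ≤ 164538407 / 100000000 := by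
    have e : 9 * (687 / 1000 : ℝ) - 1 = 5183 / 1000 := by norm_num
    rw [e, Real.log_div (by norm_num) (by norm_num)]
    linarith [l5183.2, l1000.1]
  have h := maj2_gen (c := 687 / 1000) hx0 hx1 hl hr (by norm_num) (by norm_num) (by norm_num)
    (by norm_num) ha hb hc
  unfold A2 q2 y1
  have e : 1000 * (-(15529 / 100000) - 83 / 20 * (x - 2326 / 3125) ^ 2) - (912 * (-7508419 / 20000000 + (x - (687 / 1000)) / (687 / 1000) - (x - (687 / 1000)) ^ 2 / (2 * (71 / 100) ^ 2)) +
      497 * (-23231041 / 20000000 + ((1 - x) - (1 - (687 / 1000))) / (1 - (687 / 1000)) -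
        ((1 - x) - (1 - (687 / 1000))) ^ 2 / (2 * (1 - 61 / 100) ^ 2)) +
      455 * (164538407 / 100000000 + ((9 * x - 1) - (9 * (687 / 1000) - 1)) / (9 * (687 / 1000) - 1) -
        ((9 * x - 1) - (9 * (687 / 1000) - 1)) ^ 2 / (2 * (9 * (71 / 100) - 1) ^ 2))) =
      311005273109450 / 318218483583 * ((x - 61 / 100) * (71 / 100 - x)) + 14229670799199922260577423 / 4162632690219611107500000 * (x - 61 / 100) +
      3244262834809151730487 / 702080062442167500000 * (71 / 100 - x) := by
    ring
  have p1 := mul_nonneg (sub_nonneg.2 hl) (sub_nonneg.2 hr)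
  have p2 := sub_nonneg.2 hl
  have p3 := sub_nonneg.2 hr
  linarith [mul_nonneg (by norm_num : (0 : ℝ) ≤ 311005273109450 / 318218483583) p1,
    mul_nonneg (by norm_num : (0 : ℝ) ≤ 14229670799199922260577423 / 4162632690219611107500000) p2,
    mul_nonneg (by norm_num : (0 : ℝ) ≤ 3244262834809151730487 / 702080062442167500000) p3]

private theorem maj2_i4 {x : ℝ} (hx0 : 1 / 9 < x) (hx1 : x < 1) (hl : 71 / 100 ≤ x) (hr : x ≤ 79 / 100) :
    912 * Real.log x + 497 * Real.log (1 - x) + 455 * Real.log (9 * x - 1) ≤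
      1000 * (A2 - q2 * (x - y1) ^ 2) := by
  have l74432 := maj2_lg 74432 48179402216 48179402267 (by norm_num) (by decide +kernel)
  have l25568 := maj2_lg 25568 43590039022 43590039067 (by norm_num) (by decide +kernel)
  have l569888 := maj2_lg 569888 56922039612 56922039672 (by norm_num) (by decide +kernel)
  have l100000 := maj2_lg 100000 49447638323 49447638374 (by norm_num) (by decide +kernel)
  push_cast at l74432 l25568 l569888 l100000
  have ha : Real.log (74432 / 100000 : ℝ) ≤ -29528419 / 100000000 := by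
    rw [Real.log_div (by norm_num) (by norm_num)]
    linarith [l74432.2, l100000.1]
  have hb : Real.log (1 - 74432 / 100000 : ℝ) ≤ -68191429 / 50000000 := by
    have e : (1 - 74432 / 100000 : ℝ) = 25568 / 100000 := by norm_num
    rw [e, Real.log_div (by norm_num) (by norm_num)]
    linarith [l25568.2, l100000.1]
  have hc : Real.log (9 * (74432 / 100000 : ℝ) - 1) ≤ 17402697 / 10000000 := by
    have e : 9 * (74432 / 100000 : ℝ) - 1 = 569888 / 100000 := by norm_num
    rw [e, Real.log_div (by norm_num) (by norm_num)]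
    linarith [l569888.2, l100000.1]
  have h := maj2_gen (c := 74432 / 100000) hx0 hx1 hl hr (by norm_num) (by norm_num) (by norm_num)
    (by norm_num) ha hb hc
  unfold A2 q2 y1
  have e : 1000 * (-(15529 / 100000) - 83 / 20 * (x - 2326 / 3125) ^ 2) - (912 * (-29528419 / 100000000 + (x - (74432 / 100000)) / (74432 / 100000) - (x - (74432 / 100000)) ^ 2 / (2 * (79 / 100) ^ 2)) +
      497 * (-68191429 / 50000000 + ((1 - x) - (1 - (74432 / 100000))) / (1 - (74432 / 100000)) -
        ((1 - x) - (1 - (74432 / 100000))) ^ 2 / (2 * (1 - 71 / 100) ^ 2)) +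
      455 * (17402697 / 10000000 + ((9 * x - 1) - (9 * (74432 / 100000) - 1)) / (9 * (74432 / 100000) - 1) -
        ((9 * x - 1) - (9 * (74432 / 100000) - 1)) ^ 2 / (2 * (9 * (79 / 100) - 1) ^ 2))) =
      4382805090450 / 150726372277 * (x - 71798719823337353580676 / 96449580877843580784375) ^ 2 + 2518958136288941923451545840205089 / 271680521223278970913323372225000000 := by
    ring
  linarith [mul_nonneg (by norm_num : (0 : ℝ) ≤ 4382805090450 / 150726372277) (sq_nonneg (x - 71798719823337353580676 / 96449580877843580784375))]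

private theorem maj2_i5 {x : ℝ} (hx0 : 1 / 9 < x) (hx1 : x < 1) (hl : 79 / 100 ≤ x) (hr : x ≤ 1) :
    912 * Real.log x + 497 * Real.log (1 - x) + 455 * Real.log (9 * x - 1) ≤
      1000 * (A2 - q2 * (x - y1) ^ 2) := by
  have l791 := maj2_lg 791 28661596510 28661596540 (by norm_num) (by decide +kernel)
  have l209 := maj2_lg 209 22945150882 22945150906 (by norm_num) (by decide +kernel)
  have l6119 := maj2_lg 6119 37448481099 37448481138 (by norm_num) (by decide +kernel)
  have l1000 := maj2_lg 1000 29668582994 29668583024 (by norm_num) (by decide +kernel)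
  push_cast at l791 l209 l6119 l1000
  have ha : Real.log (791 / 1000 : ℝ) ≤ -732679 / 3125000 := by
    rw [Real.log_div (by norm_num) (by norm_num)]
    linarith [l791.2, l1000.1]
  have hb : Real.log (1 - 791 / 1000 : ℝ) ≤ -156542099 / 100000000 := by
    have e : (1 - 791 / 1000 : ℝ) = 209 / 1000 := by norm_num
    rw [e, Real.log_div (by norm_num) (by norm_num)]
    linarith [l209.2, l1000.1]
  have hc : Real.log (9 * (791 / 1000 : ℝ) - 1) ≤ 5660621 / 3125000 := by
    have e : 9 * (791 / 1000 : ℝ) - 1 = 6119 / 1000 := by norm_num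
    rw [e, Real.log_div (by norm_num) (by norm_num)]
    linarith [l6119.2, l1000.1]
  have h := maj2_gen (c := 791 / 1000) hx0 hx1 hl hr (by norm_num) (by norm_num) (by norm_num)
    (by norm_num) ha hb hc
  unfold A2 q2 y1
  have e : 1000 * (-(15529 / 100000) - 83 / 20 * (x - 2326 / 3125) ^ 2) - (912 * (-732679 / 3125000 + (x - (791 / 1000)) / (791 / 1000) - (x - (791 / 1000)) ^ 2 / (2 * (1) ^ 2)) +
      497 * (-156542099 / 100000000 + ((1 - x) - (1 - (791 / 1000))) / (1 - (791 / 1000)) -
        ((1 - x) - (1 - (791 / 1000))) ^ 2 / (2 * (1 - 79 / 100) ^ 2)) +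
      455 * (5660621 / 3125000 + ((9 * x - 1) - (9 * (791 / 1000) - 1)) / (9 * (791 / 1000) - 1) -
        ((9 * x - 1) - (9 * (791 / 1000) - 1)) ^ 2 / (2 * (9 * (1) - 1) ^ 2))) =
      17973449 / 8064 * (x - 79 / 100) ^ 2 + 95494928045157089 / 582674089536000 * (x - 79 / 100) + 91881619941673526119 / 29133704476800000000 := by
    ring
  have p2 := sub_nonneg.2 hl
  linarith [mul_nonneg (by norm_num : (0 : ℝ) ≤ 17973449 / 8064) (sq_nonneg (x - 79 / 100)),
    mul_nonneg (by norm_num : (0 : ℝ) ≤ 95494928045157089 / 582674089536000) p2]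

theorem maj_two {x : ℝ} (h0 : 1 / 9 < x) (h1 : x < 1) :
    912 * Real.log x + 497 * Real.log (1 - x) + 455 * Real.log (9 * x - 1) ≤
      1000 * (A2 - q2 * (x - y1) ^ 2) := by
  rcases le_total x (12 / 25) with g1 | g1
  · exact maj2_i1 h0 h1 h0.le g1
  rcases le_total x (61 / 100) with g2 | g2
  · exact maj2_i2 h0 h1 g1 g2
  rcases le_total x (71 / 100) with g3 | g3
  · exact maj2_i3 h0 h1 g2 g3
  rcases le_total x (79 / 100) with g4 | g4
  · exact maj2_i4 h0 h1 g3 g4
  exact maj2_i5 h0 h1 g4 h1.le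

end Pool.TH
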