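import Pool.Agent.Lib.TH.Defs

/-!
# TH.Mono (size 130): `GG` decreases in both degrees

`GG lM lE N i' j' ≤ GG lM lE N i j` for `i ≤ i'`, `j ≤ j'`, `i' + j' ≤ 55 N`.

PROOF. Steps by one (`Nat.le_induction` twice). With `Q1 = 220000 N`, `Q2 = 4150 N`,
`d1² = 0.4506..`:
`LB1(i+1, j) - LB1(i, j) = 2 j/(Q2 d1²) + log (i+1) - log (2 Q1)`; `i + 1 ≤ 55 N`, so
`log ((i+1)/(440000 N)) ≤ log (1/8000) ≤ -8`, `2 j/(Q2 d1²) ≤ 110/(4150*0.45) ≤ 0.06`.
`LB1(i, j+1) - LB1(i, j) = 2 log d1 + 2 i/(Q2 d1²) + (2 j + 1)/(Q1 d1²)`;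
`log d1 ≤ d1 - 1 ≤ -0.32`, the others `≤ 0.06`, `≤ 0.01`.
`LB2(i+1, j) - LB2(i, j) = 2 log d1 + 2 j/(Q1 d1²) + (2 i + 1)/(Q2 d1²) < 0`.
`LB2(i, j+1) - LB2(i, j) = 2 i/(Q1 d1²) + log (j+1) - log (2 Q2)`, `(j+1)/(8300 N) ≤ 56/8300`.
(`Nat.factorial_succ`, `Real.log_mul`.) All differences are negative; `max_le_max`.
-/

namespace Pool.TH

private lemma logfac (i : ℕ) :
    Real.log ((i + 1).factorial) = Real.log ((i : ℝ) + 1) + Real.log (i.factorial) := by
  rw [Nat.factorial_succ]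
  push_cast
  rw [Real.log_mul]
  · positivity
  · exact_mod_cast Nat.factorial_ne_zero i

private lemma logstep {x Q : ℝ} (hx : 0 < x) (hQ : 0 < Q) (h : 50 * x ≤ Q) :
    Real.log x - Real.log Q ≤ - (49 / 50) := by
  rw [← Real.log_div hx.ne' hQ.ne']
  have h1 := Real.log_le_sub_one_of_pos (div_pos hx hQ)
  have h2 : x / Q ≤ 1 / 50 := by
    rw [div_le_div_iff₀ hQ (by norm_num)]
    linarith
  linarith

private lemma logd : Real.log d1 ≤ - (8 / 25) := by
  have h1 := Real.log_le_sub_one_of_pos (show (0 : ℝ) < d1 by unfold d1; norm_num)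
  have h2 : d1 - 1 ≤ - (8 / 25) := by unfold d1; norm_num
  linarith

/-- the two small constants -/
private lemma consts {N : ℕ} (hN : 1 ≤ N) {x : ℝ} (hx : x ≤ 110 * N) :
    x / (q2 * (1000 * N) * d1 ^ 2) ≤ 3 / 50 ∧ x / (q1 * (1000 * N) * d1 ^ 2) ≤ 1 / 100 := by
  have hN' : (1 : ℝ) ≤ N := by exact_mod_cast hN
  have hd : d1 ^ 2 = 70408881 / 156250000 := by unfold d1; norm_num
  constructor
  · rw [hd, div_le_iff₀ (by unfold q2; positivity)]
    unfold q2
    linarith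
  · rw [hd, div_le_iff₀ (by unfold q1; positivity)]
    unfold q1
    linarith

private lemma LB1_i {N i j : ℕ} (hN : 1 ≤ N) (h : i + 1 + j ≤ 55 * N) :
    LB1 N (i + 1) j ≤ LB1 N i j := by
  have hN' : (1 : ℝ) ≤ N := by exact_mod_cast hN
  have h' : (i : ℝ) + 1 + j ≤ 55 * N := by exact_mod_cast h
  have hi0 : (0 : ℝ) ≤ i := Nat.cast_nonneg i
  have hj0 : (0 : ℝ) ≤ j := Nat.cast_nonneg j
  have e1 := (consts hN (x := 2 * j) (by linarith)).1
  have e2 : Real.log ((i : ℝ) + 1) - Real.log (2 * q1 * (1000 * N)) ≤ - (49 / 50) :=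
    logstep (by linarith) (by unfold q1; positivity) (by unfold q1; linarith)
  have key : LB1 N (i + 1) j - LB1 N i j = 2 * j / (q2 * (1000 * N) * d1 ^ 2)
      + (Real.log ((i : ℝ) + 1) - Real.log (2 * q1 * (1000 * N))) := by
    unfold LB1
    rw [logfac]
    push_cast
    ring
  linarith

private lemma LB1_j {N i j : ℕ} (hN : 1 ≤ N) (h : i + (j + 1) ≤ 55 * N) :
    LB1 N i (j + 1) ≤ LB1 N i j := by
  have hN' : (1 : ℝ) ≤ N := by exact_mod_cast hN
  have h' : (i : ℝ) + (j + 1) ≤ 55 * N := by exact_mod_cast h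
  have hi0 : (0 : ℝ) ≤ i := Nat.cast_nonneg i
  have hj0 : (0 : ℝ) ≤ j := Nat.cast_nonneg j
  have e1 := (consts hN (x := 2 * i) (by linarith)).1
  have e2 := (consts hN (x := 2 * j + 1) (by linarith)).2
  have e3 := logd
  have key : LB1 N i (j + 1) - LB1 N i j = 2 * Real.log d1
      + 2 * i / (q2 * (1000 * N) * d1 ^ 2) + (2 * j + 1) / (q1 * (1000 * N) * d1 ^ 2) := by
    unfold LB1
    push_cast
    ring
  linarith

private lemma LB2_i {N i j : ℕ} (hN : 1 ≤ N) (h : i + 1 + j ≤ 55 * N) :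
    LB2 N (i + 1) j ≤ LB2 N i j := by
  have hN' : (1 : ℝ) ≤ N := by exact_mod_cast hN
  have h' : (i : ℝ) + 1 + j ≤ 55 * N := by exact_mod_cast h
  have hi0 : (0 : ℝ) ≤ i := Nat.cast_nonneg i
  have hj0 : (0 : ℝ) ≤ j := Nat.cast_nonneg j
  have e1 := (consts hN (x := 2 * j) (by linarith)).2
  have e2 := (consts hN (x := 2 * i + 1) (by linarith)).1
  have e3 := logd
  have key : LB2 N (i + 1) j - LB2 N i j = 2 * Real.log d1
      + 2 * j / (q1 * (1000 * N) * d1 ^ 2) + (2 * i + 1) / (q2 * (1000 * N) * d1 ^ 2) := by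
    unfold LB2
    push_cast
    ring
  linarith

private lemma LB2_j {N i j : ℕ} (hN : 1 ≤ N) (h : i + (j + 1) ≤ 55 * N) :
    LB2 N i (j + 1) ≤ LB2 N i j := by
  have hN' : (1 : ℝ) ≤ N := by exact_mod_cast hN
  have h' : (i : ℝ) + (j + 1) ≤ 55 * N := by exact_mod_cast h
  have hi0 : (0 : ℝ) ≤ i := Nat.cast_nonneg i
  have hj0 : (0 : ℝ) ≤ j := Nat.cast_nonneg j
  have e1 := (consts hN (x := 2 * i) (by linarith)).2
  have e2 : Real.log ((j : ℝ) + 1) - Real.log (2 * q2 * (1000 * N)) ≤ - (49 / 50) :=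
    logstep (by linarith) (by unfold q2; positivity) (by unfold q2; linarith)
  have key : LB2 N i (j + 1) - LB2 N i j = 2 * i / (q1 * (1000 * N) * d1 ^ 2)
      + (Real.log ((j : ℝ) + 1) - Real.log (2 * q2 * (1000 * N))) := by
    unfold LB2
    rw [logfac]
    push_cast
    ring
  linarith

private lemma GG_i {lM lE : ℝ} {N i j : ℕ} (hN : 1 ≤ N) (h : i + 1 + j ≤ 55 * N) :
    GG lM lE N (i + 1) j ≤ GG lM lE N i j := by
  unfold GG
  have h1 := LB1_i hN h
  have h2 := LB2_i hN h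
  have h3 : max (lM + LB1 N (i + 1) j) (lE + LB2 N (i + 1) j)
      ≤ max (lM + LB1 N i j) (lE + LB2 N i j) := max_le_max (by linarith) (by linarith)
  linarith

private lemma GG_j {lM lE : ℝ} {N i j : ℕ} (hN : 1 ≤ N) (h : i + (j + 1) ≤ 55 * N) :
    GG lM lE N i (j + 1) ≤ GG lM lE N i j := by
  unfold GG
  have h1 := LB1_j hN h
  have h2 := LB2_j hN h
  have h3 : max (lM + LB1 N i (j + 1)) (lE + LB2 N i (j + 1))
      ≤ max (lM + LB1 N i j) (lE + LB2 N i j) := max_le_max (by linarith) (by linarith)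
  linarith

theorem GG_mono {lM lE : ℝ} {N i j i' j' : ℕ} (hN : 1 ≤ N) (hi : i ≤ i') (hj : j ≤ j')
    (h : i' + j' ≤ 55 * N) : GG lM lE N i' j' ≤ GG lM lE N i j := by
  have h1 : GG lM lE N i' j' ≤ GG lM lE N i j' := by
    induction i', hi using Nat.le_induction with
    | base => exact le_rfl
    | succ n hn ih => exact (GG_i hN h).trans (ih (by omega))
  have h2 : GG lM lE N i j' ≤ GG lM lE N i j := by
    clear h1
    have h' : i + j' ≤ 55 * N := by omega
    clear h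
    induction j', hj using Nat.le_induction with
    | base => exact le_rfl
    | succ n hn ih => exact (GG_j hN h').trans (ih (by omega))
  exact h1.trans h2

end Pool.TH
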