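import Pool.Agent.Lib.TH.HermB
import Pool.Agent.Lib.TH.Maj1

/-!
# TH.Nrm1 (size 180): the norm on `(0, 1/9)`

`∫_0^{1/9} (Pp N i j)² w ≤ exp (LB1 N i j)` for `N ≥ 1`, `i + j ≤ 55 N`.

PROOF. Put `n = 1000 N`, `Q1 = q1 n = 220000 N`, `Q2 = q2 n = 4150 N`. For `0 < x < 1/9`:
(a) `w(x) = exp (N (912 log x + 497 log (1-x) + 455 log (1-9x))) ≤ exp (n (A1 - q1 (x - x1)²))`
    (`maj_one`; `x^(912 N) = exp (912 N log x)`: `Real.exp_log`, `Real.exp_nat_mul`).
(b) `|He Q2 j (x - ys)| ≤ |x - ys|^j` by `He_le`: `ys ≥ y1`, `|x - ys| ≥ y1 - 1/9 ≥ 0.633`,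
    `2 Q2 (x - ys)² ≥ 8300 N * 0.4 ≥ 3320 N ≥ 4 j`.
(c) `ys - x ≤ d1 exp ((ys - x - d1)/d1)` (`Real.add_one_le_exp`), and
    `ys - x - d1 = i/(Q2 d1) - (x - x1)` because `y1 - x1 = d1`. So
    `|x - ys|^(2j) ≤ d1^(2j) exp (2 i j/(Q2 d1²)) exp (- 2 j (x - x1)/d1)`.
(d) `-Q1 (x - x1)² - 2 j (x - x1)/d1 = -Q1 (x - xs)² + j²/(Q1 d1²)`, `x - xs = (x - x1) + j/(Q1 d1)`.
Hence `(Pp)² w ≤ K (He Q1 i (x - xs))² exp (-Q1 (x - xs)²)`,
`K = exp (n A1) d1^(2j) exp (2 i j/(Q2 d1²)) exp (j²/(Q1 d1²))`. Integrate: the integral over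
`(0, 1/9)` of the right side is at most the one over `ℝ` (`setIntegral_le_integral`,
`poly_gauss_integrable`, `integral_sub_right_eq_self`), `= K √(π/Q1) i!/(2 Q1)^i` by `He_int`, and
`√(π/Q1) ≤ 1`. Finally `K i!/(2 Q1)^i = exp (LB1 N i j)` (`Real.exp_log`, `Real.exp_add`).
-/

namespace Pool.TH

open Polynomial MeasureTheory

private lemma Nrm1_pow {t : ℝ} (ht : 0 < t) (k : ℕ) : t ^ k = Real.exp (k * Real.log t) := by
  rw [Real.exp_nat_mul, Real.exp_log ht]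

private lemma Nrm1_w {N : ℕ} {x : ℝ} (h0 : 0 < x) (h1 : x < 1 / 9) :
    wr N x ≤ Real.exp (1000 * N * (A1 - q1 * (x - x1) ^ 2)) := by
  have hx1 : 0 < 1 - x := by linarith
  have hx9 : 0 < 1 - 9 * x := by linarith
  have e : wr N x = Real.exp (N * (912 * Real.log x + 497 * Real.log (1 - x) +
      455 * Real.log (1 - 9 * x))) := by
    unfold wr
    rw [Nrm1_pow h0, Nrm1_pow hx1, Nrm1_pow hx9, ← Real.exp_add, ← Real.exp_add]
    congr 1
    push_cast
    ring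
  rw [e]
  refine Real.exp_le_exp.mpr ?_
  have h2 := mul_le_mul_of_nonneg_left (maj_one h0 h1) (Nat.cast_nonneg (α := ℝ) N)
  refine h2.trans (le_of_eq ?_)
  ring

private lemma Nrm1_wpos {N : ℕ} {x : ℝ} (h0 : 0 < x) (h1 : x < 1 / 9) : 0 ≤ wr N x := by
  have hx1 : 0 < 1 - x := by linarith
  have hx9 : 0 < 1 - 9 * x := by linarith
  unfold wr
  positivity

private lemma Nrm1_alg (n q1 q2 d A Y i j L : ℝ) (hn : n ≠ 0) (h1 : q1 ≠ 0) (h2 : q2 ≠ 0)
    (hd : d ≠ 0) :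
    n * (A - q1 * Y ^ 2) + 2 * (j * L) + 2 * (j * ((i / (q2 * n * d) - Y) / d)) =
      n * A + 2 * j * L + 2 * i * j / (q2 * n * d ^ 2) + j ^ 2 / (q1 * n * d ^ 2) -
        q1 * n * (Y + j / (q1 * n * d)) ^ 2 := by
  field_simp
  ring

private lemma Nrm1_X {N i j : ℕ} (hN : 1 ≤ N) (hij : i + j ≤ 55 * N) {x : ℝ}
    (h1 : x < 1 / 9) :
    (He (q2 * (1000 * N)) j).eval (x - ys N i) ^ 2 ≤
      Real.exp (2 * (j * Real.log d1) +
        2 * (j * ((i / (q2 * (1000 * N) * d1) - (x - x1)) / d1))) := by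
  have hN' : (1 : ℝ) ≤ N := by exact_mod_cast hN
  have hd1 : (0 : ℝ) < d1 := by norm_num [d1]
  have hq2 : (0 : ℝ) < q2 := by norm_num [q2]
  have hQ : 0 < q2 * (1000 * (N : ℝ)) := by positivity
  have hi : (i : ℝ) + j ≤ 55 * N := by exact_mod_cast hij
  have hi0 : (0 : ℝ) ≤ i := Nat.cast_nonneg i
  have hu : 0 ≤ (i : ℝ) / (q2 * (1000 * N) * d1) := by positivity
  have hX : (633 : ℝ) / 1000 ≤ ys N i - x := by
    unfold ys
    have : (y1 : ℝ) = 2326 / 3125 := rfl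
    linarith
  have hX0 : 0 < ys N i - x := by linarith
  have hb : |(He (q2 * (1000 * N)) j).eval (x - ys N i)| ≤ |x - ys N i| ^ j := by
    refine He_le hQ j _ ?_
    have h2 : ((633 : ℝ) / 1000) ^ 2 ≤ (x - ys N i) ^ 2 := by
      have h3 := pow_le_pow_left₀ (by norm_num) hX 2
      refine h3.trans (le_of_eq ?_)
      ring
    have h3 : 2 * (q2 * (1000 * (N : ℝ))) * ((633 : ℝ) / 1000) ^ 2 ≤
        2 * (q2 * (1000 * (N : ℝ))) * (x - ys N i) ^ 2 :=
      mul_le_mul_of_nonneg_left h2 (by positivity)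
    refine le_trans ?_ h3
    have h4 : q2 = 83 / 20 := rfl
    rw [h4]
    nlinarith
  have hc : ys N i - x ≤ d1 * Real.exp ((i / (q2 * (1000 * N) * d1) - (x - x1)) / d1) := by
    have h2 := Real.add_one_le_exp ((i / (q2 * (1000 * N) * d1) - (x - x1)) / d1)
    have h3 := mul_le_mul_of_nonneg_left h2 hd1.le
    refine le_trans (le_of_eq ?_) h3
    have h4 : d1 = y1 - x1 := by norm_num [d1, y1, x1]
    rw [mul_add, mul_div_cancel₀ _ hd1.ne']
    unfold ys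
    rw [mul_one]
    nth_rewrite 3 [h4]
    ring
  rw [← sq_abs]
  have h5 : |(He (q2 * (1000 * N)) j).eval (x - ys N i)| ≤
      (d1 * Real.exp ((i / (q2 * (1000 * N) * d1) - (x - x1)) / d1)) ^ j := by
    refine hb.trans ?_
    rw [abs_sub_comm, abs_of_pos hX0]
    exact pow_le_pow_left₀ hX0.le hc j
  refine (pow_le_pow_left₀ (abs_nonneg _) h5 2).trans (le_of_eq ?_)
  rw [mul_pow, Nrm1_pow hd1, ← Real.exp_nat_mul, ← Real.exp_add, ← Real.exp_nat_mul]
  congr 1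
  push_cast
  ring

/-- logarithm of the constant -/
private noncomputable def Nrm1_E (N i j : ℕ) : ℝ :=
  1000 * N * A1 + 2 * j * Real.log d1 + 2 * i * j / (q2 * (1000 * N) * d1 ^ 2)
    + j ^ 2 / (q1 * (1000 * N) * d1 ^ 2)

private lemma Nrm1_pt {N i j : ℕ} (hN : 1 ≤ N) (hij : i + j ≤ 55 * N) {x : ℝ}
    (h0 : 0 < x) (h1 : x < 1 / 9) :
    (Pp N i j).eval x ^ 2 * wr N x ≤
      Real.exp (Nrm1_E N i j) * ((He (q1 * (1000 * N)) i).eval (x - xs N j) ^ 2 *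
        Real.exp (-(q1 * (1000 * N)) * (x - xs N j) ^ 2)) := by
  have hN' : (1 : ℝ) ≤ N := by exact_mod_cast hN
  have e1 : (Pp N i j).eval x = (He (q1 * (1000 * N)) i).eval (x - xs N j) *
      (He (q2 * (1000 * N)) j).eval (x - ys N i) := by
    simp [Pp]
  rw [e1, mul_pow]
  set H1 := (He (q1 * (1000 * (N : ℝ))) i).eval (x - xs N j) ^ 2 with hH1
  set H2 := (He (q2 * (1000 * (N : ℝ))) j).eval (x - ys N i) ^ 2 with hH2
  have hH10 : 0 ≤ H1 := sq_nonneg _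
  have h2 : H2 * wr N x ≤ Real.exp (Nrm1_E N i j) *
      Real.exp (-(q1 * (1000 * N)) * (x - xs N j) ^ 2) := by
    refine (mul_le_mul (Nrm1_X hN hij h1) (Nrm1_w h0 h1) (Nrm1_wpos h0 h1)
      (Real.exp_pos _).le).trans (le_of_eq ?_)
    rw [← Real.exp_add, ← Real.exp_add]
    congr 1
    have h3 := Nrm1_alg (1000 * (N : ℝ)) q1 q2 d1 A1 (x - x1) i j (Real.log d1) (by positivity)
      (by norm_num [q1]) (by norm_num [q2]) (by norm_num [d1])
    unfold Nrm1_E xs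
    linear_combination h3
  calc H1 * H2 * wr N x = H1 * (H2 * wr N x) := by ring
    _ ≤ H1 * (Real.exp (Nrm1_E N i j) *
      Real.exp (-(q1 * (1000 * N)) * (x - xs N j) ^ 2)) := mul_le_mul_of_nonneg_left h2 hH10
    _ = _ := by ring

theorem nrm_one {N i j : ℕ} (hN : 1 ≤ N) (hij : i + j ≤ 55 * N) :
    ∫ x in (0 : ℝ)..(1 / 9), (Pp N i j).eval x ^ 2 * wr N x ≤ Real.exp (LB1 N i j) := by
  have hN' : (1 : ℝ) ≤ N := by exact_mod_cast hN
  have hq1 : (0 : ℝ) < q1 := by norm_num [q1]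
  have hQ : 0 < q1 * (1000 * (N : ℝ)) := by positivity
  set Q : ℝ := q1 * (1000 * (N : ℝ)) with hQd
  set G : ℝ → ℝ := fun x => (He Q i).eval x ^ 2 * Real.exp (-Q * x ^ 2) with hG
  have hGi : Integrable G := by
    have := poly_gauss_integrable hQ ((He Q i) ^ 2)
    simpa [hG] using this
  have hGi2 : Integrable fun x => Real.exp (Nrm1_E N i j) * G (x - xs N j) :=
    (hGi.comp_sub_right (xs N j)).const_mul _
  have hG0 : ∀ x, 0 ≤ G x := fun x => mul_nonneg (sq_nonneg _) (Real.exp_pos _).le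
  have h1 : ∫ x in (0 : ℝ)..(1 / 9), (Pp N i j).eval x ^ 2 * wr N x ≤
      ∫ x in (0 : ℝ)..(1 / 9), Real.exp (Nrm1_E N i j) * G (x - xs N j) := by
    refine intervalIntegral.integral_mono_on_of_le_Ioo (by norm_num) ?_
      hGi2.intervalIntegrable fun x hx => ?_
    · refine Continuous.intervalIntegrable ?_ _ _
      have hc : Continuous fun x => wr N x := by unfold wr; fun_prop
      exact ((Pp N i j).continuous.pow 2).mul hc
    · exact Nrm1_pt hN hij hx.1 hx.2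
  have h2 : ∫ x in (0 : ℝ)..(1 / 9), Real.exp (Nrm1_E N i j) * G (x - xs N j) ≤
      ∫ x, Real.exp (Nrm1_E N i j) * G (x - xs N j) := by
    rw [intervalIntegral.integral_of_le (by norm_num)]
    exact setIntegral_le_integral hGi2
      (Filter.Eventually.of_forall fun x => mul_nonneg (Real.exp_pos _).le (hG0 _))
  have h3 : ∫ x, Real.exp (Nrm1_E N i j) * G (x - xs N j) =
      Real.exp (Nrm1_E N i j) *
        (Real.sqrt (Real.pi / Q) * (i.factorial : ℝ) / (2 * Q) ^ i) := by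
    rw [integral_const_mul, integral_sub_right_eq_self G (xs N j)]
    rw [← He_int hQ i]
  have hQ1 : Real.pi / Q ≤ 1 := by
    rw [div_le_one hQ]
    have h4 : Real.pi ≤ 4 := Real.pi_le_four
    have h5 : (220 : ℝ) * 1000 * 1 ≤ Q := by
      rw [hQd, show q1 = 220 from rfl]
      nlinarith
    linarith
  have h4 : Real.sqrt (Real.pi / Q) ≤ 1 := Real.sqrt_le_one.mpr hQ1
  have h5 : Real.exp (LB1 N i j) = Real.exp (Nrm1_E N i j) * ((i.factorial : ℝ) / (2 * Q) ^ i) := by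
    have e1 : LB1 N i j = Nrm1_E N i j + (Real.log (i.factorial) - i * Real.log (2 * Q)) := by
      unfold LB1 Nrm1_E
      rw [hQd, show 2 * (q1 * (1000 * (N : ℝ))) = 2 * q1 * (1000 * (N : ℝ)) by ring]
      ring
    rw [e1, Real.exp_add, Real.exp_sub, Real.exp_log (by positivity), Real.exp_nat_mul,
      Real.exp_log (by positivity)]
  refine h1.trans (h2.trans ?_)
  rw [h3, h5]
  refine mul_le_mul_of_nonneg_left ?_ (Real.exp_pos _).le
  refine div_le_div_of_nonneg_right ?_ (by positivity)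
  exact mul_le_of_le_one_left (by positivity) h4

end Pool.TH
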