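import Pool.Agent.Lib.TH.HermB
import Pool.Agent.Lib.TH.Maj2

/-!
# TH.Nrm2 (size 180): the norm on `(1/9, 1)`

`∫_{1/9}^1 (Pp N i j)² |w| ≤ exp (LB2 N i j)` for `N ≥ 1`, `i + j ≤ 55 N`.

PROOF. Put `n = 1000 N`, `Q1 = q1 n = 220000 N`, `Q2 = q2 n = 4150 N`. For `1/9 < x < 1`:
(a) `|w(x)| = exp (N (912 log x + 497 log (1-x) + 455 log (9x-1))) ≤ exp (n (A2 - q2 (x - y1)²))`
    (`maj_two`; `|1 - 9x| = 9x - 1`).
(b) `|He Q1 i (x - xs)| ≤ |x - xs|^i` by `He_le`: `xs ≤ x1`, `x - xs ≥ 1/9 - x1 ≥ 0.038`,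
    `2 Q1 (x - xs)² ≥ 440000 N * 0.00144 ≥ 633 N ≥ 4 i`.
(c) `x - xs ≤ d1 exp ((x - xs - d1)/d1)`, and `x - xs - d1 = j/(Q1 d1) + (x - y1)`. So
    `|x - xs|^(2i) ≤ d1^(2i) exp (2 i j/(Q1 d1²)) exp (2 i (x - y1)/d1)`.
(d) `-Q2 (x - y1)² + 2 i (x - y1)/d1 = -Q2 (x - ys)² + i²/(Q2 d1²)`, `x - ys = (x - y1) - i/(Q2 d1)`.
Hence `(Pp)² |w| ≤ K (He Q2 j (x - ys))² exp (-Q2 (x - ys)²)`,
`K = exp (n A2) d1^(2i) exp (2 i j/(Q1 d1²)) exp (i²/(Q2 d1²))`. Integrate as in TH.Nrm1: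
`≤ K √(π/Q2) j!/(2 Q2)^j ≤ K j!/(2 Q2)^j = exp (LB2 N i j)`.
-/

namespace Pool.TH

open Polynomial MeasureTheory

private lemma Nrm2_pow {t : ℝ} (ht : 0 < t) (k : ℕ) : t ^ k = Real.exp (k * Real.log t) := by
  rw [Real.exp_nat_mul, Real.exp_log ht]

private lemma Nrm2_w {N : ℕ} {x : ℝ} (h0 : 1 / 9 < x) (h1 : x < 1) :
    |wr N x| ≤ Real.exp (1000 * N * (A2 - q2 * (x - y1) ^ 2)) := by
  have hx : 0 < x := by linarith
  have hx1 : 0 < 1 - x := by linarith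
  have hx9 : 0 < 9 * x - 1 := by linarith
  have h9 : |1 - 9 * x| = 9 * x - 1 := by
    rw [abs_of_neg (by linarith)]; ring
  have e : |wr N x| = Real.exp (N * (912 * Real.log x + 497 * Real.log (1 - x) +
      455 * Real.log (9 * x - 1))) := by
    unfold wr
    rw [abs_mul, abs_mul, abs_pow, abs_pow, abs_pow, abs_of_pos hx, abs_of_pos hx1, h9,
      Nrm2_pow hx, Nrm2_pow hx1, Nrm2_pow hx9, ← Real.exp_add, ← Real.exp_add]
    congr 1
    push_cast
    ring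
  rw [e]
  refine Real.exp_le_exp.mpr ?_
  have h2 := mul_le_mul_of_nonneg_left (maj_two h0 h1) (Nat.cast_nonneg (α := ℝ) N)
  refine h2.trans (le_of_eq ?_)
  ring

private lemma Nrm2_alg (n q1 q2 d A Y i j L : ℝ) (hn : n ≠ 0) (h1 : q1 ≠ 0) (h2 : q2 ≠ 0)
    (hd : d ≠ 0) :
    n * (A - q2 * Y ^ 2) + 2 * (i * L) + 2 * (i * ((Y + j / (q1 * n * d)) / d)) =
      n * A + 2 * i * L + 2 * i * j / (q1 * n * d ^ 2) + i ^ 2 / (q2 * n * d ^ 2) -
        q2 * n * (Y - i / (q2 * n * d)) ^ 2 := by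
  field_simp
  ring

private lemma Nrm2_X {N i j : ℕ} (hN : 1 ≤ N) (hij : i + j ≤ 55 * N) {x : ℝ}
    (h0 : 1 / 9 < x) :
    (He (q1 * (1000 * N)) i).eval (x - xs N j) ^ 2 ≤
      Real.exp (2 * (i * Real.log d1) +
        2 * (i * ((x - y1 + j / (q1 * (1000 * N) * d1)) / d1))) := by
  have hN' : (1 : ℝ) ≤ N := by exact_mod_cast hN
  have hd1 : (0 : ℝ) < d1 := by norm_num [d1]
  have hq1 : (0 : ℝ) < q1 := by norm_num [q1]
  have hQ : 0 < q1 * (1000 * (N : ℝ)) := by positivity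
  have hi : (i : ℝ) + j ≤ 55 * N := by exact_mod_cast hij
  have hj0 : (0 : ℝ) ≤ j := Nat.cast_nonneg j
  have hu : 0 ≤ (j : ℝ) / (q1 * (1000 * N) * d1) := by positivity
  have hX : (38 : ℝ) / 1000 ≤ x - xs N j := by
    unfold xs
    have : (x1 : ℝ) = 913 / 12500 := rfl
    linarith
  have hX0 : 0 < x - xs N j := by linarith
  have hb : |(He (q1 * (1000 * N)) i).eval (x - xs N j)| ≤ |x - xs N j| ^ i := by
    refine He_le hQ i _ ?_
    have h2 : ((38 : ℝ) / 1000) ^ 2 ≤ (x - xs N j) ^ 2 :=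
      pow_le_pow_left₀ (by norm_num) hX 2
    have h3 : 2 * (q1 * (1000 * (N : ℝ))) * ((38 : ℝ) / 1000) ^ 2 ≤
        2 * (q1 * (1000 * (N : ℝ))) * (x - xs N j) ^ 2 :=
      mul_le_mul_of_nonneg_left h2 (by positivity)
    refine le_trans ?_ h3
    have h4 : q1 = 220 := rfl
    rw [h4]
    nlinarith
  have hc : x - xs N j ≤ d1 * Real.exp ((x - y1 + j / (q1 * (1000 * N) * d1)) / d1) := by
    have h2 := Real.add_one_le_exp ((x - y1 + j / (q1 * (1000 * N) * d1)) / d1)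
    have h3 := mul_le_mul_of_nonneg_left h2 hd1.le
    refine le_trans (le_of_eq ?_) h3
    have h4 : d1 = y1 - x1 := by norm_num [d1, y1, x1]
    rw [mul_add, mul_div_cancel₀ _ hd1.ne']
    unfold xs
    rw [mul_one]
    nth_rewrite 3 [h4]
    ring
  rw [← sq_abs]
  have h5 : |(He (q1 * (1000 * N)) i).eval (x - xs N j)| ≤
      (d1 * Real.exp ((x - y1 + j / (q1 * (1000 * N) * d1)) / d1)) ^ i := by
    refine hb.trans ?_
    rw [abs_of_pos hX0]
    exact pow_le_pow_left₀ hX0.le hc i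
  refine (pow_le_pow_left₀ (abs_nonneg _) h5 2).trans (le_of_eq ?_)
  rw [mul_pow, Nrm2_pow hd1, ← Real.exp_nat_mul, ← Real.exp_add, ← Real.exp_nat_mul]
  congr 1
  push_cast
  ring

/-- logarithm of the constant -/
private noncomputable def Nrm2_E (N i j : ℕ) : ℝ :=
  1000 * N * A2 + 2 * i * Real.log d1 + 2 * i * j / (q1 * (1000 * N) * d1 ^ 2)
    + i ^ 2 / (q2 * (1000 * N) * d1 ^ 2)

private lemma Nrm2_pt {N i j : ℕ} (hN : 1 ≤ N) (hij : i + j ≤ 55 * N) {x : ℝ}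
    (h0 : 1 / 9 < x) (h1 : x < 1) :
    (Pp N i j).eval x ^ 2 * |wr N x| ≤
      Real.exp (Nrm2_E N i j) * ((He (q2 * (1000 * N)) j).eval (x - ys N i) ^ 2 *
        Real.exp (-(q2 * (1000 * N)) * (x - ys N i) ^ 2)) := by
  have hN' : (1 : ℝ) ≤ N := by exact_mod_cast hN
  have e1 : (Pp N i j).eval x = (He (q1 * (1000 * N)) i).eval (x - xs N j) *
      (He (q2 * (1000 * N)) j).eval (x - ys N i) := by
    simp [Pp]
  rw [e1, mul_pow]
  set H1 := (He (q1 * (1000 * (N : ℝ))) i).eval (x - xs N j) ^ 2 with hH1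
  set H2 := (He (q2 * (1000 * (N : ℝ))) j).eval (x - ys N i) ^ 2 with hH2
  have hH20 : 0 ≤ H2 := sq_nonneg _
  have h2 : H1 * |wr N x| ≤ Real.exp (Nrm2_E N i j) *
      Real.exp (-(q2 * (1000 * N)) * (x - ys N i) ^ 2) := by
    refine (mul_le_mul (Nrm2_X hN hij h0) (Nrm2_w h0 h1) (abs_nonneg _)
      (Real.exp_pos _).le).trans (le_of_eq ?_)
    rw [← Real.exp_add, ← Real.exp_add]
    congr 1
    have h3 := Nrm2_alg (1000 * (N : ℝ)) q1 q2 d1 A2 (x - y1) i j (Real.log d1) (by positivity)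
      (by norm_num [q1]) (by norm_num [q2]) (by norm_num [d1])
    unfold Nrm2_E ys
    linear_combination h3
  calc H1 * H2 * |wr N x| = H2 * (H1 * |wr N x|) := by ring
    _ ≤ H2 * (Real.exp (Nrm2_E N i j) *
      Real.exp (-(q2 * (1000 * N)) * (x - ys N i) ^ 2)) := mul_le_mul_of_nonneg_left h2 hH20
    _ = _ := by ring

theorem nrm_two {N i j : ℕ} (hN : 1 ≤ N) (hij : i + j ≤ 55 * N) :
    ∫ x in (1 / 9 : ℝ)..1, (Pp N i j).eval x ^ 2 * |wr N x| ≤ Real.exp (LB2 N i j) := by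
  have hN' : (1 : ℝ) ≤ N := by exact_mod_cast hN
  have hq2 : (0 : ℝ) < q2 := by norm_num [q2]
  have hQ : 0 < q2 * (1000 * (N : ℝ)) := by positivity
  set Q : ℝ := q2 * (1000 * (N : ℝ)) with hQd
  set G : ℝ → ℝ := fun x => (He Q j).eval x ^ 2 * Real.exp (-Q * x ^ 2) with hG
  have hGi : Integrable G := by
    have := poly_gauss_integrable hQ ((He Q j) ^ 2)
    simpa [hG] using this
  have hGi2 : Integrable fun x => Real.exp (Nrm2_E N i j) * G (x - ys N i) :=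
    (hGi.comp_sub_right (ys N i)).const_mul _
  have hG0 : ∀ x, 0 ≤ G x := fun x => mul_nonneg (sq_nonneg _) (Real.exp_pos _).le
  have h1 : ∫ x in (1 / 9 : ℝ)..1, (Pp N i j).eval x ^ 2 * |wr N x| ≤
      ∫ x in (1 / 9 : ℝ)..1, Real.exp (Nrm2_E N i j) * G (x - ys N i) := by
    refine intervalIntegral.integral_mono_on_of_le_Ioo (by norm_num) ?_
      hGi2.intervalIntegrable fun x hx => ?_
    · refine Continuous.intervalIntegrable ?_ _ _
      have hc : Continuous fun x => wr N x := by unfold wr; fun_prop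
      exact ((Pp N i j).continuous.pow 2).mul hc.abs
    · exact Nrm2_pt hN hij hx.1 hx.2
  have h2 : ∫ x in (1 / 9 : ℝ)..1, Real.exp (Nrm2_E N i j) * G (x - ys N i) ≤
      ∫ x, Real.exp (Nrm2_E N i j) * G (x - ys N i) := by
    rw [intervalIntegral.integral_of_le (by norm_num)]
    exact setIntegral_le_integral hGi2
      (Filter.Eventually.of_forall fun x => mul_nonneg (Real.exp_pos _).le (hG0 _))
  have h3 : ∫ x, Real.exp (Nrm2_E N i j) * G (x - ys N i) =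
      Real.exp (Nrm2_E N i j) *
        (Real.sqrt (Real.pi / Q) * (j.factorial : ℝ) / (2 * Q) ^ j) := by
    rw [integral_const_mul, integral_sub_right_eq_self G (ys N i)]
    rw [← He_int hQ j]
  have hQ1 : Real.pi / Q ≤ 1 := by
    rw [div_le_one hQ]
    have h4 : Real.pi ≤ 4 := Real.pi_le_four
    have h5 : (83 : ℝ) / 20 * 1000 * 1 ≤ Q := by
      rw [hQd, show q2 = 83 / 20 from rfl]
      nlinarith
    linarith
  have h4 : Real.sqrt (Real.pi / Q) ≤ 1 := Real.sqrt_le_one.mpr hQ1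
  have h5 : Real.exp (LB2 N i j) = Real.exp (Nrm2_E N i j) * ((j.factorial : ℝ) / (2 * Q) ^ j) := by
    have e1 : LB2 N i j = Nrm2_E N i j + (Real.log (j.factorial) - j * Real.log (2 * Q)) := by
      unfold LB2 Nrm2_E
      rw [hQd, show 2 * (q2 * (1000 * (N : ℝ))) = 2 * q2 * (1000 * (N : ℝ)) by ring]
      ring
    rw [e1, Real.exp_add, Real.exp_sub, Real.exp_log (by positivity), Real.exp_nat_mul,
      Real.exp_log (by positivity)]
  refine h1.trans (h2.trans ?_)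
  rw [h3, h5]
  refine mul_le_mul_of_nonneg_left ?_ (Real.exp_pos _).le
  refine div_le_div_of_nonneg_right ?_ (by positivity)
  exact mul_le_of_le_one_left (by positivity) h4

end Pool.TH
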