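import Pool.Agent.Lib.TH.Tools

/-!
# TH.RealId (size 120): the functional as an integral

`(Lf M T f : ℝ) = M ∫_0^{1/9} f + (M - T) ∫_{1/9}^1 f`, for a rational polynomial `f`.

PROOF. `Lf_eq_sum` with `n = natDegree + 1`; `f.map` evaluated:
`(f.map (algebraMap ℚ ℝ)).eval x = ∑ k ∈ range n, (f.coeff k : ℝ) * x^k`
(`Polynomial.eval_eq_sum_range'`), integrate termwise
(`intervalIntegral.integral_finsetSum`, `integral_pow`):
`M (1/9)^(k+1)/(k+1) + (M - T) (1 - (1/9)^(k+1))/(k+1) = (M - T + T (1/9)^(k+1))/(k+1) = J(k)`.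
(2) The same for polynomials of the form `Wt N * g`:
evaluation of `(Wt N).map` is `wr N x`.
-/

namespace Pool.TH

open Polynomial Finset

private theorem RealId_eval (f : ℚ[X]) (x : ℝ) :
    (f.map (algebraMap ℚ ℝ)).eval x =
      ∑ k ∈ range (f.natDegree + 1), (f.coeff k : ℝ) * x ^ k := by
  rw [Polynomial.eval_eq_sum_range' (n := f.natDegree + 1)
    (lt_of_le_of_lt Polynomial.natDegree_map_le (Nat.lt_succ_self _))]
  refine Finset.sum_congr rfl fun k _ => ?_
  rw [Polynomial.coeff_map]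
  rfl

private theorem RealId_int (f : ℚ[X]) (a b : ℝ) :
    ∫ x in a..b, (f.map (algebraMap ℚ ℝ)).eval x =
      ∑ k ∈ range (f.natDegree + 1),
        (f.coeff k : ℝ) * ((b ^ (k + 1) - a ^ (k + 1)) / (k + 1)) := by
  simp only [RealId_eval]
  rw [intervalIntegral.integral_finsetSum]
  · refine Finset.sum_congr rfl fun k _ => ?_
    rw [intervalIntegral.integral_const_mul, integral_pow]
  · intro k _
    exact (continuous_const.mul (continuous_pow k)).intervalIntegrable _ _

theorem Lf_real (M T : ℚ) (f : ℚ[X]) :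
    ((Lf M T f : ℚ) : ℝ) = M * (∫ x in (0 : ℝ)..(1 / 9), (f.map (algebraMap ℚ ℝ)).eval x) +
      (M - T) * (∫ x in (1 / 9 : ℝ)..1, (f.map (algebraMap ℚ ℝ)).eval x) := by
  rw [Lf_eq_sum M T f _ (Nat.lt_succ_self _), RealId_int, RealId_int, Finset.mul_sum,
    Finset.mul_sum, ← Finset.sum_add_distrib, Rat.cast_sum]
  refine Finset.sum_congr rfl fun k _ => ?_
  have h1 : ((k : ℝ) + 1) ≠ 0 := by positivity
  have h9 : ((9 : ℝ) ^ (k + 1)) ≠ 0 := by positivity
  rw [Jm]
  push_cast
  rw [one_div, inv_pow, one_pow, zero_pow (Nat.succ_ne_zero k)]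
  field_simp
  ring

theorem Wt_eval (N : ℕ) (x : ℝ) : ((Wt N).map (algebraMap ℚ ℝ)).eval x = wr N x := by
  simp only [Wt, wr, Polynomial.map_mul, Polynomial.map_pow, Polynomial.map_sub,
    Polynomial.map_one, Polynomial.map_X, Polynomial.map_ofNat, Polynomial.eval_mul,
    Polynomial.eval_pow, Polynomial.eval_sub, Polynomial.eval_one, Polynomial.eval_X,
    Polynomial.eval_ofNat]

end Pool.TH
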