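import Pool.Agent.Lib.TH.Defs

/-!
# TH: tools (proved): padic norms of determinants, the product formula, the functional
-/

namespace Pool.TH

open Polynomial Finset

set_option linter.unusedSectionVars false

section general
variable {p : ℕ} [hp : Fact p.Prime]

theorem padicNorm_real_sum_le {ι : Type*} {s : Finset ι} {f : ι → ℚ} {B : ℝ} (hB : 0 ≤ B)
    (h : ∀ i ∈ s, (padicNorm p (f i) : ℝ) ≤ B) : (padicNorm p (∑ i ∈ s, f i) : ℝ) ≤ B := by
  classical
  induction s using Finset.induction_on with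
  | empty => simpa using hB
  | insert a s ha ih =>
    rw [Finset.sum_insert ha]
    have h1 : padicNorm p (f a + ∑ i ∈ s, f i) ≤ max (padicNorm p (f a)) (padicNorm p (∑ i ∈ s, f i)) :=
      padicNorm.nonarchimedean
    have h2 : (padicNorm p (f a + ∑ i ∈ s, f i) : ℝ) ≤
        max (padicNorm p (f a) : ℝ) (padicNorm p (∑ i ∈ s, f i) : ℝ) := by
      exact_mod_cast h1
    exact h2.trans (max_le (h a (Finset.mem_insert_self _ _))
      (ih fun i hi => h i (Finset.mem_insert_of_mem hi)))

theorem padicNorm_real_nonneg (r : ℚ) : (0 : ℝ) ≤ (padicNorm p r : ℝ) := by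
  exact_mod_cast padicNorm.nonneg r

theorem padicNorm_real_mul (r t : ℚ) :
    (padicNorm p (r * t) : ℝ) = (padicNorm p r : ℝ) * (padicNorm p t : ℝ) := by
  rw [padicNorm.mul]; push_cast; ring

theorem padicNorm_prod {ι : Type*} (s : Finset ι) (f : ι → ℚ) :
    (padicNorm p (∏ i ∈ s, f i) : ℝ) = ∏ i ∈ s, (padicNorm p (f i) : ℝ) := by
  classical
  induction s using Finset.induction_on with
  | empty => simp
  | insert a s ha ih => rw [Finset.prod_insert ha, Finset.prod_insert ha, padicNorm_real_mul, ih]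

/-- ultrametric Leibniz bound -/
theorem det_norm_le {K : ℕ} (M : Matrix (Fin K) (Fin K) ℚ) (a b : Fin K → ℝ) (ha : ∀ i, 0 ≤ a i)
    (hb : ∀ i, 0 ≤ b i) (h : ∀ i j, (padicNorm p (M i j) : ℝ) ≤ a i * b j) :
    (padicNorm p M.det : ℝ) ≤ (∏ i, a i) * ∏ j, b j := by
  rw [Matrix.det_apply]
  refine padicNorm_real_sum_le (mul_nonneg (Finset.prod_nonneg fun i _ => ha i)
    (Finset.prod_nonneg fun i _ => hb i)) fun σ _ => ?_
  have h1 : (padicNorm p (Equiv.Perm.sign σ • ∏ i, M (σ i) i) : ℝ) =
      ∏ i, (padicNorm p (M (σ i) i) : ℝ) := by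
    rw [← padicNorm_prod]
    rcases Int.units_eq_one_or (Equiv.Perm.sign σ) with h | h
    · rw [h, one_smul]
    · rw [h, Units.smul_def, Units.val_neg, Units.val_one, neg_smul, one_smul, padicNorm.neg]
  rw [h1, ← Equiv.prod_comp σ a, ← Finset.prod_mul_distrib]
  exact Finset.prod_le_prod (fun i _ => padicNorm_real_nonneg _) fun i _ => h _ _

/-- all entries of norm at most `p`, entries in the good rows of norm at most one -/
theorem det_norm_rows {K : ℕ} (M : Matrix (Fin K) (Fin K) ℚ) (bad : Finset (Fin K))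
    (h : ∀ i j, (padicNorm p (M i j) : ℝ) ≤ p)
    (hg : ∀ i, i ∉ bad → ∀ j, (padicNorm p (M i j) : ℝ) ≤ 1) :
    (padicNorm p M.det : ℝ) ≤ (p : ℝ) ^ bad.card := by
  classical
  have h1 := det_norm_le M (fun i => if i ∈ bad then (p : ℝ) else 1) (fun _ => 1)
    (fun i => by split_ifs <;> positivity) (fun _ => zero_le_one) (fun i j => by
      split_ifs with hi
      · rw [mul_one]; exact h i j
      · rw [mul_one]; exact hg i hi j)
  refine h1.trans (le_of_eq ?_)
  rw [Finset.prod_const_one, mul_one, Finset.prod_ite, Finset.prod_const, Finset.prod_const_one,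
    mul_one]
  congr 2
  ext i
  simp

end general

/-- the functional as a finite sum -/
theorem Lf_eq_sum (M T : ℚ) (f : ℚ[X]) (n : ℕ) (h : f.natDegree < n) :
    Lf M T f = ∑ k ∈ range n, f.coeff k * Jm M T k := by
  unfold Lf
  rw [Polynomial.lsum_apply, Polynomial.sum_over_range' _ _ n h]
  · rfl
  · intro k
    simp

/-- the functional on an integer polynomial -/
theorem Lf_map_eq_sum (M T : ℚ) (f : ℤ[X]) (n : ℕ) (h : f.natDegree < n) :
    Lf M T (f.map (Int.castRingHom ℚ)) = ∑ k ∈ range n, (f.coeff k : ℚ) * Jm M T k := by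
  rw [Lf_eq_sum M T _ n (lt_of_le_of_lt Polynomial.natDegree_map_le h)]
  refine Finset.sum_congr rfl fun k _ => ?_
  rw [Polynomial.coeff_map]
  rfl

theorem WZ_map (A B C : ℕ) : (WZ A B C).map (Int.castRingHom ℚ) =
    X ^ A * (1 - X) ^ B * (1 - 9 * X) ^ C := by
  unfold WZ
  simp [Polynomial.map_pow, Polynomial.map_mul, Polynomial.map_sub]

theorem Wt_eq (N : ℕ) : Wt N = (WZ (912 * N) (497 * N) (455 * N)).map (Int.castRingHom ℚ) := by
  rw [WZ_map]; rfl

theorem natDegree_WZ_le (A B C : ℕ) : (WZ A B C).natDegree ≤ A + B + C := by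
  unfold WZ
  have h1 : (1 - X : ℤ[X]).natDegree ≤ 1 := by compute_degree
  have h2 : (1 - 9 * X : ℤ[X]).natDegree ≤ 1 := by compute_degree
  refine natDegree_mul_le.trans ?_
  refine Nat.add_le_add (natDegree_mul_le.trans (Nat.add_le_add ?_ ?_)) ?_
  · exact natDegree_X_pow_le A
  · exact (natDegree_pow_le.trans (Nat.mul_le_mul_left _ h1)).trans (by rw [mul_one])
  · exact (natDegree_pow_le.trans (Nat.mul_le_mul_left _ h2)).trans (by rw [mul_one])

theorem WZ_mul (A B C A' B' C' : ℕ) : WZ A B C * WZ A' B' C' = WZ (A + A') (B + B') (C + C') := by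
  unfold WZ
  rw [pow_add, pow_add, pow_add]
  ring

theorem X_pow_eq_WZ (k : ℕ) : (X ^ k : ℤ[X]) = WZ k 0 0 := by
  unfold WZ
  simp

/-- the product formula, one half -/
theorem ll_product (q : ℚ) (hq : q ≠ 0) (S : Finset ℕ) (hS : ∀ p ∈ S, p.Prime)
    (hout : ∀ p : ℕ, p.Prime → p ∉ S → padicNorm p q ≤ 1) :
    -∑ p ∈ S, Real.log (padicNorm p q : ℝ) ≤ Real.log |(q : ℝ)| := by
  classical
  have hnum : q.num.natAbs ≠ 0 := by
    rw [Int.natAbs_ne_zero]
    exact Rat.num_ne_zero.2 hq
  have hden : q.den ≠ 0 := q.den_ne_zero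
  have hlog : ∀ (N : ℕ) (T : Finset ℕ), N ≠ 0 → N.primeFactors ⊆ T → (∀ p ∈ T, p.Prime) →
      Real.log (N : ℝ) = ∑ p ∈ T, (padicValNat p N : ℝ) * Real.log p := by
    intro N T hN hT hp
    rw [Real.log_nat_eq_sum_factorization, Finsupp.sum, Nat.support_factorization]
    rw [← sum_subset hT]
    · refine sum_congr rfl fun p hp => ?_
      rw [Nat.factorization_def _ (Nat.prime_of_mem_primeFactors hp)]
    · intro p hpT hpN
      have : padicValNat p N = 0 := by
        rw [← Nat.factorization_def _ (hp p hpT)]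
        rw [← Finsupp.notMem_support_iff, Nat.support_factorization]
        exact hpN
      rw [this, Nat.cast_zero, zero_mul]
  obtain ⟨T, hT⟩ : ∃ T : Finset ℕ, T = S ∪ q.num.natAbs.primeFactors ∪ q.den.primeFactors :=
    ⟨_, rfl⟩
  have hTp : ∀ p ∈ T, p.Prime := by
    intro p hp
    rw [hT, mem_union, mem_union] at hp
    rcases hp with (hp | hp) | hp
    · exact hS p hp
    · exact Nat.prime_of_mem_primeFactors hp
    · exact Nat.prime_of_mem_primeFactors hp
  have h1 := hlog q.num.natAbs T hnum (by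
    rw [hT]; exact subset_union_right.trans subset_union_left) hTp
  have h2 := hlog q.den T hden (by rw [hT]; exact subset_union_right) hTp
  have h3 : Real.log |(q : ℝ)| = Real.log (q.num.natAbs : ℝ) - Real.log (q.den : ℝ) := by
    have h4 : |(q : ℝ)| = (q.num.natAbs : ℝ) / (q.den : ℝ) := by
      have h5 : (q : ℝ) = (q.num : ℝ) / (q.den : ℝ) := by
        exact_mod_cast (Rat.num_div_den q).symm
      rw [h5, abs_div, Nat.abs_cast, Nat.cast_natAbs]
      push_cast
      rfl
    rw [h4, Real.log_div]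
    · exact_mod_cast hnum
    · exact_mod_cast hden
  have h5 : ∀ p ∈ T, Real.log (padicNorm p q : ℝ) =
      -(((padicValNat p q.num.natAbs : ℝ) - (padicValNat p q.den : ℝ)) * Real.log p) := by
    intro p hp
    have hpp := hTp p hp
    rw [padicNorm.eq_zpow_of_nonzero hq, Rat.cast_zpow, Rat.cast_natCast, Real.log_zpow]
    have h6 : padicValRat p q = (padicValNat p q.num.natAbs : ℤ) - (padicValNat p q.den : ℤ) := rfl
    rw [h6, Int.cast_neg, Int.cast_sub, Int.cast_natCast, Int.cast_natCast]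
    ring
  have h6 : Real.log |(q : ℝ)| = -∑ p ∈ T, Real.log (padicNorm p q : ℝ) := by
    rw [h3, h1, h2, ← sum_sub_distrib, ← sum_neg_distrib]
    refine sum_congr rfl fun p hp => ?_
    rw [h5 p hp]
    ring
  rw [h6]
  refine neg_le_neg ?_
  have hST : S ⊆ T := by rw [hT]; exact subset_union_left.trans subset_union_left
  rw [← sum_sdiff hST]
  have h7 : ∑ p ∈ T \ S, Real.log (padicNorm p q : ℝ) ≤ 0 := by
    refine sum_nonpos fun p hp => ?_
    rw [Finset.mem_sdiff] at hp
    refine Real.log_nonpos ?_ ?_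
    · exact_mod_cast padicNorm.nonneg q
    · exact_mod_cast hout p (hTp p hp.1) hp.2
  linarith

end Pool.TH
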