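import Pool.Agent.Lib.TH.Nrm1
import Pool.Agent.Lib.TH.Nrm2
import Pool.Agent.Lib.TH.Gram
import Pool.Agent.Lib.TH.RealId

/-!
# TH.Upper0 (size 200): the determinant as a Gram determinant

`D = det (Dm M T N) > 0` and `log D ≤ ∑_{k < 55 N} Gm lM lE N k`, if `0 < M ≤ exp lM`,
`|M - T| ≤ exp lE` and `(M - T) (-1)^(455 N) ≥ 0`.

PROOF. Let `ℓ : ℝ[X] →ₗ[ℝ] ℝ`, `ℓ f = M ∫_0^{1/9} f w + (M - T) ∫_{1/9}^1 f w`, `w = wr N`
(define the linear map with `map_add'`, `map_smul'`; everything is continuous). On `(1/9, 1)`,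
`(M - T) w = |M - T| |w|`: `w = (-1)^(455 N) |w|` and the sign hypothesis.
So `ℓ f = M ∫_0^{1/9} f w + |M - T| ∫_{1/9}^1 f |w|`. By `Lf_real` and `Wt_eval`:
`((Dm M T N) i j : ℝ) = ℓ (X^(i+j))`, hence `(D : ℝ) = det (ℓ (X^(i+j)))` (`RingHom.map_det` /
`Matrix.det` of the mapped matrix, `Rat.castHom`).
`hpos`: for `f ≠ 0`, `∫_0^{1/9} f² w > 0` (continuous, nonnegative, not identically zero on
`(0, 1/9)`: `intervalIntegral.intervalIntegral_pos_of_pos_on`-like; a nonzero polynomial has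
finitely many roots, pick a point of `(0,1/9)` where it does not vanish;
`Continuous.integral_pos_of_hasCompactSupport_nonneg_nonzero` or
`intervalIntegral.integral_pos` (`0 ≤ f` on `Ioc`, `∃ c ∈ Icc, 0 < f c`)), the second part is `≥ 0`.
`gram_bound` with `P k = Pp N (k - j) j`, where `j = j(k) ≤ k` attains the minimum
`Gm lM lE N k` (`Finset.exists_mem_eq_inf'`); `Pp N i j` is monic of degree `i + j` (`He_monic`,
`Monic.comp_X_sub_C`, `natDegree_comp`, `Monic.mul`). Then `0 < D ≤ ∏ ℓ (P_k²)`, and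
`ℓ (P_k²) ≤ exp (lM + LB1) + exp (lE + LB2) ≤ 2 exp (max ..) = exp (GG ..)` by `nrm_one`,
`nrm_two`. Take logarithms (`Real.log_le_log`, `Real.log_prod`-free: `log (∏ exp) = ∑`,
`Real.exp_sum`).
-/

namespace Pool.TH

open Polynomial MeasureTheory

private theorem upper0_cont (N : ℕ) : Continuous (wr N) := by
  unfold wr
  fun_prop

/-- the functional -/
private noncomputable def upper0L (a b : ℝ) (N : ℕ) : ℝ[X] →ₗ[ℝ] ℝ where
  toFun f := a * (∫ x in (0 : ℝ)..(1 / 9), f.eval x * wr N x) +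
    b * (∫ x in (1 / 9 : ℝ)..1, f.eval x * wr N x)
  map_add' f g := by
    have hc : ∀ h : ℝ[X], Continuous fun x => h.eval x * wr N x := fun h =>
      h.continuous.mul (upper0_cont N)
    have h1 : ∀ c d : ℝ, ∫ x in c..d, (f + g).eval x * wr N x =
        (∫ x in c..d, f.eval x * wr N x) + ∫ x in c..d, g.eval x * wr N x := by
      intro c d
      rw [← intervalIntegral.integral_add ((hc f).intervalIntegrable _ _)
        ((hc g).intervalIntegrable _ _)]
      refine intervalIntegral.integral_congr fun x _ => ?_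
      simp only [eval_add]
      ring
    rw [h1, h1]
    ring
  map_smul' r f := by
    have h1 : ∀ c d : ℝ, ∫ x in c..d, (r • f).eval x * wr N x =
        r * ∫ x in c..d, f.eval x * wr N x := by
      intro c d
      rw [← intervalIntegral.integral_const_mul]
      refine intervalIntegral.integral_congr fun x _ => ?_
      simp only [eval_smul, smul_eq_mul]
      ring
    rw [h1, h1, RingHom.id_apply, smul_eq_mul]
    ring

private theorem upper0L_apply (a b : ℝ) (N : ℕ) (f : ℝ[X]) : upper0L a b N f =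
    a * (∫ x in (0 : ℝ)..(1 / 9), f.eval x * wr N x) +
      b * (∫ x in (1 / 9 : ℝ)..1, f.eval x * wr N x) := rfl

private theorem upper0_pos {N : ℕ} {x : ℝ} (h0 : 0 < x) (h1 : x < 1 / 9) : 0 < wr N x := by
  unfold wr
  have h2 : 0 < 1 - x := by linarith
  have h3 : 0 < 1 - 9 * x := by linarith
  positivity

private theorem upper0_nonneg {N : ℕ} {x : ℝ} (h0 : 0 ≤ x) (h1 : x ≤ 1 / 9) : 0 ≤ wr N x := by
  unfold wr
  have h2 : 0 ≤ 1 - x := by linarith
  have h3 : 0 ≤ 1 - 9 * x := by linarith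
  positivity

private theorem upper0_abs {N : ℕ} {x : ℝ} (h0 : 1 / 9 ≤ x) (h1 : x ≤ 1) :
    wr N x = (-1) ^ (455 * N) * |wr N x| := by
  have h2 : 0 ≤ x := by linarith
  have h3 : 0 ≤ 1 - x := by linarith
  have h4 : 0 ≤ 9 * x - 1 := by linarith
  have h5 : wr N x = (-1) ^ (455 * N) * (x ^ (912 * N) * (1 - x) ^ (497 * N) *
      (9 * x - 1) ^ (455 * N)) := by
    unfold wr
    have h6 : 1 - 9 * x = (-1) * (9 * x - 1) := by ring
    rw [h6, mul_pow]
    ring
  have h7 : |wr N x| = x ^ (912 * N) * (1 - x) ^ (497 * N) * (9 * x - 1) ^ (455 * N) := by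
    rw [h5, abs_mul, abs_pow, abs_neg, abs_one, one_pow, one_mul]
    exact abs_of_nonneg (by positivity)
  rw [h7]
  exact h5

private theorem upper0_second (N : ℕ) (b : ℝ) (hb : 0 ≤ b * (-1) ^ (455 * N)) (f : ℝ[X]) :
    b * (∫ x in (1 / 9 : ℝ)..1, (f * f).eval x * wr N x) =
      |b| * ∫ x in (1 / 9 : ℝ)..1, f.eval x ^ 2 * |wr N x| := by
  have h1 : ∫ x in (1 / 9 : ℝ)..1, (f * f).eval x * wr N x =
      (-1) ^ (455 * N) * ∫ x in (1 / 9 : ℝ)..1, f.eval x ^ 2 * |wr N x| := by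
    rw [← intervalIntegral.integral_const_mul]
    refine intervalIntegral.integral_congr fun x hx => ?_
    rw [Set.uIcc_of_le (by norm_num)] at hx
    simp only [eval_mul]
    rw [upper0_abs hx.1 hx.2, abs_mul, abs_pow, abs_neg, abs_one, one_pow, one_mul, abs_abs]
    ring
  have h2 : b * (-1) ^ (455 * N) = |b| := by
    rw [← abs_of_nonneg hb, abs_mul, abs_pow, abs_neg, abs_one, one_pow, mul_one]
  rw [h1, ← mul_assoc, h2]

private theorem upper0_first_pos (N : ℕ) {f : ℝ[X]} (hf : f ≠ 0) :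
    0 < ∫ x in (0 : ℝ)..(1 / 9), (f * f).eval x * wr N x := by
  refine intervalIntegral.integral_pos (by norm_num)
    ((f * f).continuous.mul (upper0_cont N)).continuousOn ?_ ?_
  · intro x hx
    rw [eval_mul]
    exact mul_nonneg (mul_self_nonneg _) (upper0_nonneg hx.1.le hx.2)
  · by_contra hcon
    push Not at hcon
    apply hf
    refine Polynomial.eq_zero_of_infinite_isRoot f ?_
    refine Set.Infinite.mono ?_ (Set.Ioo_infinite (show (0 : ℝ) < 1 / 9 by norm_num))
    intro x hx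
    have h1 := hcon x ⟨hx.1.le, hx.2.le⟩
    rw [eval_mul] at h1
    have h2 := upper0_pos (N := N) hx.1 hx.2
    change f.eval x = 0
    by_contra h3
    have h4 : 0 < f.eval x * f.eval x := mul_self_pos.2 h3
    exact absurd h1 (not_le.2 (mul_pos h4 h2))

private theorem upper0_Pp (N i j : ℕ) : (Pp N i j).Monic ∧ (Pp N i j).natDegree = i + j := by
  unfold Pp
  obtain ⟨h1, h2⟩ := He_monic (q1 * (1000 * N)) i
  obtain ⟨h3, h4⟩ := He_monic (q2 * (1000 * N)) j
  have h5 := h1.comp_X_sub_C (xs N j)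
  have h6 := h3.comp_X_sub_C (ys N i)
  refine ⟨h5.mul h6, ?_⟩
  rw [h5.natDegree_mul h6, natDegree_comp, natDegree_comp, natDegree_X_sub_C, natDegree_X_sub_C,
    h2, h4, mul_one, mul_one]

private theorem upper0_entry (M T : ℚ) (N k : ℕ) :
    ((Lf M T (Wt N * X ^ k) : ℚ) : ℝ) = upper0L (M : ℝ) ((M : ℝ) - (T : ℝ)) N (X ^ k) := by
  rw [Lf_real, upper0L_apply]
  have h1 : ∀ c d : ℝ, ∫ x in c..d, ((Wt N * X ^ k).map (algebraMap ℚ ℝ)).eval x =
      ∫ x in c..d, (X ^ k : ℝ[X]).eval x * wr N x := by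
    intro c d
    refine intervalIntegral.integral_congr fun x _ => ?_
    simp only [Polynomial.map_mul, Polynomial.map_pow, map_X, eval_mul, eval_pow, eval_X]
    rw [Wt_eval]
    ring
  rw [h1, h1]

theorem log_det_le {M T : ℚ} {N : ℕ} (hN : 1 ≤ N) (hM : 0 < M) {lM lE : ℝ}
    (hlM : (M : ℝ) ≤ Real.exp lM) (hlE : |((M - T : ℚ) : ℝ)| ≤ Real.exp lE)
    (hpar : 0 ≤ (M - T) * (-1) ^ (455 * N)) :
    0 < (Dm M T N).det ∧
      Real.log ((Dm M T N).det : ℝ) ≤ ∑ k ∈ Finset.range (55 * N), Gm lM lE N k := by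
  have hM' : (0 : ℝ) < M := by exact_mod_cast hM
  have hpar' : (0 : ℝ) ≤ ((M : ℝ) - (T : ℝ)) * (-1) ^ (455 * N) := by exact_mod_cast hpar
  push_cast at hlE
  set ℓ := upper0L (M : ℝ) ((M : ℝ) - (T : ℝ)) N with hℓ
  -- the determinant
  have hdet : ((Dm M T N).det : ℝ) =
      (Matrix.of fun i j : Fin (55 * N) => ℓ (X ^ ((i : ℕ) + (j : ℕ)))).det := by
    have h1 := (Rat.castHom ℝ).map_det (Dm M T N)
    rw [Rat.coe_castHom] at h1
    rw [h1]
    congr 1
    ext i j
    simp only [RingHom.mapMatrix_apply, Matrix.map_apply, Dm, Matrix.of_apply, Rat.coe_castHom]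
    exact upper0_entry M T N _
  have hpos : ∀ f : ℝ[X], f ≠ 0 → f.natDegree < 55 * N → 0 < ℓ (f * f) := by
    intro f hf _
    rw [hℓ, upper0L_apply, upper0_second N _ hpar' f]
    have h1 : 0 ≤ ∫ x in (1 / 9 : ℝ)..1, f.eval x ^ 2 * |wr N x| := by
      refine intervalIntegral.integral_nonneg (by norm_num) fun x _ => ?_
      positivity
    have h2 := mul_pos hM' (upper0_first_pos N hf)
    have h3 := mul_nonneg (abs_nonneg ((M : ℝ) - (T : ℝ))) h1
    linarith
  -- the choice of the polynomials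
  have hex : ∀ k : ℕ, ∃ j : ℕ, j ≤ k ∧ Gm lM lE N k = GG lM lE N (k - j) j := by
    intro k
    obtain ⟨j, hj, hj'⟩ := Finset.exists_mem_eq_inf' (s := Finset.range (k + 1)) ⟨0, by simp⟩
      fun j => GG lM lE N (k - j) j
    exact ⟨j, Nat.lt_succ_iff.1 (Finset.mem_range.1 hj), hj'⟩
  choose j hj1 hj2 using hex
  have hP : ∀ i, i < 55 * N → (Pp N (i - j i) (j i)).Monic ∧
      (Pp N (i - j i) (j i)).natDegree = i := by
    intro i _
    obtain ⟨h1, h2⟩ := upper0_Pp N (i - j i) (j i)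
    exact ⟨h1, h2.trans (Nat.sub_add_cancel (hj1 i))⟩
  obtain ⟨hD0, hD1⟩ := gram_bound (K := 55 * N) ℓ hpos (fun i => Pp N (i - j i) (j i)) hP
  rw [← hdet] at hD0 hD1
  refine ⟨by exact_mod_cast hD0, ?_⟩
  rw [Real.log_le_iff_le_exp hD0, Real.exp_sum]
  refine hD1.trans (Finset.prod_le_prod (fun i hi => ?_) fun i hi => ?_)
  · have hi' := Finset.mem_range.1 hi
    have h1 := hP i hi'
    exact (hpos _ h1.1.ne_zero (by rw [h1.2]; exact hi')).le
  · have hi' := Finset.mem_range.1 hi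
    have hij : (i - j i) + j i ≤ 55 * N := by
      rw [Nat.sub_add_cancel (hj1 i)]
      exact hi'.le
    have h1 := nrm_one hN hij
    have h2 := nrm_two hN hij
    rw [hj2 i, GG, hℓ, upper0L_apply, upper0_second N _ hpar' _]
    have h3 : ∫ x in (0 : ℝ)..(1 / 9), (Pp N (i - j i) (j i) * Pp N (i - j i) (j i)).eval x *
        wr N x = ∫ x in (0 : ℝ)..(1 / 9), (Pp N (i - j i) (j i)).eval x ^ 2 * wr N x := by
      refine intervalIntegral.integral_congr fun x _ => ?_
      simp only [eval_mul]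
      ring
    have h4 : 0 ≤ ∫ x in (0 : ℝ)..(1 / 9), (Pp N (i - j i) (j i)).eval x ^ 2 * wr N x := by
      refine intervalIntegral.integral_nonneg (by norm_num) fun x hx => ?_
      exact mul_nonneg (sq_nonneg _) (upper0_nonneg hx.1 hx.2)
    have h5 : 0 ≤ ∫ x in (1 / 9 : ℝ)..1, (Pp N (i - j i) (j i)).eval x ^ 2 * |wr N x| := by
      refine intervalIntegral.integral_nonneg (by norm_num) fun x _ => ?_
      positivity
    rw [h3, Real.exp_add, Real.exp_log (by norm_num : (0 : ℝ) < 2)]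
    have h6 := mul_le_mul hlM h1 h4 (Real.exp_pos _).le
    have h7 := mul_le_mul hlE h2 h5 (Real.exp_pos _).le
    rw [← Real.exp_add] at h6 h7
    have h8 := Real.exp_le_exp.2 (le_max_left (lM + LB1 N (i - j i) (j i))
      (lE + LB2 N (i - j i) (j i)))
    have h9 := Real.exp_le_exp.2 (le_max_right (lM + LB1 N (i - j i) (j i))
      (lE + LB2 N (i - j i) (j i)))
    linarith

end Pool.TH
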